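import Pool.Agent.LibTB10.Defs
/-!
ROW [TB10 A1]. If E(f,M) ≠ 0 then some quotient N = M/K with E(f,N) ≠ 0 is a brick.
PLAN. Choose K : Submodule A M with ¬ E0 f (M ⧸ K) and finrank k (M ⧸ K) minimal (K = ⊥ is a candidate: M ⧸ ⊥ ≃ M;
E0 is invariant under linear equivalences, prove a small lemma).  N := M ⧸ K is nontrivial (E0 f of a subsingleton holds).
Let h : N → N, h ≠ 0.  Suppose ker h ≠ ⊥.  Then
 (i) N ⧸ range h: quotient of M (third isomorphism theorem or: every quotient N ⧸ R is M ⧸ comap): range h ≠ ⊥ so finrank is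
     smaller, so E0 f (N ⧸ range h);
 (ii) range h ≃ N ⧸ ker h, smaller finrank as ker h ≠ ⊥, so E0 f (range h).
 Useful general form: for every Submodule R ≠ ⊥ of N, E0 f (N ⧸ R)  (DoubleQuot / `Submodule.quotientQuotientEquivQuotient`,
 or directly with K' = comap (mkQ K) R and `Submodule.Quotient.equiv`...).
 (iii) right exactness: E0 f (range h) and E0 f (N ⧸ range h) give E0 f N: given x : P → N take q₁ : Q → N ⧸ range h with
     q₁ ∘ f = mkQ ∘ x, lift q₁ to q : Q → N (Q projective: `Module.projective_lifting_property`); x - q ∘ f lands in range h,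
     so = q₂ ∘ f with q₂ : Q → range h; x = (q + subtype ∘ q₂) ∘ f.
 So ker h = ⊥, h injective, bijective by finite dimension (over k: `LinearMap.injective_iff_surjective` for h.restrictScalars k).
-/
set_option autoImplicit false
universe u
namespace TB10
open Module

theorem A1_E0_equiv {A : Type u} [Ring A]
    {P Q : Type u} [AddCommGroup P] [Module A P] [AddCommGroup Q] [Module A Q]
    (f : P →ₗ[A] Q) {X Y : Type u} [AddCommGroup X] [Module A X] [AddCommGroup Y] [Module A Y]
    (e : X ≃ₗ[A] Y) (h : E0 f X) : E0 f Y := by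
  intro y
  obtain ⟨q, hq⟩ := h (e.symm.toLinearMap ∘ₗ y)
  refine ⟨e.toLinearMap ∘ₗ q, ?_⟩
  rw [LinearMap.comp_assoc, hq]
  ext p
  simp

theorem A1_E0_ext {A : Type u} [Ring A]
    {P Q : Type u} [AddCommGroup P] [Module A P] [AddCommGroup Q] [Module A Q] [Module.Projective A Q]
    (f : P →ₗ[A] Q) {N : Type u} [AddCommGroup N] [Module A N] (R : Submodule A N)
    (h1 : E0 f R) (h2 : E0 f (N ⧸ R)) : E0 f N := by
  intro x
  obtain ⟨q1, hq1⟩ := h2 (R.mkQ ∘ₗ x)
  obtain ⟨q, hq⟩ := Module.projective_lifting_property R.mkQ q1 (Submodule.mkQ_surjective _)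
  have hmem : ∀ p, (x - q ∘ₗ f) p ∈ R := by
    intro p
    rw [← Submodule.Quotient.mk_eq_zero, ← Submodule.mkQ_apply, LinearMap.sub_apply, map_sub]
    have h3 := LinearMap.congr_fun hq1 p
    have h4 := LinearMap.congr_fun hq (f p)
    simp only [LinearMap.comp_apply] at h3 h4 ⊢
    rw [h4, h3, sub_self]
  obtain ⟨q2, hq2⟩ := h1 ((x - q ∘ₗ f).codRestrict R hmem)
  refine ⟨q + R.subtype ∘ₗ q2, ?_⟩
  ext p
  have h5 : ((q2 (f p) : R) : N) = x p - q (f p) :=
    congrArg Subtype.val (LinearMap.congr_fun hq2 p)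
  simp only [LinearMap.comp_apply, LinearMap.add_apply, Submodule.subtype_apply]
  rw [h5, add_sub_cancel]

theorem A1_finrank_lt {k : Type u} [Field k] {A : Type u} [Ring A] [Algebra k A]
    {N X : Type u} [AddCommGroup N] [Module A N] [Module k N] [IsScalarTower k A N]
    [Module.Finite k N] [AddCommGroup X] [Module A X] [Module k X] [IsScalarTower k A X]
    (φ : N →ₗ[A] X) (hs : Function.Surjective φ) (hk : LinearMap.ker φ ≠ ⊥) :
    finrank k X < finrank k N := by
  haveI : Module.Finite k X := Module.Finite.of_surjective (φ.restrictScalars k) hs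
  refine lt_of_le_of_ne (LinearMap.finrank_le_finrank_of_surjective (f := φ.restrictScalars k) hs) ?_
  intro he
  apply hk
  rw [LinearMap.ker_eq_bot]
  exact (LinearMap.injective_iff_surjective_of_finrank_eq_finrank (f := φ.restrictScalars k)
    he.symm).2 hs

theorem exists_brick_quot {k : Type u} [Field k] {A : Type u} [Ring A] [Algebra k A]
    {P Q : Type u} [AddCommGroup P] [Module A P] [AddCommGroup Q] [Module A Q] [Module.Projective A Q]
    (f : P →ₗ[A] Q) {M : Type u} [AddCommGroup M] [Module A M] [Module k M] [IsScalarTower k A M]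
    [Module.Finite k M] (h : ¬ E0 f M) :
    ∃ K : Submodule A M, IsBrick A (M ⧸ K) ∧ ¬ E0 f (M ⧸ K) := by
  classical
  have hex : ∃ n : ℕ, ∃ K : Submodule A M, ¬ E0 f (M ⧸ K) ∧ finrank k (M ⧸ K) = n :=
    ⟨_, ⊥, fun h' => h (A1_E0_equiv f (Submodule.quotEquivOfEqBot ⊥ rfl) h'), rfl⟩
  obtain ⟨K, hK, hKn⟩ := Nat.find_spec hex
  have hmin : ∀ K' : Submodule A M, ¬ E0 f (M ⧸ K') → finrank k (M ⧸ K) ≤ finrank k (M ⧸ K') := by
    intro K' hK'
    rw [hKn]
    exact Nat.find_min' hex ⟨K', hK', rfl⟩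
  have hquot : ∀ R : Submodule A (M ⧸ K), R ≠ ⊥ → E0 f ((M ⧸ K) ⧸ R) := by
    intro R hR
    by_contra hn
    have hsurj : Function.Surjective (R.mkQ ∘ₗ K.mkQ) := by
      rw [LinearMap.coe_comp]
      exact (Submodule.mkQ_surjective R).comp (Submodule.mkQ_surjective K)
    let e := (R.mkQ ∘ₗ K.mkQ).quotKerEquivOfSurjective hsurj
    have h1 := hmin (LinearMap.ker (R.mkQ ∘ₗ K.mkQ)) (fun h' => hn (A1_E0_equiv f e h'))
    have h2 : finrank k (M ⧸ LinearMap.ker (R.mkQ ∘ₗ K.mkQ)) = finrank k ((M ⧸ K) ⧸ R) :=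
      (e.restrictScalars k).finrank_eq
    have h3 : finrank k ((M ⧸ K) ⧸ R) < finrank k (M ⧸ K) := by
      apply A1_finrank_lt (A := A) R.mkQ (Submodule.mkQ_surjective R)
      rw [Submodule.ker_mkQ]
      exact hR
    omega
  refine ⟨K, ⟨?_, ?_⟩, hK⟩
  · by_contra hn
    rw [not_nontrivial_iff_subsingleton] at hn
    apply hK
    intro x
    refine ⟨0, ?_⟩
    ext p
    exact Subsingleton.elim _ _
  · intro g hg
    have hker : LinearMap.ker g = ⊥ := by
      by_contra hker
      have hrange : LinearMap.range g ≠ ⊥ := fun h' => hg (LinearMap.range_eq_bot.1 h')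
      exact hK (A1_E0_ext f (LinearMap.range g)
        (A1_E0_equiv f g.quotKerEquivRange (hquot _ hker)) (hquot _ hrange))
    have hinj : Function.Injective g := LinearMap.ker_eq_bot.1 hker
    exact ⟨hinj, (LinearMap.injective_iff_surjective (f := g.restrictScalars k)).1 hinj⟩

end TB10
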