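import Pool.Agent.LibTB10.L4
/-!
ROW [TB10 A2]. (cite L4.map_ker_le_range) If rank of f ↦ (Hom(Q,N) → Hom(P,N)) is maximal at f₀ and some surjection p : Q → N
kills f₀ (p f₀ = 0), then E(f₀,N) = 0.
PLAN. Let x : P → N.  P projective, p surjective: x = p ∘ δ with δ : P → Q (`Module.projective_lifting_property`).
Apply map_ker_le_range with T = pre k f₀ N, S = pre k δ N, v = p: T + c • S = pre k (f₀ + c • δ) N (here c • δ uses the
k-module structure of Q: `LinearMap` smul; check: (q ∘ (f₀ + c • δ)) = q ∘ f₀ + c • (q ∘ δ), q is k-linear because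
IsScalarTower), so hmax gives the rank hypothesis.  Result: p ∘ δ ∈ range (pre k f₀ N), i.e. x = q ∘ f₀.
-/
set_option autoImplicit false
universe u
namespace TB10
open Module

theorem E0_of_max {k : Type u} [Field k] [Infinite k] {A : Type u} [Ring A] [Algebra k A]
    {P Q : Type u} [AddCommGroup P] [Module A P] [Module k P] [IsScalarTower k A P] [Module.Finite k P]
    [Module.Projective A P]
    [AddCommGroup Q] [Module A Q] [Module k Q] [IsScalarTower k A Q] [Module.Finite k Q]
    {N : Type u} [AddCommGroup N] [Module A N] [Module k N] [IsScalarTower k A N] [Module.Finite k N]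
    (f₀ : P →ₗ[A] Q)
    (hmax : ∀ f : P →ₗ[A] Q, finrank k (LinearMap.range (pre k f N)) ≤ finrank k (LinearMap.range (pre k f₀ N)))
    (p : Q →ₗ[A] N) (hp : Function.Surjective p) (hpf : p ∘ₗ f₀ = 0) : E0 f₀ N := by
  intro x
  obtain ⟨δ, hδ⟩ := Module.projective_lifting_property p x hp
  have key : ∀ c : k, pre k f₀ N + c • pre k δ N = pre k (f₀ + c • δ) N := by
    intro c
    refine LinearMap.ext fun q => LinearMap.ext fun y => ?_
    have h : q (c • δ y) = c • q (δ y) := by
      rw [← algebraMap_smul A c (δ y), map_smul, algebraMap_smul]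
    show q (f₀ y) + c • q (δ y) = q (f₀ y + c • δ y)
    rw [map_add, h]
  have hrank : ∀ c : k, finrank k (LinearMap.range (pre k f₀ N + c • pre k δ N)) ≤
      finrank k (LinearMap.range (pre k f₀ N)) := by
    intro c
    rw [key]
    exact hmax _
  obtain ⟨q, hq⟩ := map_ker_le_range (pre k f₀ N) (pre k δ N) hrank p hpf
  refine ⟨q, ?_⟩
  have hq' : q ∘ₗ f₀ = p ∘ₗ δ := hq
  rw [hq', hδ]

end TB10
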