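import Pool.Agent.LibTB10.Defs
/-!
ROW [TB10 A3]. E(f,g) = 0 iff E(f, coker g) = 0 (P projective).
PLAN. (→) x : P → Q' ⧸ range g; lift to y : P → Q' (projective), y = α f + g β, then x = (mkQ ∘ α) ∘ f since mkQ ∘ g = 0.
(←) h : P → Q'; mkQ ∘ h = q ∘ f, lift q : Q → Q' ⧸ range g to α : Q → Q' (Q projective); h - α f lands in range g, so lifts
through g : P' → range g surjective: h - α f = g β (P projective).
-/
set_option autoImplicit false
universe u
namespace TB10
open Module

theorem EE_iff_E0 {A : Type u} [Ring A]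
    {P Q P' Q' : Type u} [AddCommGroup P] [Module A P] [AddCommGroup Q] [Module A Q]
    [AddCommGroup P'] [Module A P'] [AddCommGroup Q'] [Module A Q'] [Module.Projective A P]
    [Module.Projective A Q] (f : P →ₗ[A] Q) (g : P' →ₗ[A] Q') :
    EE f g ↔ E0 f (Q' ⧸ LinearMap.range g) := by
  constructor
  · intro h x
    obtain ⟨y, hy⟩ := Module.projective_lifting_property (LinearMap.range g).mkQ x
      (Submodule.mkQ_surjective _)
    obtain ⟨α, β, hαβ⟩ := h y
    refine ⟨(LinearMap.range g).mkQ ∘ₗ α, ?_⟩
    rw [← hy, ← hαβ]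
    ext p
    simp only [LinearMap.comp_apply, LinearMap.add_apply, map_add]
    have h0 : (LinearMap.range g).mkQ (g (β p)) = 0 := by
      rw [Submodule.mkQ_apply, Submodule.Quotient.mk_eq_zero]
      exact LinearMap.mem_range_self g _
    rw [h0, add_zero]
  · intro h x
    obtain ⟨q, hq⟩ := h ((LinearMap.range g).mkQ ∘ₗ x)
    obtain ⟨α, hα⟩ := Module.projective_lifting_property (LinearMap.range g).mkQ q
      (Submodule.mkQ_surjective _)
    have hmem : ∀ p, (x - α ∘ₗ f) p ∈ LinearMap.range g := by
      intro p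
      rw [← Submodule.Quotient.mk_eq_zero, ← Submodule.mkQ_apply, LinearMap.sub_apply, map_sub]
      have h1 := LinearMap.congr_fun hq p
      have h2 := LinearMap.congr_fun hα (f p)
      simp only [LinearMap.comp_apply] at h1 h2 ⊢
      rw [h2, h1, sub_self]
    obtain ⟨β, hβ⟩ := Module.projective_lifting_property g.rangeRestrict
      ((x - α ∘ₗ f).codRestrict (LinearMap.range g) hmem) g.surjective_rangeRestrict
    refine ⟨α, β, ?_⟩
    ext p
    have h3 := congrArg Subtype.val (LinearMap.congr_fun hβ p)
    simp only [LinearMap.comp_apply, LinearMap.add_apply, LinearMap.codRestrict_apply,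
      LinearMap.sub_apply, LinearMap.codRestrict, LinearMap.rangeRestrict] at h3 ⊢
    have h4 : g (β p) = x p - α (f p) := h3
    rw [h4, add_sub_cancel]

theorem rigid_iff_E0 {A : Type u} [Ring A]
    {P Q : Type u} [AddCommGroup P] [Module A P] [AddCommGroup Q] [Module A Q] [Module.Projective A P]
    [Module.Projective A Q] (f : P →ₗ[A] Q) :
    Rigid f ↔ E0 f (Q ⧸ LinearMap.range f) :=
  EE_iff_E0 f f

end TB10
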