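import Pool.Agent.LibTB10.L2
/-!
ROW [TB10 A4]. (cite L2.lsc_rank) LSC of the rank functions used in the generic choice.
PLAN. For each apply lsc_rank with L y = pre k y N, Phi k f y, Phi k y g; the identity hL is checked by
LinearMap.ext + simp (for pre and Phi k f y one needs that A-linear maps are k-linear: map of c • x, write
c • x = algebraMap k A c • x, `algebraMap_smul`, `map_smul`).  In Phi k y g: (y + c•(y'-y))∘... only smul on the target.
ee_eq: ee k f g = finrank Hom(P,Q') - finrank (range (Phi k f g)) : `Submodule.finrank_quotient_add_finrank`.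
ee_eq_zero: ee k f g = 0 iff EE f g: quotient has finrank 0 iff range = ⊤ (`Submodule.finrank_quotient_add_finrank`,
`Submodule.eq_top_of_finrank_eq`, `finrank_top`).
-/
set_option autoImplicit false
universe u
namespace TB10
open Module

section
variable {k : Type u} [Field k] {A : Type u} [Ring A] [Algebra k A]
    {P Q P' Q' : Type u} [AddCommGroup P] [Module A P] [Module k P] [IsScalarTower k A P] [Module.Finite k P]
    [AddCommGroup Q] [Module A Q] [Module k Q] [IsScalarTower k A Q] [Module.Finite k Q]
    [AddCommGroup P'] [Module A P'] [Module k P'] [IsScalarTower k A P'] [Module.Finite k P']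
    [AddCommGroup Q'] [Module A Q'] [Module k Q'] [IsScalarTower k A Q'] [Module.Finite k Q']

private theorem a4_smul {M N : Type u} [AddCommGroup M] [Module A M] [Module k M] [IsScalarTower k A M]
    [AddCommGroup N] [Module A N] [Module k N] [IsScalarTower k A N] (q : M →ₗ[A] N) (c : k) (z : M) :
    q (c • z) = c • q z := by
  rw [← algebraMap_smul A c z, map_smul, algebraMap_smul]

theorem lsc_pre (N : Type u) [AddCommGroup N] [Module A N] [Module k N] [IsScalarTower k A N]
    [Module.Finite k N] : LSC k (fun f : P →ₗ[A] Q => finrank k (LinearMap.range (pre k f N))) := by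
  refine lsc_rank (fun f : P →ₗ[A] Q => pre k f N) fun y y' c => ?_
  refine LinearMap.ext fun q => LinearMap.ext fun z => ?_
  show q (y z + c • (y' z - y z)) = q (y z) + c • (q (y' z) - q (y z))
  rw [map_add, a4_smul q c, map_sub]

theorem lsc_Phi_right (f : P →ₗ[A] Q) :
    LSC k (fun g : P' →ₗ[A] Q' => finrank k (LinearMap.range (Phi k f g))) := by
  refine lsc_rank (fun g : P' →ₗ[A] Q' => Phi k f g) fun y y' c => ?_
  refine LinearMap.ext fun x => LinearMap.ext fun z => ?_
  show x.1 (f z) + (y (x.2 z) + c • (y' (x.2 z) - y (x.2 z))) =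
    (x.1 (f z) + y (x.2 z)) + c • ((x.1 (f z) + y' (x.2 z)) - (x.1 (f z) + y (x.2 z)))
  rw [add_sub_add_left_eq_sub, add_assoc]

theorem lsc_Phi_left (g : P' →ₗ[A] Q') :
    LSC k (fun f : P →ₗ[A] Q => finrank k (LinearMap.range (Phi k f g))) := by
  refine lsc_rank (fun f : P →ₗ[A] Q => Phi k f g) fun y y' c => ?_
  refine LinearMap.ext fun x => LinearMap.ext fun z => ?_
  show x.1 (y z + c • (y' z - y z)) + g (x.2 z) =
    (x.1 (y z) + g (x.2 z)) + c • ((x.1 (y' z) + g (x.2 z)) - (x.1 (y z) + g (x.2 z)))
  rw [add_sub_add_right_eq_sub, map_add, a4_smul x.1 c, map_sub]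
  abel

theorem ee_add_rank (f : P →ₗ[A] Q) (g : P' →ₗ[A] Q') :
    ee k f g + finrank k (LinearMap.range (Phi k f g)) = finrank k (P →ₗ[A] Q') :=
  Submodule.finrank_quotient_add_finrank _

theorem ee_eq_zero_iff (f : P →ₗ[A] Q) (g : P' →ₗ[A] Q') : ee k f g = 0 ↔ EE f g := by
  have h1 := ee_add_rank (k := k) f g
  constructor
  · intro h h0
    rw [h, zero_add] at h1
    have h2 : LinearMap.range (Phi k f g) = ⊤ := Submodule.eq_top_of_finrank_eq h1
    have h3 : h0 ∈ LinearMap.range (Phi k f g) := by
      rw [h2]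
      exact Submodule.mem_top
    obtain ⟨x, hx⟩ := h3
    exact ⟨x.1, x.2, hx⟩
  · intro h
    have h2 : LinearMap.range (Phi k f g) = ⊤ := by
      rw [eq_top_iff]
      intro h0 _
      obtain ⟨α, β, hαβ⟩ := h h0
      exact ⟨(α, β), hαβ⟩
    rw [h2, finrank_top] at h1
    omega

end

end TB10
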