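import Pool.Agent.LibTB10.A1
import Pool.Agent.LibTB10.A2
import Pool.Agent.LibTB10.A3
/-!
ROW [TB10 A5]. (cite A1, A2, A3) Theorem 1, second half: maximal rank for all bricks => rigid.
PLAN. By contradiction: ¬ Rigid f₀, so ¬ E0 f₀ (Q ⧸ range f₀) (rigid_iff_E0).  exists_brick_quot gives K with N := (Q ⧸ range f₀) ⧸ K
a brick and ¬ E0 f₀ N.  finrank k N <= finrank k Q (two surjections).  hL gives r ∈ L and e : N ≃ₗ[A] Vm r.2.
hmax r gives the maximality for Vm r.2; transfer to N, or better: apply E0_of_max to Vm r.2 with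
p = e ∘ mkQ K ∘ mkQ (range f₀) (surjective, kills f₀), get E0 f₀ (Vm r.2), transfer along e.symm to E0 f₀ N. Contradiction.
-/
set_option autoImplicit false
universe u
namespace TB10
open Module

theorem rigid_of_max {k : Type u} [Field k] [Infinite k] {A : Type u} [Ring A] [Algebra k A]
    {P Q : Type u} [AddCommGroup P] [Module A P] [Module k P] [IsScalarTower k A P] [Module.Finite k P]
    [Module.Projective A P]
    [AddCommGroup Q] [Module A Q] [Module k Q] [IsScalarTower k A Q] [Module.Finite k Q] [Module.Projective A Q]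
    (L : List (Rp k A)) (hL : Cov k A (finrank k Q) L) (f₀ : P →ₗ[A] Q)
    (hmax : ∀ r ∈ L, ∀ f : P →ₗ[A] Q,
      finrank k (LinearMap.range (pre k f (Vm r.2))) ≤ finrank k (LinearMap.range (pre k f₀ (Vm r.2)))) :
    Rigid f₀ := by
  by_contra hR
  rw [rigid_iff_E0] at hR
  obtain ⟨K, hB, hE⟩ := exists_brick_quot (k := k) f₀ hR
  have hsurj : Function.Surjective (K.mkQ ∘ₗ (LinearMap.range f₀).mkQ) :=
    (Submodule.mkQ_surjective K).comp (Submodule.mkQ_surjective _)
  have hd : finrank k ((Q ⧸ LinearMap.range f₀) ⧸ K) ≤ finrank k Q := by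
    have h1 : LinearMap.range ((K.mkQ ∘ₗ (LinearMap.range f₀).mkQ).restrictScalars k) = ⊤ :=
      LinearMap.range_eq_top.2 hsurj
    have h2 := LinearMap.finrank_range_le ((K.mkQ ∘ₗ (LinearMap.range f₀).mkQ).restrictScalars k)
    rw [h1, finrank_top] at h2
    exact h2
  obtain ⟨r, hr, ⟨e⟩⟩ := hL ((Q ⧸ LinearMap.range f₀) ⧸ K) hB hd
  have h0 : E0 f₀ (Vm r.2) := by
    refine E0_of_max (k := k) f₀ (hmax r hr)
      (e.toLinearMap ∘ₗ K.mkQ ∘ₗ (LinearMap.range f₀).mkQ) ?_ ?_
    · exact e.surjective.comp hsurj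
    · ext p
      have h3 : (LinearMap.range f₀).mkQ (f₀ p) = 0 := by
        rw [Submodule.mkQ_apply, Submodule.Quotient.mk_eq_zero]
        exact LinearMap.mem_range_self f₀ p
      simp only [LinearMap.comp_apply, h3, map_zero, LinearMap.zero_apply]
  apply hE
  intro h
  obtain ⟨q, hq⟩ := h0 (e.toLinearMap ∘ₗ h)
  refine ⟨e.symm.toLinearMap ∘ₗ q, ?_⟩
  rw [LinearMap.comp_assoc, hq]
  ext p
  simp

end TB10
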