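import Pool.Agent.LibTB10.Defs
/-!
ROW [TB10 B1] ONLY MATHLIB. (page, Step 4 (c)) M finite-dimensional, all endomorphisms nilpotent or bijective, Hom(M,X) ≠ 0: there is
θ ≠ 0 killing the image of every nilpotent endomorphism.
PLAN. For θ : M → X let S θ := the k-subspace {θ ∘ s | s : M → M} = range of (s ↦ θ ∘ s : (M →ₗ[A] M) →ₗ[k] (M →ₗ[A] X)) (this is pre-like;
define it as a k-linear map; additivity and k-linearity as in Defs.Phi).  Choose θ ≠ 0 with finrank (S θ) minimal.  Let r be nilpotent and suppose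
θ r ≠ 0.  S (θ r) ≤ S θ and finrank S (θ r) >= finrank (S θ), so S (θ r) = S θ ∋ θ (s = id): θ = θ r s.  r s is not bijective (otherwise r is
surjective; r nilpotent and surjective on M forces M = 0 and θ = 0), so r s is nilpotent by hM, so θ = θ (r s)^n = 0 for large n, contradiction.
-/
set_option autoImplicit false
universe u
namespace TB10
open Module

/-- `s ↦ θ ∘ s` as a `k`-linear map -/
private def b1_post (k : Type u) [Field k] {A : Type u} [Ring A] [Algebra k A]
    {M X : Type u} [AddCommGroup M] [Module A M] [Module k M] [IsScalarTower k A M]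
    [AddCommGroup X] [Module A X] [Module k X] [IsScalarTower k A X] (θ : M →ₗ[A] X) :
    (M →ₗ[A] M) →ₗ[k] (M →ₗ[A] X) where
  toFun s := θ ∘ₗ s
  map_add' s t := by
    ext p
    simp
  map_smul' c s := by
    ext p
    have h : θ (c • (s p)) = c • θ (s p) := by
      rw [← algebraMap_smul A c (s p), map_smul, algebraMap_smul]
    simp [h]

theorem exists_theta {k : Type u} [Field k] {A : Type u} [Ring A] [Algebra k A]
    {M X : Type u} [AddCommGroup M] [Module A M] [Module k M] [IsScalarTower k A M] [Module.Finite k M]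
    [AddCommGroup X] [Module A X] [Module k X] [IsScalarTower k A X] [Module.Finite k X]
    (hM : Loc A M) (h : ∃ θ : M →ₗ[A] X, θ ≠ 0) :
    ∃ θ : M →ₗ[A] X, θ ≠ 0 ∧ ∀ r : M →ₗ[A] M, IsNilpotent r → θ ∘ₗ r = 0 := by
  classical
  have hex : ∃ n, ∃ θ : M →ₗ[A] X, θ ≠ 0 ∧ finrank k (LinearMap.range (b1_post k θ)) = n := by
    obtain ⟨θ, hθ⟩ := h
    exact ⟨_, θ, hθ, rfl⟩
  obtain ⟨θ, hθ, hn⟩ := Nat.find_spec hex
  have hmin : ∀ θ' : M →ₗ[A] X, θ' ≠ 0 → finrank k (LinearMap.range (b1_post k θ)) ≤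
      finrank k (LinearMap.range (b1_post k θ')) := by
    intro θ' hθ'
    rw [hn]
    exact Nat.find_min' hex ⟨θ', hθ', rfl⟩
  refine ⟨θ, hθ, fun r hr => ?_⟩
  by_contra hne
  have hle : LinearMap.range (b1_post k (θ ∘ₗ r)) ≤ LinearMap.range (b1_post k θ) := by
    rintro _ ⟨s, rfl⟩
    exact ⟨r ∘ₗ s, rfl⟩
  have heq := Submodule.eq_of_le_of_finrank_le hle (hmin _ hne)
  have hmem : θ ∈ LinearMap.range (b1_post k (θ ∘ₗ r)) := by
    rw [heq]
    exact ⟨LinearMap.id, rfl⟩
  obtain ⟨s, hs⟩ := hmem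
  have hs' : θ ∘ₗ (r ∘ₗ s) = θ := hs
  rcases hM (r ∘ₗ s) with hnil | hbij
  · obtain ⟨n, hn⟩ := hnil
    have hpow : ∀ m : ℕ, θ ∘ₗ ((r ∘ₗ s : Module.End A M) ^ m) = θ := by
      intro m
      induction m with
      | zero => rfl
      | succ m ih =>
        rw [pow_succ, Module.End.mul_eq_comp, ← LinearMap.comp_assoc, ih, hs']
    have h1 := hpow n
    rw [hn, LinearMap.comp_zero] at h1
    exact hθ h1.symm
  · have hsurj : Function.Surjective r := by
      have h1 := hbij.2
      rw [LinearMap.coe_comp] at h1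
      exact h1.of_comp
    obtain ⟨n, hn⟩ := hr
    have h2 : Function.Surjective ((r : Module.End A M) ^ n : Module.End A M) := by
      rw [Module.End.coe_pow]
      exact hsurj.iterate n
    apply hθ
    ext m
    obtain ⟨m', hm'⟩ := h2 m
    rw [hn] at hm'
    rw [← hm']
    simp

end TB10
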