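import Pool.Agent.LibTB10.T1
/-!
ROW [TB10 B2]. (cite T1) (page, Step 4 (a),(b)).
PLAN. Take m minimal such that a surjection π : (Fin m → M) → Y exists (exists_surj_of_gen, Nat.find).  m >= 1 as Y is nontrivial.
K := ker π is generated by M (hK).  Claim: K ≤ {x | ∀ i, x i ∈ RM A M} (= Submodule.pi Set.univ (fun _ => RM A M)).
It is enough (Gen A M K: K = ⨆ images) to show for κ : M → K and every i that κ_i := proj i ∘ K.subtype ∘ κ is nilpotent
(then κ_i x ∈ range κ_i ≤ RM).  By hM it is nilpotent or bijective; if bijective then m = m' + 1 and the restriction of π to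
{x | x i = 0} ≃ (Fin m' → M) (via `Fin.insertNth`/`Fin.succAbove`: π ∘ (extend by 0 at i)) is still surjective: given y = π x, put
u := κ (κ_i⁻¹ (x i)) ∈ K, then x - u has i-th component 0 and π (x - u) = y.  Contradiction with minimality.
Then Y ≃ (Fin m → M) ⧸ K → M ⧸ RM, class of x ↦ class of x i₀ (i₀ = 0, m >= 1) is well defined and surjective:
`Submodule.liftQ K (mkQ (RM) ∘ proj i₀)` composed with (quotKerEquivOfSurjective π hπ).symm.
-/
set_option autoImplicit false
universe u
namespace TB10
open Module

theorem exists_surj_quot {k : Type u} [Field k] {A : Type u} [Ring A] [Algebra k A]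
    {M Y : Type u} [AddCommGroup M] [Module A M] [Module k M] [IsScalarTower k A M] [Module.Finite k M]
    [AddCommGroup Y] [Module A Y] [Module k Y] [IsScalarTower k A Y] [Module.Finite k Y] [Nontrivial Y]
    (hM : Loc A M) (hY : Gen A M Y)
    (hK : ∀ (m : ℕ) (π : (Fin m → M) →ₗ[A] Y), Function.Surjective π → Gen A M (LinearMap.ker π)) :
    ∃ σ : Y →ₗ[A] (M ⧸ RM A M), Function.Surjective σ := by
  classical
  have hP : ∃ m : ℕ, ∃ π : (Fin m → M) →ₗ[A] Y, Function.Surjective π := exists_surj_of_gen (k := k) hY
  obtain ⟨π, hπ⟩ := Nat.find_spec hP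
  have hmin : ∀ n, n < Nat.find hP → ¬ ∃ π : (Fin n → M) →ₗ[A] Y, Function.Surjective π :=
    fun n hn => Nat.find_min hP hn
  generalize Nat.find hP = m at π hmin
  cases m with
  | zero =>
    exfalso
    obtain ⟨y, hy⟩ := exists_ne (0 : Y)
    obtain ⟨x, hx⟩ := hπ y
    apply hy
    rw [← hx, Subsingleton.elim x 0, map_zero]
  | succ n =>
    have hgen := hK (n + 1) π hπ
    have hle : ∀ x : LinearMap.ker π, ∀ i, (x : Fin (n + 1) → M) i ∈ RM A M := by
      intro x
      have hx : x ∈ tr A M (LinearMap.ker π) := by
        rw [show tr A M (LinearMap.ker π) = ⊤ from hgen]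
        exact Submodule.mem_top
      unfold tr at hx
      induction hx using Submodule.iSup_induction' with
      | zero =>
        intro i
        exact Submodule.zero_mem _
      | add a b _ _ ha hb =>
        intro i
        exact Submodule.add_mem _ (ha i) (hb i)
      | mem θ x hx =>
        intro i
        obtain ⟨y, rfl⟩ := hx
        let κ : M →ₗ[A] M := LinearMap.proj i ∘ₗ (LinearMap.ker π).subtype ∘ₗ θ
        rcases hM κ with hn | hb
        · exact (le_iSup (fun r : {r : M →ₗ[A] M // IsNilpotent r} => LinearMap.range r.1)
            ⟨κ, hn⟩) ⟨y, rfl⟩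
        · exfalso
          let E : (Fin n → M) →ₗ[A] (Fin (n + 1) → M) :=
            { toFun := fun x => i.insertNth (0 : M) x
              map_add' := by
                intro x y
                funext l
                refine Fin.succAboveCases i ?_ (fun j => ?_) l
                · simp
                · simp
              map_smul' := by
                intro c x
                funext l
                refine Fin.succAboveCases i ?_ (fun j => ?_) l
                · simp
                · simp }
          have hE1 : ∀ x, E x i = 0 := fun x =>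
            Fin.insertNth_apply_same (α := fun _ => M) i 0 x
          have hE2 : ∀ x j, E x (i.succAbove j) = x j := fun x j =>
            Fin.insertNth_apply_succAbove (α := fun _ => M) i 0 x j
          refine hmin n (Nat.lt_succ_self n) ⟨π ∘ₗ E, fun y => ?_⟩
          obtain ⟨x, hx⟩ := hπ y
          obtain ⟨m0, hm0⟩ := hb.2 (x i)
          have h1 : E (fun j => (x - (θ m0 : Fin (n + 1) → M)) (i.succAbove j)) =
              x - (θ m0 : Fin (n + 1) → M) := by
            funext l
            refine Fin.succAboveCases i ?_ (fun j => ?_) l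
            · rw [hE1]
              change 0 = x i - (θ m0 : Fin (n + 1) → M) i
              rw [← hm0]
              exact (sub_self _).symm
            · rw [hE2]
          refine ⟨fun j => (x - (θ m0 : Fin (n + 1) → M)) (i.succAbove j), ?_⟩
          rw [LinearMap.comp_apply, h1, map_sub, hx, LinearMap.mem_ker.1 (θ m0).2, sub_zero]
    let f : ((Fin (n + 1) → M) ⧸ LinearMap.ker π) →ₗ[A] (M ⧸ RM A M) :=
      (LinearMap.ker π).liftQ ((RM A M).mkQ ∘ₗ LinearMap.proj 0) (by
        intro x hx
        rw [LinearMap.mem_ker, LinearMap.comp_apply, Submodule.mkQ_apply,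
          Submodule.Quotient.mk_eq_zero]
        exact hle ⟨x, hx⟩ 0)
    have hf : Function.Surjective f := by
      intro b
      obtain ⟨y, rfl⟩ := Submodule.mkQ_surjective _ b
      refine ⟨(LinearMap.ker π).mkQ (Pi.single 0 y), ?_⟩
      change (LinearMap.ker π).liftQ _ _ ((LinearMap.ker π).mkQ _) = _
      rw [Submodule.mkQ_apply, Submodule.liftQ_apply, LinearMap.comp_apply, LinearMap.proj_apply,
        Pi.single_eq_same]
    exact ⟨f ∘ₗ (π.quotKerEquivOfSurjective hπ).symm.toLinearMap,
      hf.comp (π.quotKerEquivOfSurjective hπ).symm.surjective⟩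

end TB10
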