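import Pool.Agent.LibTB10.T1
/-!
ROW [TB10 T2]. (cite T1) E(f,.) = 0 passes to generated modules; the trace has the torsion property.
PLAN. E0_of_gen: π : (Fin m → M) → X surjective (exists_surj_of_gen); h : P → X lifts to h' : P → (Fin m → M) (P projective);
each component h' i = q i ∘ f; q := π ∘ (LinearMap.pi q).
hom_quot_tr_eq_zero: M := Q ⧸ range g, t := tr A M X.  θ : M → X ⧸ t.  θ ∘ mkQ : Q → X ⧸ t lifts to q : Q → X (Q projective).
q ∘ g : P → X lands in t (mkQ t (q (g p)) = θ (mkQ (g p)) = 0).  E0 g t by E0_of_gen (gen_tr, E0 g M):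
∃ q' : Q → t, q' ∘ g = (q ∘ g : P → t).  q - t.subtype ∘ q' kills range g, so induces θ' : M → X
(`Submodule.liftQ`), range θ' ≤ t, and mkQ t ∘ θ' ∘ mkQ = mkQ t ∘ q = θ ∘ mkQ, so θ = mkQ t ∘ θ' = 0.
(t is finite over k by Defs.instFinSub.)
-/
set_option autoImplicit false
universe u
namespace TB10
open Module

theorem E0_of_gen {k : Type u} [Field k] {A : Type u} [Ring A] [Algebra k A]
    {P Q : Type u} [AddCommGroup P] [Module A P] [Module.Projective A P] [AddCommGroup Q] [Module A Q]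
    (f : P →ₗ[A] Q) {M : Type u} [AddCommGroup M] [Module A M] (hM : E0 f M)
    {X : Type u} [AddCommGroup X] [Module A X] [Module k X] [IsScalarTower k A X] [Module.Finite k X]
    (h : Gen A M X) : E0 f X := by
  intro h₀
  obtain ⟨m, π, hπ⟩ := exists_surj_of_gen (k := k) h
  obtain ⟨h', hh'⟩ := Module.projective_lifting_property π h₀ hπ
  have hex : ∀ i : Fin m, ∃ q : Q →ₗ[A] M, q ∘ₗ f = LinearMap.proj i ∘ₗ h' := fun i => hM _
  choose q hq using hex
  refine ⟨π ∘ₗ LinearMap.pi q, ?_⟩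
  have h1 : LinearMap.pi q ∘ₗ f = h' := by
    refine LinearMap.ext fun x => funext fun i => ?_
    exact LinearMap.congr_fun (hq i) x
  rw [LinearMap.comp_assoc, h1, hh']

theorem hom_quot_tr_eq_zero {k : Type u} [Field k] {A : Type u} [Ring A] [Algebra k A]
    {P Q : Type u} [AddCommGroup P] [Module A P] [Module.Projective A P] [AddCommGroup Q] [Module A Q]
    [Module.Projective A Q] (g : P →ₗ[A] Q) (hg : E0 g (Q ⧸ LinearMap.range g))
    {X : Type u} [AddCommGroup X] [Module A X] [Module k X] [IsScalarTower k A X] [Module.Finite k X]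
    (θ : (Q ⧸ LinearMap.range g) →ₗ[A] (X ⧸ tr A (Q ⧸ LinearMap.range g) X)) : θ = 0 := by
  obtain ⟨q, hq⟩ := Module.projective_lifting_property (tr A (Q ⧸ LinearMap.range g) X).mkQ
    (θ ∘ₗ (LinearMap.range g).mkQ) (Submodule.mkQ_surjective _)
  have hqz : ∀ z : Q, (tr A (Q ⧸ LinearMap.range g) X).mkQ (q z) = θ ((LinearMap.range g).mkQ z) :=
    fun z => LinearMap.congr_fun hq z
  have hland : ∀ p : P, (q ∘ₗ g) p ∈ tr A (Q ⧸ LinearMap.range g) X := by
    intro p
    have h1 : (tr A (Q ⧸ LinearMap.range g) X).mkQ (q (g p)) = 0 := by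
      rw [hqz]
      have h2 : (LinearMap.range g).mkQ (g p) = 0 := by
        rw [← LinearMap.mem_ker, Submodule.ker_mkQ]
        exact ⟨p, rfl⟩
      rw [h2, map_zero]
    rw [← LinearMap.mem_ker, Submodule.ker_mkQ] at h1
    exact h1
  have hE : E0 g (tr A (Q ⧸ LinearMap.range g) X) := E0_of_gen (k := k) g hg gen_tr
  obtain ⟨q', hq'⟩ := hE ((q ∘ₗ g).codRestrict _ hland)
  have hq'z : ∀ p : P, ((q' (g p) : tr A (Q ⧸ LinearMap.range g) X) : X) = q (g p) := by
    intro p
    have h1 := LinearMap.congr_fun hq' p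
    have h2 : q' (g p) = (q ∘ₗ g).codRestrict _ hland p := h1
    rw [h2]
    rfl
  have hker : LinearMap.range g ≤
      LinearMap.ker (q - (tr A (Q ⧸ LinearMap.range g) X).subtype ∘ₗ q') := by
    rintro _ ⟨p, rfl⟩
    rw [LinearMap.mem_ker]
    show q (g p) - ((q' (g p) : tr A (Q ⧸ LinearMap.range g) X) : X) = 0
    rw [hq'z, sub_self]
  obtain ⟨θ', hθ'⟩ : ∃ θ' : (Q ⧸ LinearMap.range g) →ₗ[A] X, ∀ z : Q,
      θ' ((LinearMap.range g).mkQ z) = q z - ((q' z : tr A (Q ⧸ LinearMap.range g) X) : X) := by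
    refine ⟨(LinearMap.range g).liftQ _ hker, fun z => ?_⟩
    rw [Submodule.mkQ_apply, Submodule.liftQ_apply]
    rfl
  have hin : ∀ y : Q ⧸ LinearMap.range g, θ' y ∈ tr A (Q ⧸ LinearMap.range g) X := fun y =>
    range_le_tr θ' ⟨y, rfl⟩
  refine LinearMap.ext fun y => ?_
  obtain ⟨z, rfl⟩ := Submodule.mkQ_surjective _ y
  rw [← hqz z, LinearMap.zero_apply]
  have h3 : q z ∈ tr A (Q ⧸ LinearMap.range g) X := by
    have h4 := Submodule.add_mem _ (hin ((LinearMap.range g).mkQ z)) (q' z).2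
    rw [hθ', sub_add_cancel] at h4
    exact h4
  rw [← LinearMap.mem_ker, Submodule.ker_mkQ]
  exact h3

end TB10
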