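import Pool.Agent.LibTB10.B1
import Pool.Agent.LibTB10.B2
import Pool.Agent.LibTB10.T2
/-!
ROW [TB10 B3]. (cite T1, T2, B1, B2) Step 4: the brick X is isomorphic to M ⧸ RM.
Here g : P → Q is a presentation with Mg = Q ⧸ range g, and M is a module with {X : E(g,X) = 0} = {X generated by M}.
PLAN. Y := X ⧸ tr A Mg X, nontrivial because X is not generated by Mg.  Gen A M Y (gen_of_surj_gen).  All maps Mg → Y vanish
(hom_quot_tr_eq_zero, hg).  hK for Y: π : (Fin m → M) → Y surjective, K = ker π; show E0 g K, then Gen A M K by hT.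
  E0 g K: x : P → K.  E0 g M gives (componentwise) q : Q → (Fin m → M) with q ∘ g = K.subtype ∘ x.  π ∘ q : Q → Y kills range g so induces
  Mg → Y, which is 0, so π ∘ q = 0, q lands in K: q' : Q → K with q' ∘ g = x.
B2 gives σ : Y → M ⧸ RM surjective; compose X → Y → B := M ⧸ RM, surjective s : X → B.
B1 (exists_theta for X; Hom(M,X) ≠ 0 by exists_hom_of_gen) gives θ : M → X nonzero, vanishing on RM; induced θ' : B → X nonzero.
θ' ∘ s : X → X is nonzero (s surjective), so bijective (brick), so s is injective: LinearEquiv.ofBijective s.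
-/
set_option autoImplicit false
universe u
namespace TB10
open Module

theorem brick_iso {k : Type u} [Field k] {A : Type u} [Ring A] [Algebra k A]
    {P Q : Type u} [AddCommGroup P] [Module A P] [Module.Projective A P] [AddCommGroup Q] [Module A Q]
    [Module.Projective A Q] (g : P →ₗ[A] Q) (hg : E0 g (Q ⧸ LinearMap.range g))
    {M : Type u} [AddCommGroup M] [Module A M] [Module k M] [IsScalarTower k A M] [Module.Finite k M]
    (hM : Loc A M)
    (hT : ∀ (X : Type u) [AddCommGroup X] [Module A X] [Module k X] [IsScalarTower k A X] [Module.Finite k X],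
      E0 g X ↔ Gen A M X)
    {X : Type u} [AddCommGroup X] [Module A X] [Module k X] [IsScalarTower k A X] [Module.Finite k X]
    (hX : IsBrick A X) (h₁ : Gen A M X) (h₂ : ¬ Gen A (Q ⧸ LinearMap.range g) X) :
    Nonempty (X ≃ₗ[A] (M ⧸ RM A M)) := by
  classical
  have hXn : Nontrivial X := hX.1
  have hYn : Nontrivial (X ⧸ tr A (Q ⧸ LinearMap.range g) X) :=
    Submodule.Quotient.nontrivial_iff.2 h₂
  have hYf : Module.Finite k (X ⧸ tr A (Q ⧸ LinearMap.range g) X) :=
    Module.Finite.of_surjective ((tr A (Q ⧸ LinearMap.range g) X).mkQ.restrictScalars k)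
      (Submodule.mkQ_surjective _)
  have hY : Gen A M (X ⧸ tr A (Q ⧸ LinearMap.range g) X) :=
    gen_of_surj_gen h₁ (tr A (Q ⧸ LinearMap.range g) X).mkQ (Submodule.mkQ_surjective _)
  have hgM : E0 g M := (hT M).2 gen_self
  have hK : ∀ (m : ℕ) (π : (Fin m → M) →ₗ[A] (X ⧸ tr A (Q ⧸ LinearMap.range g) X)),
      Function.Surjective π → Gen A M (LinearMap.ker π) := by
    intro m π _
    refine (hT (LinearMap.ker π)).1 fun x => ?_
    choose q hq using fun i : Fin m => hgM (LinearMap.proj i ∘ₗ (LinearMap.ker π).subtype ∘ₗ x)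
    have hqg : ∀ p, LinearMap.pi q (g p) = (x p : Fin m → M) := by
      intro p
      funext i
      exact LinearMap.congr_fun (hq i) p
    have h1 : LinearMap.range g ≤ LinearMap.ker (π ∘ₗ LinearMap.pi q) := by
      rintro _ ⟨p, rfl⟩
      rw [LinearMap.mem_ker, LinearMap.comp_apply, hqg]
      exact LinearMap.mem_ker.1 (x p).2
    have h2 := hom_quot_tr_eq_zero (k := k) g hg ((LinearMap.range g).liftQ (π ∘ₗ LinearMap.pi q) h1)
    have h3 : ∀ z, LinearMap.pi q z ∈ LinearMap.ker π := by
      intro z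
      have h4 := LinearMap.congr_fun h2 ((LinearMap.range g).mkQ z)
      rw [Submodule.mkQ_apply, Submodule.liftQ_apply] at h4
      exact h4
    refine ⟨(LinearMap.pi q).codRestrict (LinearMap.ker π) h3, ?_⟩
    ext1 p
    exact Subtype.ext (hqg p)
  obtain ⟨σ, hσ⟩ := exists_surj_quot (k := k) hM hY hK
  obtain ⟨θ, hθ, hr⟩ := exists_theta (k := k) hM (exists_hom_of_gen h₁)
  have hle : RM A M ≤ LinearMap.ker θ := by
    refine iSup_le fun r => ?_
    rintro _ ⟨y, rfl⟩
    exact LinearMap.congr_fun (hr r.1 r.2) y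
  let s : X →ₗ[A] (M ⧸ RM A M) := σ ∘ₗ (tr A (Q ⧸ LinearMap.range g) X).mkQ
  have hs : Function.Surjective s := hσ.comp (Submodule.mkQ_surjective _)
  have h5 : (RM A M).liftQ θ hle ∘ₗ s ≠ 0 := by
    intro h0
    apply hθ
    ext1 y
    obtain ⟨x, hx⟩ := hs ((RM A M).mkQ y)
    have h6 := LinearMap.congr_fun h0 x
    rw [LinearMap.comp_apply, hx, Submodule.mkQ_apply, Submodule.liftQ_apply] at h6
    exact h6
  have h7 := hX.2 _ h5
  have h8 : Function.Injective s := by
    intro a b hab
    exact h7.1 (congrArg ((RM A M).liftQ θ hle) hab)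
  exact ⟨LinearEquiv.ofBijective s ⟨h8, hs⟩⟩

end TB10
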