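import Pool.Agent.LibTB10.G4
/-!
ROW [TB10 C1]. (cite A4, G4) Theorem 3 of the page: the chain of rigid presentations between two rigid presentations (any number of simples).
A node (x,y,h) is a homomorphism h : P^x ⊕ P'^y → Q^x ⊕ Q'^y.
PLAN. (1) transport: EE, ee, Rigid are invariant under replacing f by w ∘ f ∘ v⁻¹ (v : P ≃ P₁, w : Q ≃ Q₁).
(2) For nodes a, b: (P^{a.x} × P'^{a.y}) × (P^{b.x} × P'^{b.y}) ≃ P^{a.x+b.x} × P'^{a.y+b.y} (`Fin.appendEquiv`-like linear equivalence or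
`LinearEquiv.sumArrowLequivProdArrow` with `finSumFinEquiv`), so generic_step gives a node c of class (a.x+b.x, a.y+b.y) with all the inequalities.
(3) Induction on s: for rigid nodes a, b with a.x * b.y = b.x * a.y + 1, s ≥ ee a b + ee b a and
2 ^ s * (dimension of the two targets) ≤ D there is a list l of length ≤ 2 ^ s, with IsChain Compat (a :: l), last element b.
If ee a b + ee b a = 0: l = [b]; Rigid (a.h.prodMap b.h): all four EE hold (matrix of homomorphisms: solve for each of the four components).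
Otherwise c; (a,c) and (c,b) have smaller s (if ee a b > 0 the last part of generic_step, if ee b a > 0 the other one); append the two lists.
Dimensions: finrank of the target of c = sum of those of a and b.
(4) start: a = (1,0,f), b = (0,1,g) through the obvious equivalences P ≃ (Fin 1 → P) × (Fin 0 → P').
-/
set_option autoImplicit false
universe u
namespace TB10
open Module

section
variable {k : Type u} [Field k] {A : Type u} [Ring A] [Algebra k A]

/-- a homomorphism `P^x ⊕ P'^y → Q^x ⊕ Q'^y` -/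
structure Node (A P Q P' Q' : Type u) [Ring A] [AddCommGroup P] [Module A P] [AddCommGroup Q]
    [Module A Q] [AddCommGroup P'] [Module A P'] [AddCommGroup Q'] [Module A Q'] where
  x : ℕ
  y : ℕ
  h : ((Fin x → P) × (Fin y → P')) →ₗ[A] ((Fin x → Q) × (Fin y → Q'))

/-- consecutive nodes: the direct sum is rigid and the determinant is one -/
def Compat {A P Q P' Q' : Type u} [Ring A] [AddCommGroup P] [Module A P] [AddCommGroup Q]
    [Module A Q] [AddCommGroup P'] [Module A P'] [AddCommGroup Q'] [Module A Q']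
    (a b : Node A P Q P' Q') : Prop :=
  Rigid (a.h.prodMap b.h) ∧ a.x * b.y = b.x * a.y + 1

/-! transport -/

section transport

variable {P₁ Q₁ P₂ Q₂ P₂' Q₂' : Type u}
    [AddCommGroup P₁] [Module A P₁] [Module k P₁] [IsScalarTower k A P₁] [Module.Finite k P₁]
    [AddCommGroup Q₁] [Module A Q₁] [Module k Q₁] [IsScalarTower k A Q₁] [Module.Finite k Q₁]
    [AddCommGroup P₂] [Module A P₂] [Module k P₂] [IsScalarTower k A P₂] [Module.Finite k P₂]
    [AddCommGroup Q₂] [Module A Q₂] [Module k Q₂] [IsScalarTower k A Q₂] [Module.Finite k Q₂]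
    [AddCommGroup P₂'] [Module A P₂'] [Module k P₂'] [IsScalarTower k A P₂'] [Module.Finite k P₂']
    [AddCommGroup Q₂'] [Module A Q₂'] [Module k Q₂'] [IsScalarTower k A Q₂'] [Module.Finite k Q₂']

/-- transport of a homomorphism -/
def c1_tr (g : P₂ →ₗ[A] Q₂) (v : P₂' ≃ₗ[A] P₂) (w : Q₂' ≃ₗ[A] Q₂) : P₂' →ₗ[A] Q₂' :=
  w.symm.toLinearMap ∘ₗ g ∘ₗ v.toLinearMap

omit [Module k P₂] [IsScalarTower k A P₂] [Module.Finite k P₂] [Module k Q₂] [IsScalarTower k A Q₂]
  [Module.Finite k Q₂] [Module k P₂'] [IsScalarTower k A P₂'] [Module.Finite k P₂'] [Module k Q₂']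
  [IsScalarTower k A Q₂'] [Module.Finite k Q₂'] [Algebra k A] [Field k] in
theorem c1_rigid (g : P₂ →ₗ[A] Q₂) (v : P₂' ≃ₗ[A] P₂) (w : Q₂' ≃ₗ[A] Q₂) (hg : Rigid g) :
    Rigid (c1_tr g v w) := by
  intro h
  obtain ⟨α, β, hαβ⟩ := hg (w.toLinearMap ∘ₗ h ∘ₗ v.symm.toLinearMap)
  refine ⟨w.symm.toLinearMap ∘ₗ α ∘ₗ w.toLinearMap, v.symm.toLinearMap ∘ₗ β ∘ₗ v.toLinearMap, ?_⟩
  ext x
  have h1 := congrArg (fun f : P₂ →ₗ[A] Q₂ => w.symm (f (v x))) hαβ
  simpa [c1_tr] using h1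

theorem c1_ee_right (f : P₁ →ₗ[A] Q₁) (g : P₂ →ₗ[A] Q₂) (v : P₂' ≃ₗ[A] P₂) (w : Q₂' ≃ₗ[A] Q₂) :
    ee k f (c1_tr g v w) ≤ ee k f g := by
  unfold ee
  let Ψ : (P₁ →ₗ[A] Q₂) →ₗ[k] (P₁ →ₗ[A] Q₂') :=
    { toFun := fun x => w.symm.toLinearMap ∘ₗ x
      map_add' := fun x y => by
        ext p
        simp
      map_smul' := fun c x => by
        ext p
        have h : w.symm (c • (x p)) = c • w.symm (x p) := by
          rw [← algebraMap_smul A c (x p), map_smul, algebraMap_smul]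
        simp [h] }
  apply finrank_quot_le (k := k) _ _ Ψ
  · rintro _ ⟨⟨α, β⟩, rfl⟩
    refine ⟨(w.symm.toLinearMap ∘ₗ α, v.symm.toLinearMap ∘ₗ β), ?_⟩
    ext p
    simp [Phi, Ψ, c1_tr]
  · intro y
    refine ⟨w.toLinearMap ∘ₗ y, ?_⟩
    have h : y - Ψ (w.toLinearMap ∘ₗ y) = 0 := by
      ext p
      simp [Ψ]
    rw [h]
    exact Submodule.zero_mem _

theorem c1_ee_left (f : P₁ →ₗ[A] Q₁) (g : P₂ →ₗ[A] Q₂) (v : P₂' ≃ₗ[A] P₂) (w : Q₂' ≃ₗ[A] Q₂) :
    ee k (c1_tr g v w) f ≤ ee k g f := by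
  unfold ee
  let Ψ : (P₂ →ₗ[A] Q₁) →ₗ[k] (P₂' →ₗ[A] Q₁) :=
    { toFun := fun x => x ∘ₗ v.toLinearMap
      map_add' := fun x y => by
        ext p
        simp
      map_smul' := fun c x => by
        ext p
        simp }
  apply finrank_quot_le (k := k) _ _ Ψ
  · rintro _ ⟨⟨α, β⟩, rfl⟩
    refine ⟨(α ∘ₗ w.toLinearMap, β ∘ₗ v.toLinearMap), ?_⟩
    ext p
    simp [Phi, Ψ, c1_tr]
  · intro y
    refine ⟨y ∘ₗ v.symm.toLinearMap, ?_⟩
    have h : y - Ψ (y ∘ₗ v.symm.toLinearMap) = 0 := by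
      ext p
      simp [Ψ]
    rw [h]
    exact Submodule.zero_mem _

end transport

/-- the direct sum of two rigid homomorphisms without extensions is rigid -/
theorem c1_sum {P₁ Q₁ P₂ Q₂ : Type u} [AddCommGroup P₁] [Module A P₁] [AddCommGroup Q₁]
    [Module A Q₁] [AddCommGroup P₂] [Module A P₂] [AddCommGroup Q₂] [Module A Q₂]
    (f : P₁ →ₗ[A] Q₁) (g : P₂ →ₗ[A] Q₂) (hf : Rigid f) (hg : Rigid g) (h1 : EE f g) (h2 : EE g f) :
    Rigid (f.prodMap g) := by
  intro x
  obtain ⟨α₁, β₁, e₁⟩ := hf (LinearMap.fst A Q₁ Q₂ ∘ₗ x ∘ₗ LinearMap.inl A P₁ P₂)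
  obtain ⟨α₂, β₂, e₂⟩ := h2 (LinearMap.fst A Q₁ Q₂ ∘ₗ x ∘ₗ LinearMap.inr A P₁ P₂)
  obtain ⟨α₃, β₃, e₃⟩ := h1 (LinearMap.snd A Q₁ Q₂ ∘ₗ x ∘ₗ LinearMap.inl A P₁ P₂)
  obtain ⟨α₄, β₄, e₄⟩ := hg (LinearMap.snd A Q₁ Q₂ ∘ₗ x ∘ₗ LinearMap.inr A P₁ P₂)
  refine ⟨LinearMap.prod (LinearMap.coprod α₁ α₂) (LinearMap.coprod α₃ α₄),
    LinearMap.prod (LinearMap.coprod β₁ β₂) (LinearMap.coprod β₃ β₄), ?_⟩
  apply LinearMap.ext
  rintro ⟨p₁, p₂⟩
  have k₁ := congrArg (fun m : P₁ →ₗ[A] Q₁ => m p₁) e₁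
  have k₂ := congrArg (fun m : P₂ →ₗ[A] Q₁ => m p₂) e₂
  have k₃ := congrArg (fun m : P₁ →ₗ[A] Q₂ => m p₁) e₃
  have k₄ := congrArg (fun m : P₂ →ₗ[A] Q₂ => m p₂) e₄
  simp only [LinearMap.add_apply, LinearMap.comp_apply, LinearMap.fst_apply, LinearMap.snd_apply,
    LinearMap.inl_apply, LinearMap.inr_apply] at k₁ k₂ k₃ k₄
  have hx : x (p₁, p₂) = x (p₁, 0) + x (0, p₂) := by
    rw [← map_add]
    simp
  rw [hx]
  apply Prod.ext
  · change (α₁ (f p₁) + α₂ (g p₂)) + f (β₁ p₁ + β₂ p₂) = (x (p₁, 0)).1 + (x (0, p₂)).1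
    rw [← k₁, ← k₂, map_add]
    abel
  · change (α₃ (f p₁) + α₄ (g p₂)) + g (β₃ p₁ + β₄ p₂) = (x (p₁, 0)).2 + (x (0, p₂)).2
    rw [← k₃, ← k₄, map_add]
    abel

theorem c1_proj (A : Type u) [Ring A] (P : Type u) [AddCommGroup P] [Module A P]
    [Module.Projective A P] (x : ℕ) : Module.Projective A (Fin x → P) :=
  Module.Projective.of_equiv' (DFinsupp.linearEquivFunOnFintype : (Π₀ _ : Fin x, P) ≃ₗ[A] _)

/-- the splitting of the first or second components -/
def c1_split (A : Type u) [Ring A] (P P' : Type u) [AddCommGroup P] [Module A P] [AddCommGroup P']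
    [Module A P'] (x₁ x₂ y₁ y₂ : ℕ) :
    ((Fin (x₁ + x₂) → P) × (Fin (y₁ + y₂) → P')) ≃ₗ[A]
      ((Fin x₁ → P) × (Fin y₁ → P')) × ((Fin x₂ → P) × (Fin y₂ → P')) :=
  (LinearEquiv.prodCongr
    ((LinearEquiv.funCongrLeft A P (finSumFinEquiv : Fin x₁ ⊕ Fin x₂ ≃ Fin (x₁ + x₂))).trans
      (LinearEquiv.sumArrowLequivProdArrow (Fin x₁) (Fin x₂) A P))
    ((LinearEquiv.funCongrLeft A P' (finSumFinEquiv : Fin y₁ ⊕ Fin y₂ ≃ Fin (y₁ + y₂))).trans
      (LinearEquiv.sumArrowLequivProdArrow (Fin y₁) (Fin y₂) A P'))).trans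
    (LinearEquiv.prodProdProdComm A (Fin x₁ → P) (Fin x₂ → P) (Fin y₁ → P') (Fin y₂ → P'))

section main

variable {P Q P' Q' : Type u}
    [AddCommGroup P] [Module A P] [Module k P] [IsScalarTower k A P] [Module.Finite k P] [Module.Projective A P]
    [AddCommGroup Q] [Module A Q] [Module k Q] [IsScalarTower k A Q] [Module.Finite k Q] [Module.Projective A Q]
    [AddCommGroup P'] [Module A P'] [Module k P'] [IsScalarTower k A P'] [Module.Finite k P']
    [Module.Projective A P']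
    [AddCommGroup Q'] [Module A Q'] [Module k Q'] [IsScalarTower k A Q'] [Module.Finite k Q']
    [Module.Projective A Q']

theorem c1_dim (x y : ℕ) : finrank k ((Fin x → Q) × (Fin y → Q')) =
    x * finrank k Q + y * finrank k Q' := by
  rw [Module.finrank_prod, Module.finrank_pi_fintype, Module.finrank_pi_fintype]
  simp

theorem c1_ind [Infinite k] (L : List (Rp k A)) (D : ℕ) (hL : Cov k A D L) (s : ℕ) :
    ∀ a b : Node A P Q P' Q', Rigid a.h → Rigid b.h → a.x * b.y = b.x * a.y + 1 →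
      ee k a.h b.h + ee k b.h a.h ≤ s →
      2 ^ s * ((a.x + b.x) * finrank k Q + (a.y + b.y) * finrank k Q') ≤ D →
      ∃ l : List (Node A P Q P' Q'), l.length + 1 ≤ 2 ^ s ∧ (a :: (l ++ [b])).IsChain Compat := by
  induction s with
  | zero =>
    intro a b ha hb hdet hs _
    refine ⟨[], by simp, ?_⟩
    have h1 : ee k a.h b.h = 0 := by omega
    have h2 : ee k b.h a.h = 0 := by omega
    rw [ee_eq_zero_iff] at h1 h2
    have h3 : Compat a b := ⟨c1_sum a.h b.h ha hb h1 h2, hdet⟩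
    simpa using h3
  | succ s ih =>
    intro a b ha hb hdet hs hD
    by_cases h0 : ee k a.h b.h + ee k b.h a.h = 0
    · refine ⟨[], by simpa using Nat.one_le_two_pow, ?_⟩
      have h1 : ee k a.h b.h = 0 := by omega
      have h2 : ee k b.h a.h = 0 := by omega
      rw [ee_eq_zero_iff] at h1 h2
      have h3 : Compat a b := ⟨c1_sum a.h b.h ha hb h1 h2, hdet⟩
      simpa using h3
    · have hdim : finrank k (((Fin a.x → Q) × (Fin a.y → Q')) × ((Fin b.x → Q) × (Fin b.y → Q'))) =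
          (a.x + b.x) * finrank k Q + (a.y + b.y) * finrank k Q' := by
        rw [Module.finrank_prod, c1_dim, c1_dim]
        ring
      have hcov : Cov k A (finrank k (((Fin a.x → Q) × (Fin a.y → Q')) ×
          ((Fin b.x → Q) × (Fin b.y → Q')))) L := by
        intro X _ _ _ _ _ hX hXd
        apply hL X hX
        rw [hdim] at hXd
        refine hXd.trans (le_trans ?_ hD)
        exact Nat.le_mul_of_pos_left _ (by positivity)
      have p1 := c1_proj A P a.x
      have p2 := c1_proj A P' a.y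
      have p3 := c1_proj A Q a.x
      have p4 := c1_proj A Q' a.y
      have p5 := c1_proj A P b.x
      have p6 := c1_proj A P' b.y
      have p7 := c1_proj A Q b.x
      have p8 := c1_proj A Q' b.y
      obtain ⟨h, hh, i1, i2, i3, i4, i5, i6⟩ := generic_step a.h b.h ha hb L hcov
      let c : Node A P Q P' Q' :=
        { x := a.x + b.x
          y := a.y + b.y
          h := c1_tr h (c1_split A P P' a.x b.x a.y b.y) (c1_split A Q Q' a.x b.x a.y b.y) }
      have hc : Rigid c.h := c1_rigid h _ _ hh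
      have j1 : ee k a.h c.h ≤ ee k a.h h := c1_ee_right a.h h _ _
      have j2 : ee k c.h a.h ≤ ee k h a.h := c1_ee_left a.h h _ _
      have j3 : ee k b.h c.h ≤ ee k b.h h := c1_ee_right b.h h _ _
      have j4 : ee k c.h b.h ≤ ee k h b.h := c1_ee_left b.h h _ _
      have k1 : ee k a.h c.h + ee k c.h a.h ≤ s ∧ ee k c.h b.h + ee k b.h c.h ≤ s := by
        rcases Nat.eq_zero_or_pos (ee k a.h b.h) with h1 | h1
        · have h2 : 0 < ee k b.h a.h := by omega
          have := i5 h2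
          omega
        · have := i6 h1
          omega
      have hxc : c.x = a.x + b.x := rfl
      have hyc : c.y = a.y + b.y := rfl
      have d1 : a.x * c.y = c.x * a.y + 1 := by
        rw [hxc, hyc, mul_add, add_mul, hdet]
        ring
      have d2 : c.x * b.y = b.x * c.y + 1 := by
        rw [hxc, hyc, mul_add, add_mul, hdet]
        ring
      have b1 : 2 ^ s * ((a.x + c.x) * finrank k Q + (a.y + c.y) * finrank k Q') ≤ D := by
        refine le_trans ?_ hD
        rw [pow_succ, mul_assoc]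
        apply Nat.mul_le_mul_left
        rw [hxc, hyc]
        nlinarith [Nat.zero_le (b.x * finrank k Q), Nat.zero_le (b.y * finrank k Q')]
      have b2 : 2 ^ s * ((c.x + b.x) * finrank k Q + (c.y + b.y) * finrank k Q') ≤ D := by
        refine le_trans ?_ hD
        rw [pow_succ, mul_assoc]
        apply Nat.mul_le_mul_left
        rw [hxc, hyc]
        nlinarith [Nat.zero_le (a.x * finrank k Q), Nat.zero_le (a.y * finrank k Q')]
      obtain ⟨l₁, hl₁, hc₁⟩ := ih a c ha hc d1 k1.1 b1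
      obtain ⟨l₂, hl₂, hc₂⟩ := ih c b hc hb d2 k1.2 b2
      refine ⟨l₁ ++ c :: l₂, ?_, ?_⟩
      · rw [List.length_append, List.length_cons, pow_succ]
        omega
      · have e1 : a :: ((l₁ ++ c :: l₂) ++ [b]) = (a :: l₁) ++ c :: (l₂ ++ [b]) := by
          simp
        rw [e1, List.isChain_split]
        exact ⟨by simpa using hc₁, hc₂⟩

end main

theorem chain_exists [Infinite k] {P Q P' Q' : Type u}
    [AddCommGroup P] [Module A P] [Module k P] [IsScalarTower k A P] [Module.Finite k P] [Module.Projective A P]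
    [AddCommGroup Q] [Module A Q] [Module k Q] [IsScalarTower k A Q] [Module.Finite k Q] [Module.Projective A Q]
    [AddCommGroup P'] [Module A P'] [Module k P'] [IsScalarTower k A P'] [Module.Finite k P']
    [Module.Projective A P']
    [AddCommGroup Q'] [Module A Q'] [Module k Q'] [IsScalarTower k A Q'] [Module.Finite k Q']
    [Module.Projective A Q']
    (f : P →ₗ[A] Q) (g : P' →ₗ[A] Q') (hf : Rigid f) (hg : Rigid g) (L : List (Rp k A))
    (hL : Cov k A (2 ^ (ee k f g + ee k g f) * (finrank k Q + finrank k Q')) L) :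
    ∃ l : List (Node A P Q P' Q'), l.length ≤ 2 ^ (ee k f g + ee k g f) + 1 ∧ l.IsChain Compat ∧
      (∃ a : Node A P Q P' Q', l.head? = some a ∧ a.x = 1 ∧ a.y = 0) ∧
      (∃ b : Node A P Q P' Q', l.getLast? = some b ∧ b.x = 0 ∧ b.y = 1) := by
  let v₁ : ((Fin 1 → P) × (Fin 0 → P')) ≃ₗ[A] P :=
    LinearEquiv.prodUnique.trans (LinearEquiv.funUnique (Fin 1) A P)
  let w₁ : ((Fin 1 → Q) × (Fin 0 → Q')) ≃ₗ[A] Q :=
    LinearEquiv.prodUnique.trans (LinearEquiv.funUnique (Fin 1) A Q)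
  let v₂ : ((Fin 0 → P) × (Fin 1 → P')) ≃ₗ[A] P' :=
    LinearEquiv.uniqueProd.trans (LinearEquiv.funUnique (Fin 1) A P')
  let w₂ : ((Fin 0 → Q) × (Fin 1 → Q')) ≃ₗ[A] Q' :=
    LinearEquiv.uniqueProd.trans (LinearEquiv.funUnique (Fin 1) A Q')
  let a : Node A P Q P' Q' := { x := 1, y := 0, h := c1_tr f v₁ w₁ }
  let b : Node A P Q P' Q' := { x := 0, y := 1, h := c1_tr g v₂ w₂ }
  have ha : Rigid a.h := c1_rigid f v₁ w₁ hf
  have hb : Rigid b.h := c1_rigid g v₂ w₂ hg
  have e1 : ee k a.h b.h ≤ ee k f g :=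
    (c1_ee_right a.h g v₂ w₂).trans (c1_ee_left g f v₁ w₁)
  have e2 : ee k b.h a.h ≤ ee k g f :=
    (c1_ee_left a.h g v₂ w₂).trans (c1_ee_right g f v₁ w₁)
  obtain ⟨l, hl, hc⟩ := c1_ind L _ hL (ee k f g + ee k g f) a b ha hb rfl (by omega) (by
    have h1 : (a.x + b.x) * finrank k Q + (a.y + b.y) * finrank k Q' = finrank k Q + finrank k Q' := by
      change (1 + 0) * finrank k Q + (0 + 1) * finrank k Q' = _
      simp
    rw [h1])
  refine ⟨a :: (l ++ [b]), ?_, hc, ⟨a, rfl, rfl, rfl⟩, ⟨b, ?_, rfl, rfl⟩⟩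
  · simp only [List.length_cons, List.length_append, List.length_nil]
    omega
  · rw [← List.cons_append, List.getLast?_append]
    simp

end

end TB10
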