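import Mathlib

/-!
# Board TB10 : the second tau-Brauer-Thrall conjecture for algebras with two simple modules
Definitions (page: notes_MP_424b8c_helper10.md in the store).

`k` is a field, `A` a finite-dimensional `k`-algebra, modules are left `A`-modules in `Type u` which are
finite-dimensional over `k` (`[Module k X] [IsScalarTower k A X] [Module.Finite k X]`).
-/

set_option autoImplicit false

universe u

namespace TB10

open Module

section instances

variable {k : Type u} [Field k] {A : Type u} [Ring A] [Algebra k A]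

instance instFinSub {X : Type u} [AddCommGroup X] [Module A X] [Module k X] [IsScalarTower k A X]
    [Module.Finite k X] (N : Submodule A X) : Module.Finite k N :=
  Module.Finite.of_injective (N.subtype.restrictScalars k) Subtype.val_injective

instance instFinHom {M X : Type u} [AddCommGroup M] [Module A M] [Module k M] [IsScalarTower k A M]
    [Module.Finite k M] [AddCommGroup X] [Module A X] [Module k X] [IsScalarTower k A X]
    [Module.Finite k X] : Module.Finite k (M →ₗ[A] X) :=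
  Module.Finite.of_injective (LinearMap.restrictScalarsₗ k A M X k)
    (fun _ _ h => LinearMap.restrictScalars_injective k h)

end instances

section defs

variable (k : Type u) [Field k] {A : Type u} [Ring A] [Algebra k A]

/-- `q ↦ q ∘ f`, `Hom(Q,X) → Hom(P,X)`, as a `k`-linear map. -/
def pre {P Q : Type u} [AddCommGroup P] [Module A P] [AddCommGroup Q] [Module A Q]
    (f : P →ₗ[A] Q) (X : Type u) [AddCommGroup X] [Module A X] [Module k X] [IsScalarTower k A X] :
    (Q →ₗ[A] X) →ₗ[k] (P →ₗ[A] X) where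
  toFun q := q ∘ₗ f
  map_add' _ _ := rfl
  map_smul' _ _ := rfl

/-- `(α, β) ↦ α f + g β`, `Hom(Q,Q') × Hom(P,P') → Hom(P,Q')`. -/
def Phi {P Q P' Q' : Type u} [AddCommGroup P] [Module A P] [AddCommGroup Q] [Module A Q]
    [AddCommGroup P'] [Module A P'] [Module k P'] [IsScalarTower k A P']
    [AddCommGroup Q'] [Module A Q'] [Module k Q'] [IsScalarTower k A Q']
    (f : P →ₗ[A] Q) (g : P' →ₗ[A] Q') :
    ((Q →ₗ[A] Q') × (P →ₗ[A] P')) →ₗ[k] (P →ₗ[A] Q') where
  toFun x := x.1 ∘ₗ f + g ∘ₗ x.2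
  map_add' x y := by
    ext p
    simp only [Prod.fst_add, Prod.snd_add, LinearMap.add_apply, LinearMap.comp_apply, map_add]
    abel
  map_smul' c x := by
    ext p
    have h : g (c • (x.2 p)) = c • g (x.2 p) := by
      rw [← algebraMap_smul A c (x.2 p), map_smul, algebraMap_smul]
    simp [h]

/-- `dim_k E(f,g)`, `E(f,g) = Hom(P,Q') / (Hom(Q,Q') f + g Hom(P,P'))`. -/
noncomputable def ee {P Q P' Q' : Type u} [AddCommGroup P] [Module A P] [AddCommGroup Q] [Module A Q]
    [AddCommGroup P'] [Module A P'] [Module k P'] [IsScalarTower k A P']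
    [AddCommGroup Q'] [Module A Q'] [Module k Q'] [IsScalarTower k A Q']
    (f : P →ₗ[A] Q) (g : P' →ₗ[A] Q') : ℕ :=
  finrank k ((P →ₗ[A] Q') ⧸ LinearMap.range (Phi k f g))

end defs

section defs2

variable {A : Type u} [Ring A]

/-- `E(f,X) = 0`. -/
def E0 {P Q : Type u} [AddCommGroup P] [Module A P] [AddCommGroup Q] [Module A Q]
    (f : P →ₗ[A] Q) (X : Type u) [AddCommGroup X] [Module A X] : Prop :=
  ∀ h : P →ₗ[A] X, ∃ q : Q →ₗ[A] X, q ∘ₗ f = h

/-- `E(f,g) = 0`. -/
def EE {P Q P' Q' : Type u} [AddCommGroup P] [Module A P] [AddCommGroup Q] [Module A Q]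
    [AddCommGroup P'] [Module A P'] [AddCommGroup Q'] [Module A Q']
    (f : P →ₗ[A] Q) (g : P' →ₗ[A] Q') : Prop :=
  ∀ h : P →ₗ[A] Q', ∃ (α : Q →ₗ[A] Q') (β : P →ₗ[A] P'), α ∘ₗ f + g ∘ₗ β = h

/-- `f` is rigid : `Hom(P,Q) = End(Q) f + f End(P)`. -/
def Rigid {P Q : Type u} [AddCommGroup P] [Module A P] [AddCommGroup Q] [Module A Q]
    (f : P →ₗ[A] Q) : Prop :=
  ∀ h : P →ₗ[A] Q, ∃ (α : Q →ₗ[A] Q) (β : P →ₗ[A] P), α ∘ₗ f + f ∘ₗ β = h

/-- A brick: nonzero module, all nonzero endomorphisms are bijective. -/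
def IsBrick (A : Type u) [Ring A] (X : Type u) [AddCommGroup X] [Module A X] : Prop :=
  Nontrivial X ∧ ∀ h : X →ₗ[A] X, h ≠ 0 → Function.Bijective h

/-- trace of `M` in `X`. -/
def tr (A : Type u) [Ring A] (M X : Type u) [AddCommGroup M] [Module A M] [AddCommGroup X]
    [Module A X] : Submodule A X :=
  ⨆ θ : M →ₗ[A] X, LinearMap.range θ

/-- `X` is generated by `M`. -/
def Gen (A : Type u) [Ring A] (M X : Type u) [AddCommGroup M] [Module A M] [AddCommGroup X]
    [Module A X] : Prop :=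
  tr A M X = ⊤

/-- the sum of the images of the nilpotent endomorphisms of `M`. -/
def RM (A : Type u) [Ring A] (M : Type u) [AddCommGroup M] [Module A M] : Submodule A M :=
  ⨆ r : {r : M →ₗ[A] M // IsNilpotent r}, LinearMap.range r.1

/-- every endomorphism of `M` is nilpotent or bijective. -/
def Loc (A : Type u) [Ring A] (M : Type u) [AddCommGroup M] [Module A M] : Prop :=
  ∀ α : M →ₗ[A] M, IsNilpotent α ∨ Function.Bijective α

end defs2

section generic

/-- lower semicontinuity along lines: on the line through `y` and `y'`, the value is at least `ρ y`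
outside a finite set of parameters. -/
def LSC (k : Type u) [Field k] {Y : Type u} [AddCommGroup Y] [Module k Y] (ρ : Y → ℕ) : Prop :=
  ∀ y y' : Y, {c : k | ρ (y + c • (y' - y)) < ρ y}.Finite

end generic

section rep

/-- an `A`-module structure on `k^d` -/
abbrev Rp (k A : Type u) [Field k] [Ring A] [Algebra k A] : Type u :=
  Σ d : ℕ, (A →ₐ[k] Module.End k (Fin d → k))

variable {k A : Type u} [Field k] [Ring A] [Algebra k A]

/-- the underlying space of a representation -/
def Vm {d : ℕ} (_ρ : A →ₐ[k] Module.End k (Fin d → k)) : Type u := Fin d → k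

instance {d : ℕ} (ρ : A →ₐ[k] Module.End k (Fin d → k)) : AddCommGroup (Vm ρ) :=
  inferInstanceAs (AddCommGroup (Fin d → k))

instance {d : ℕ} (ρ : A →ₐ[k] Module.End k (Fin d → k)) : Module k (Vm ρ) :=
  inferInstanceAs (Module k (Fin d → k))

instance {d : ℕ} (ρ : A →ₐ[k] Module.End k (Fin d → k)) : Module.Finite k (Vm ρ) :=
  inferInstanceAs (Module.Finite k (Fin d → k))

instance {d : ℕ} (ρ : A →ₐ[k] Module.End k (Fin d → k)) : Module A (Vm ρ) :=
  Module.compHom (Fin d → k) (ρ : A →+* Module.End k (Fin d → k))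

theorem Vm.smul_def {d : ℕ} (ρ : A →ₐ[k] Module.End k (Fin d → k)) (a : A) (v : Vm ρ) :
    a • v = (ρ a : (Fin d → k) → (Fin d → k)) v := rfl

instance {d : ℕ} (ρ : A →ₐ[k] Module.End k (Fin d → k)) : IsScalarTower k A (Vm ρ) where
  smul_assoc c a v := by
    rw [Vm.smul_def, Vm.smul_def, map_smul]
    rfl

/-- `L` is a list of modules which contains every brick of dimension at most `D` up to isomorphism -/
def Cov (k A : Type u) [Field k] [Ring A] [Algebra k A] (D : ℕ) (L : List (Rp k A)) : Prop :=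
  ∀ (X : Type u) [AddCommGroup X] [Module A X] [Module k X] [IsScalarTower k A X]
    [Module.Finite k X], IsBrick A X → finrank k X ≤ D → ∃ r ∈ L, Nonempty (X ≃ₗ[A] Vm r.2)

/-- infinitely many pairwise nonisomorphic bricks of dimension `d`. -/
def InfBricks (k A : Type u) [Field k] [Ring A] [Algebra k A] (d : ℕ) : Prop :=
  ∃ B : ℕ → (A →ₐ[k] Module.End k (Fin d → k)),
    (∀ n, IsBrick A (Vm (B n))) ∧ ∀ m n, m < n → IsEmpty (Vm (B m) ≃ₗ[A] Vm (B n))

/-- infinitely many pairwise nonisomorphic bricks. -/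
def InfBricksAll (k A : Type u) [Field k] [Ring A] [Algebra k A] : Prop :=
  ∃ B : ℕ → Rp k A,
    (∀ n, IsBrick A (Vm (B n).2)) ∧ ∀ m n, m < n → IsEmpty (Vm (B m).2 ≃ₗ[A] Vm (B n).2)

end rep

section types

variable (k : Type u) [Field k] (A : Type u) [Ring A] [Algebra k A]

/-- `dim Hom(Q,X) = a * dim Hom(P₁,X)` for all finite-dimensional `X`. -/
def Ty (P₁ Q : Type u) [AddCommGroup P₁] [Module A P₁] [AddCommGroup Q] [Module A Q] (a : ℕ) : Prop :=
  ∀ (X : Type u) [AddCommGroup X] [Module A X] [Module k X] [IsScalarTower k A X]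
    [Module.Finite k X], finrank k (Q →ₗ[A] X) = a * finrank k (P₁ →ₗ[A] X)

/-- a presentation: a homomorphism of finite-dimensional projective modules -/
structure Pres where
  P : Type u
  Q : Type u
  [gP : AddCommGroup P]
  [aP : Module A P]
  [kP : Module k P]
  [tP : IsScalarTower k A P]
  [fP : Module.Finite k P]
  [pP : Module.Projective A P]
  [gQ : AddCommGroup Q]
  [aQ : Module A Q]
  [kQ : Module k Q]
  [tQ : IsScalarTower k A Q]
  [fQ : Module.Finite k Q]
  [pQ : Module.Projective A Q]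
  f : P →ₗ[A] Q

attribute [instance] Pres.gP Pres.aP Pres.kP Pres.tP Pres.fP Pres.pP Pres.gQ Pres.aQ Pres.kQ
  Pres.tQ Pres.fQ Pres.pQ

variable {k A}

/-- the cokernel of a presentation -/
abbrev Pres.M (F : Pres k A) : Type u := F.Q ⧸ LinearMap.range F.f

/-- the size of a presentation -/
noncomputable def Pres.size (F : Pres k A) : ℕ := finrank k F.P + finrank k F.Q

/-- the numerical part: `F` has type `(a,b)`, `G` has type `(a',b')` and `a b' - a' b = 1` -/
def Det1 (P₁ P₂ : Type u) [AddCommGroup P₁] [Module A P₁] [AddCommGroup P₂] [Module A P₂]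
    (F G : Pres k A) : Prop :=
  ∃ a b a' b' : ℕ, Ty k A P₁ F.Q a ∧ Ty k A P₂ F.P b ∧ Ty k A P₁ G.Q a' ∧ Ty k A P₂ G.P b' ∧
    a * b' = a' * b + 1

/-- adjacency: `F`, `G` rigid, `E(G,F) = 0` and determinant `1` (here `E(F,G)=0` is not needed) -/
def Adj (P₁ P₂ : Type u) [AddCommGroup P₁] [Module A P₁] [AddCommGroup P₂] [Module A P₂]
    (F G : Pres k A) : Prop :=
  Rigid F.f ∧ Rigid G.f ∧ EE G.f F.f ∧ Det1 P₁ P₂ F G

variable (k A) in
/-- the abstract properties of the two indecomposable projectives of an algebra with two simples -/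
structure TwoP (P₁ P₂ : Type u) [AddCommGroup P₁] [Module A P₁] [AddCommGroup P₂] [Module A P₂] :
    Prop where
  faithful : ∀ (X : Type u) [AddCommGroup X] [Module A X] [Module k X] [IsScalarTower k A X]
    [Module.Finite k X], (∀ h : P₁ →ₗ[A] X, h = 0) → (∀ h : P₂ →ₗ[A] X, h = 0) → Subsingleton X
  split1 : ∀ (Q : Type u) [AddCommGroup Q] [Module A Q] [Module k Q] [IsScalarTower k A Q]
    [Module.Finite k Q] [Module.Projective A Q] (Q' Q'' : Submodule A Q) (a : ℕ),
    IsCompl Q' Q'' → Ty k A P₁ Q a → ∃ a' a'' : ℕ, a' + a'' = a ∧ Ty k A P₁ Q' a' ∧ Ty k A P₁ Q'' a''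
  split2 : ∀ (Q : Type u) [AddCommGroup Q] [Module A Q] [Module k Q] [IsScalarTower k A Q]
    [Module.Finite k Q] [Module.Projective A Q] (Q' Q'' : Submodule A Q) (a : ℕ),
    IsCompl Q' Q'' → Ty k A P₂ Q a → ∃ a' a'' : ℕ, a' + a'' = a ∧ Ty k A P₂ Q' a' ∧ Ty k A P₂ Q'' a''

/-- restriction of a presentation to a direct summand -/
abbrev Pres.sub (F : Pres k A) (P' : Submodule A F.P) (Q' : Submodule A F.Q)
    (hP : Module.Projective A P') (hQ : Module.Projective A Q') (h : ∀ p ∈ P', F.f p ∈ Q') :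
    Pres k A where
  P := P'
  Q := Q'
  f := F.f.restrict h

/-- direct sum of two presentations -/
abbrev Pres.sum (F G : Pres k A) (h : F.P × G.P →ₗ[A] F.Q × G.Q) : Pres k A where
  P := F.P × G.P
  Q := F.Q × G.Q
  f := h

end types

section hphi

variable {A : Type u} [Ring A]

/-- `(p,p') ↦ (f p + φ p', g p')`. -/
def hphi {P Q P' Q' : Type u} [AddCommGroup P] [Module A P] [AddCommGroup Q] [Module A Q]
    [AddCommGroup P'] [Module A P'] [AddCommGroup Q'] [Module A Q']
    (f : P →ₗ[A] Q) (g : P' →ₗ[A] Q') (φ : P' →ₗ[A] Q) : P × P' →ₗ[A] Q × Q' :=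
  LinearMap.prodMap f g + LinearMap.inl A Q Q' ∘ₗ φ ∘ₗ LinearMap.snd A P P'

/-- `(p,p') ↦ (f p, ψ p + g p')`. -/
def hpsi {P Q P' Q' : Type u} [AddCommGroup P] [Module A P] [AddCommGroup Q] [Module A Q]
    [AddCommGroup P'] [Module A P'] [AddCommGroup Q'] [Module A Q']
    (f : P →ₗ[A] Q) (g : P' →ₗ[A] Q') (ψ : P →ₗ[A] Q') : P × P' →ₗ[A] Q × Q' :=
  LinearMap.prodMap f g + LinearMap.inr A Q Q' ∘ₗ ψ ∘ₗ LinearMap.fst A P P'

end hphi

end TB10
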