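import Pool.Agent.LibTB10.Defs
/-!
ROW [TB10 E1] ONLY MATHLIB.  Intermediate extension from a corner algebra B = eAe (e = φ 1) to A.
-/
set_option autoImplicit false
universe u
namespace TB10
open Module

/-- `Hom_k(A,N)` with the left `A`-structure `(a • ψ) x = ψ (x a)`. -/
def E1H (k A N : Type u) [Field k] [Ring A] [Algebra k A] [AddCommGroup N] [Module k N] : Type u :=
  A →ₗ[k] N

section e1
variable {k A N : Type u} [Field k] [Ring A] [Algebra k A] [AddCommGroup N] [Module k N]

instance : AddCommGroup (E1H k A N) := inferInstanceAs (AddCommGroup (A →ₗ[k] N))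
instance : Module k (E1H k A N) := inferInstanceAs (Module k (A →ₗ[k] N))

/-- evaluation -/
def E1H.ev (ψ : E1H k A N) (x : A) : N := (show A →ₗ[k] N from ψ) x

theorem E1H.ext' {ψ χ : E1H k A N} (h : ∀ x, ψ.ev x = χ.ev x) : ψ = χ :=
  LinearMap.ext (f := (show A →ₗ[k] N from ψ)) (g := (show A →ₗ[k] N from χ)) h

instance : SMul A (E1H k A N) where
  smul a ψ := (show A →ₗ[k] N from ψ) ∘ₗ (LinearMap.mulRight k a)

theorem E1H.ev_smul (a : A) (ψ : E1H k A N) (x : A) : (a • ψ).ev x = ψ.ev (x * a) := rfl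
theorem E1H.ev_add (ψ χ : E1H k A N) (x : A) : (ψ + χ).ev x = ψ.ev x + χ.ev x := rfl
theorem E1H.ev_zero (x : A) : (0 : E1H k A N).ev x = 0 := rfl
theorem E1H.ev_ksmul (c : k) (ψ : E1H k A N) (x : A) : (c • ψ).ev x = c • ψ.ev x := rfl
theorem E1H.ev_map_add (ψ : E1H k A N) (x y : A) : ψ.ev (x + y) = ψ.ev x + ψ.ev y :=
  map_add (show A →ₗ[k] N from ψ) x y
theorem E1H.ev_map_smul (ψ : E1H k A N) (c : k) (x : A) : ψ.ev (c • x) = c • ψ.ev x :=
  map_smul (show A →ₗ[k] N from ψ) c x
theorem E1H.ev_map_zero (ψ : E1H k A N) : ψ.ev 0 = 0 :=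
  map_zero (show A →ₗ[k] N from ψ)

instance : Module A (E1H k A N) where
  one_smul ψ := E1H.ext' fun x => by rw [E1H.ev_smul, mul_one]
  mul_smul a b ψ := E1H.ext' fun x => by rw [E1H.ev_smul, E1H.ev_smul, E1H.ev_smul, mul_assoc]
  smul_zero a := E1H.ext' fun x => by rw [E1H.ev_smul, E1H.ev_zero, E1H.ev_zero]
  smul_add a ψ χ := E1H.ext' fun x => by
    rw [E1H.ev_smul, E1H.ev_add, E1H.ev_add, E1H.ev_smul, E1H.ev_smul]
  add_smul a b ψ := E1H.ext' fun x => by
    rw [E1H.ev_smul, E1H.ev_add, mul_add, E1H.ev_map_add, E1H.ev_smul, E1H.ev_smul]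
  zero_smul ψ := E1H.ext' fun x => by
    rw [E1H.ev_smul, mul_zero, E1H.ev_map_zero, E1H.ev_zero]

instance : IsScalarTower k A (E1H k A N) where
  smul_assoc c a ψ := E1H.ext' fun x => by
    rw [E1H.ev_smul, E1H.ev_ksmul, E1H.ev_smul, mul_smul_comm, E1H.ev_map_smul]

instance [Module.Finite k A] [Module.Finite k N] : Module.Finite k (E1H k A N) :=
  inferInstanceAs (Module.Finite k (A →ₗ[k] N))

theorem E1H.finrank_eq [Module.Finite k A] [Module.Finite k N] :
    finrank k (E1H k A N) = finrank k A * finrank k N :=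
  Module.finrank_linearMap k k A N

end e1

theorem exists_extension {k : Type u} [Field k] {A B : Type u} [Ring A] [Algebra k A] [Module.Finite k A]
    [Ring B] [Algebra k B] (φ : B →ₗ[k] A) (hmul : ∀ x y, φ (x * y) = φ x * φ y)
    (hinj : Function.Injective φ) (hcorner : ∀ a : A, ∃ b : B, φ b = φ 1 * a * φ 1)
    (N : Type u) [AddCommGroup N] [Module B N] [Module k N] [IsScalarTower k B N] [Module.Finite k N]
    (hN : IsBrick B N) :
    ∃ (L : Type u) (_ : AddCommGroup L) (_ : Module A L) (_ : Module k L) (_ : IsScalarTower k A L)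
      (_ : Module.Finite k L), IsBrick A L ∧ finrank k L ≤ finrank k A * finrank k N ∧
      ∃ i : N →ₗ[k] L, Function.Injective i ∧ (∀ (b : B) (n : N), i (b • n) = φ b • i n) ∧
        ∀ x : L, φ 1 • x = x ↔ x ∈ LinearMap.range i := by
  choose β₀ hβ₀ using hcorner
  have he : φ 1 * φ 1 = φ 1 := by rw [← hmul, one_mul]
  have hle : ∀ b, φ 1 * φ b = φ b := fun b => by rw [← hmul, one_mul]
  have hre : ∀ b, φ b * φ 1 = φ b := fun b => by rw [← hmul, mul_one]
  let β : A →ₗ[k] B :=
    { toFun := β₀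
      map_add' := fun x y => hinj (by
        rw [map_add, hβ₀, hβ₀, hβ₀, mul_add, add_mul])
      map_smul' := fun c x => hinj (by
        rw [RingHom.id_apply, map_smul, hβ₀, hβ₀, mul_smul_comm, smul_mul_assoc]) }
  have hβ : ∀ a, φ (β a) = φ 1 * a * φ 1 := hβ₀
  have hβl : ∀ b a, β (φ b * a) = b * β a := fun b a => hinj (by
    rw [hβ, hmul, hβ, ← mul_assoc, ← mul_assoc, ← mul_assoc, hle, hre])
  have hβr : ∀ a b, β (a * φ b) = β a * b := fun a b => hinj (by
    rw [hβ, hmul, hβ, mul_assoc (φ 1 * a) (φ 1) (φ b), hle, ← mul_assoc (φ 1) a (φ b), mul_assoc, hre])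
  have hβ1 : β 1 = 1 := hinj (by rw [hβ, mul_one, he])
  -- the map `i`
  let i₀ : N →ₗ[k] E1H k A N :=
    { toFun := fun n => (LinearMap.toSpanSingleton B N n).restrictScalars k ∘ₗ β
      map_add' := fun x y => E1H.ext' fun a => smul_add (β a) x y
      map_smul' := fun c x => E1H.ext' fun a => by
        change β a • (c • x) = c • (β a • x)
        rw [← algebraMap_smul B c x, ← algebraMap_smul B c (β a • x), ← mul_smul, ← mul_smul,
          Algebra.commutes] }
  have hi₀ : ∀ n a, (i₀ n).ev a = β a • n := fun n a => rfl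
  have hib : ∀ (b : B) (n : N), i₀ (b • n) = φ b • i₀ n := fun b n => E1H.ext' fun a => by
    rw [hi₀, E1H.ev_smul, hi₀, hβr, mul_smul]
  let L : Submodule A (E1H k A N) := Submodule.span A (Set.range i₀)
  have hC : ∀ ψ ∈ L, ∀ (b : B) (a : A), E1H.ev ψ (φ b * a) = b • E1H.ev ψ a := by
    intro ψ hψ
    induction hψ using Submodule.span_induction with
    | mem x hx =>
      obtain ⟨n, rfl⟩ := hx
      intro b a
      rw [hi₀, hi₀, hβl, mul_smul]
    | zero =>
      intro b a
      rw [E1H.ev_zero, E1H.ev_zero, smul_zero]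
    | add x y _ _ hx hy =>
      intro b a
      rw [E1H.ev_add, E1H.ev_add, hx, hy, smul_add]
    | smul c x _ hx =>
      intro b a
      rw [E1H.ev_smul, E1H.ev_smul, mul_assoc, hx]
  have hCe : ∀ ψ ∈ L, ∀ (a : A), E1H.ev ψ (φ 1 * a) = E1H.ev ψ a := fun ψ hψ a => by
    rw [hC ψ hψ, one_smul]
  have hmemi : ∀ n, i₀ n ∈ L := fun n => Submodule.subset_span ⟨n, rfl⟩
  let i : N →ₗ[k] L :=
    { toFun := fun n => ⟨i₀ n, hmemi n⟩
      map_add' := fun x y => Subtype.ext (map_add i₀ x y)
      map_smul' := fun c x => Subtype.ext (map_smul i₀ c x) }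
  have hival : ∀ n, ((i n : L) : E1H k A N) = i₀ n := fun n => rfl
  have hiinj : Function.Injective i := by
    intro x y hxy
    have h1 : i₀ x = i₀ y := congrArg Subtype.val hxy
    have h2 := congrArg (fun ψ => E1H.ev ψ 1) h1
    simp only [hi₀, hβ1, one_smul] at h2
    exact h2
  have hib' : ∀ (b : B) (n : N), i (b • n) = φ b • i n := fun b n => Subtype.ext (hib b n)
  have hfix : ∀ x : L, φ 1 • x = x ↔ x ∈ LinearMap.range i := by
    intro x
    constructor
    · intro hx
      refine ⟨E1H.ev (x : E1H k A N) (φ 1), Subtype.ext (E1H.ext' fun a => ?_)⟩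
      rw [hival, hi₀, ← hC _ x.2, hβ, mul_assoc, he, mul_assoc, hCe _ x.2]
      have h1 : φ 1 • (x : E1H k A N) = x := congrArg Subtype.val hx
      have h2 := congrArg (fun ψ => E1H.ev ψ a) h1
      simp only [E1H.ev_smul] at h2
      exact h2
    · rintro ⟨n, rfl⟩
      rw [← hib', one_smul]
  have hspan : ∀ K : Submodule A L, (∀ n, i n ∈ K) → K = ⊤ := by
    intro K hK
    rw [eq_top_iff]
    rintro ⟨x, hx⟩ _
    have : ∀ x (hx : x ∈ Submodule.span A (Set.range i₀)), (⟨x, hx⟩ : L) ∈ K := by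
      intro x hx
      induction hx using Submodule.span_induction with
      | mem x hx =>
        obtain ⟨n, rfl⟩ := hx
        exact hK n
      | zero => exact K.zero_mem
      | add x y hx hy h1 h2 => exact K.add_mem h1 h2
      | smul c x hx h1 => exact K.smul_mem c h1
    exact this x hx
  refine ⟨L, inferInstance, inferInstance, inferInstance, inferInstance, inferInstance, ⟨?_, ?_⟩, ?_,
    i, hiinj, hib', hfix⟩
  · haveI := hN.1
    exact hiinj.nontrivial
  · intro h hh
    have hex : ∀ n, ∃ m, i m = h (i n) := by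
      intro n
      have h1 : φ 1 • h (i n) = h (i n) := by
        rw [← map_smul, ← hib', one_smul]
      exact (hfix _).mp h1
    choose h₀ hh₀ using hex
    let h₁ : N →ₗ[B] N :=
      { toFun := h₀
        map_add' := fun x y => hiinj (by rw [hh₀, map_add, map_add, map_add, hh₀, hh₀])
        map_smul' := fun b x => hiinj (by
          rw [RingHom.id_apply, hh₀, hib', hib', map_smul, hh₀]) }
    have hh₁ : ∀ n, i (h₁ n) = h (i n) := hh₀
    have hne : h₁ ≠ 0 := by
      intro h0
      apply hh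
      have : LinearMap.ker h = ⊤ := by
        apply hspan
        intro n
        rw [LinearMap.mem_ker, ← hh₁, h0, LinearMap.zero_apply, map_zero]
      exact LinearMap.ker_eq_top.mp this
    have hb := hN.2 h₁ hne
    constructor
    · rw [injective_iff_map_eq_zero]
      intro x hx
      apply Subtype.ext
      apply E1H.ext'
      intro a
      have h1 : φ 1 • (φ 1 • (a • x)) = φ 1 • (a • x) := by
        rw [← mul_smul (φ 1) (φ 1), he]
      obtain ⟨n, hn⟩ := (hfix _).mp h1
      have h2 : h (i n) = 0 := by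
        rw [hn, map_smul, map_smul, hx, smul_zero, smul_zero]
      rw [← hh₁] at h2
      have h3 : h₁ n = 0 := hiinj (by rw [h2, map_zero])
      have h4 : n = 0 := hb.1 (by rw [h3, map_zero])
      rw [h4, map_zero] at hn
      have h5 : (φ 1 • (a • (x : E1H k A N))) = 0 := (congrArg Subtype.val hn).symm
      have h6 := congrArg (fun ψ => E1H.ev ψ (φ 1)) h5
      simp only [E1H.ev_smul, E1H.ev_zero] at h6
      rw [he, hCe _ x.2] at h6
      rw [h6]
      rfl
    · rw [← LinearMap.range_eq_top]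
      apply hspan
      intro n
      obtain ⟨m, rfl⟩ := hb.2 n
      exact ⟨i m, (hh₁ m).symm⟩
  · calc finrank k L = finrank k (L.restrictScalars k) := rfl
      _ ≤ finrank k (E1H k A N) := Submodule.finrank_le _
      _ = finrank k A * finrank k N := E1H.finrank_eq

end TB10
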