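import Pool.Agent.LibTB10.Defs
/-!
ROW [TB10 R1] ONLY MATHLIB. representations.
PLAN. exists_rep: choose a basis b : Basis (Fin (finrank k X)) k X (finBasis), e := b.equivFun : X ≃ₗ[k] (Fin d → k);
ρ a := e ∘ (lsmul a) ∘ e.symm (Algebra.lsmul k k X : A →ₐ[k] Module.End k X composed with
`LinearEquiv.algConj`/`LinearEquiv.conjAlgEquiv k e`).  e becomes A-linear X ≃ₗ[A] Vm ρ.
brick_congr: IsBrick is invariant under A-linear equivalences.
exists_cov: for each d ≤ D, ¬ InfBricks k A d.  Claim for each d: there is a list L of Rp with all r.1 = d such that every brick ρ on k^d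
is isomorphic to a member: otherwise `exists_seq_of_forall_finset_exists` (P ρ := IsBrick A (Vm ρ), r ρ ρ' := IsEmpty (Vm ρ ≃ₗ[A] Vm ρ'))
gives a sequence, i.e. InfBricks k A d.  (From a Finset s: not every brick is isomorphic to a member of s.)  Take the concatenation
over d ≤ D (List.range / induction on D), and exists_rep for an arbitrary X.
not_infAll: B : ℕ → Rp; for each n choose r ∈ L with Vm (B n).2 ≃ Vm r.2; pigeonhole (`Finite.exists_ne_map_eq_of_infinite` for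
ℕ → {r // r ∈ L}, finite by List.finite_toSet) gives m ≠ n with the same r; wlog m < n; compose the equivalences.
-/
set_option autoImplicit false
universe u
namespace TB10
open Module

section
variable {k : Type u} [Field k] {A : Type u} [Ring A] [Algebra k A]

theorem exists_rep (X : Type u) [AddCommGroup X] [Module A X] [Module k X] [IsScalarTower k A X]
    [Module.Finite k X] :
    ∃ ρ : A →ₐ[k] Module.End k (Fin (finrank k X) → k), Nonempty (X ≃ₗ[A] Vm ρ) := by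
  let e : X ≃ₗ[k] (Fin (finrank k X) → k) := (finBasis k X).equivFun
  let ρ : A →ₐ[k] Module.End k (Fin (finrank k X) → k) :=
    ((e.conjAlgEquiv k : Module.End k X ≃ₐ[k] Module.End k (Fin (finrank k X) → k)) :
      Module.End k X →ₐ[k] Module.End k (Fin (finrank k X) → k)).comp (Algebra.lsmul k k X)
  refine ⟨ρ, ⟨?_⟩⟩
  exact
    { toFun := e
      map_add' := e.map_add
      map_smul' := fun a x => by
        change e (a • x) = (ρ a) (e x)
        have h : (ρ a) (e x) = e (a • e.symm (e x)) := rfl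
        rw [h, e.symm_apply_apply]
      invFun := e.symm
      left_inv := e.left_inv
      right_inv := e.right_inv }

theorem brick_congr {X Y : Type u} [AddCommGroup X] [Module A X] [AddCommGroup Y] [Module A Y]
    (e : X ≃ₗ[A] Y) (h : IsBrick A X) : IsBrick A Y := by
  obtain ⟨h1, h2⟩ := h
  refine ⟨e.symm.toEquiv.nontrivial, ?_⟩
  intro g hg
  have h3 : (e.symm.toLinearMap ∘ₗ g ∘ₗ e.toLinearMap : X →ₗ[A] X) ≠ 0 := by
    intro h0
    apply hg
    ext y
    have h4 := congrArg (fun f : X →ₗ[A] X => e (f (e.symm y))) h0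
    simpa using h4
  have h5 := h2 _ h3
  have h6 : (g : Y → Y) = e ∘ (e.symm.toLinearMap ∘ₗ g ∘ₗ e.toLinearMap : X →ₗ[A] X) ∘ e.symm := by
    funext y
    simp
  rw [h6]
  exact e.bijective.comp (h5.comp e.symm.bijective)

private theorem R1_cov (d : ℕ) (h : ¬ InfBricks k A d) : ∃ L : List (Rp k A),
    ∀ ρ : A →ₐ[k] Module.End k (Fin d → k), IsBrick A (Vm ρ) →
      ∃ r ∈ L, Nonempty (Vm ρ ≃ₗ[A] Vm r.2) := by
  by_contra hcon
  push Not at hcon
  apply h
  apply exists_seq_of_forall_finset_exists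
    (fun ρ : A →ₐ[k] Module.End k (Fin d → k) => IsBrick A (Vm ρ))
    (fun ρ ρ' => IsEmpty (Vm ρ ≃ₗ[A] Vm ρ'))
  intro s _
  obtain ⟨ρ, hρ1, hρ2⟩ := hcon (s.toList.map fun ρ => (⟨d, ρ⟩ : Rp k A))
  refine ⟨ρ, hρ1, fun x hx => ?_⟩
  have h1 := hρ2 ⟨d, x⟩ (List.mem_map.2 ⟨x, Finset.mem_toList.2 hx, rfl⟩)
  exact ⟨fun e => (not_isEmpty_iff.2 ⟨e.symm⟩) h1⟩

theorem exists_cov (D : ℕ) (h : ∀ d ≤ D, ¬ InfBricks k A d) : ∃ L : List (Rp k A), Cov k A D L := by
  have h1 : ∀ d : ℕ, ∃ L : List (Rp k A), d ≤ D →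
      ∀ ρ : A →ₐ[k] Module.End k (Fin d → k), IsBrick A (Vm ρ) →
        ∃ r ∈ L, Nonempty (Vm ρ ≃ₗ[A] Vm r.2) := by
    intro d
    by_cases hd : d ≤ D
    · obtain ⟨L, hL⟩ := R1_cov d (h d hd)
      exact ⟨L, fun _ => hL⟩
    · exact ⟨[], fun h' => absurd h' hd⟩
  choose L hL using h1
  refine ⟨(List.range (D + 1)).flatMap L, ?_⟩
  intro X _ _ _ _ _ hX hd
  obtain ⟨ρ, ⟨e⟩⟩ := exists_rep (k := k) (A := A) X
  obtain ⟨r, hr, ⟨e'⟩⟩ := hL (finrank k X) hd ρ (brick_congr e hX)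
  refine ⟨r, List.mem_flatMap.2 ⟨finrank k X, List.mem_range.2 (by omega), hr⟩, ⟨e.trans e'⟩⟩

theorem not_infAll (L : List (Rp k A))
    (h : ∀ (X : Type u) [AddCommGroup X] [Module A X] [Module k X] [IsScalarTower k A X] [Module.Finite k X],
      IsBrick A X → ∃ r ∈ L, Nonempty (X ≃ₗ[A] Vm r.2)) : ¬ InfBricksAll k A := by
  rintro ⟨B, hB1, hB2⟩
  have h1 : ∀ n, ∃ r : {r : Rp k A // r ∈ L}, Nonempty (Vm (B n).2 ≃ₗ[A] Vm r.1.2) := by
    intro n
    obtain ⟨r, hr, hr'⟩ := h (Vm (B n).2) (hB1 n)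
    exact ⟨⟨r, hr⟩, hr'⟩
  choose f hf using h1
  have hfin : Finite {r : Rp k A // r ∈ L} := List.finite_toSet L
  obtain ⟨m, n, hmn, hfmn⟩ := Finite.exists_ne_map_eq_of_infinite f
  obtain ⟨e1⟩ := hf m
  obtain ⟨e2⟩ := hf n
  rw [← hfmn] at e2
  rcases lt_or_gt_of_ne hmn with hlt | hgt
  · exact (hB2 m n hlt).false (e1.trans e2.symm)
  · exact (hB2 n m hgt).false (e2.trans e1.symm)

end

end TB10
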