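import Pool.Agent.LibTB10.E1
import Pool.Agent.LibTB10.R1
/-!
ROW [TB10 E2]. (cite E1, R1) transport of infinite families of bricks.
PLAN. infBricks_of_corner: by contradiction: ∀ d' ≤ finrank k A * d, ¬ InfBricks k A d'.  exists_cov (R1) gives L covering all bricks of A of
dimension ≤ finrank k A * d.  B n : bricks of the corner of dimension d (finrank k (Vm (B n)) = d); exists_extension gives L_n, isomorphic to
Vm r_n.2, r_n ∈ L.  Pigeonhole (ℕ → {r // r ∈ L}): m < n with r_m = r_n, so an A-linear iso t : L_m ≃ L_n; it maps {x | e • x = x} onto itself so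
induces Vm (B m) ≃ₗ[B] Vm (B n) (i_n⁻¹ ∘ t ∘ i_m: define by choice, B-linear by hi), contradiction.
infBricks_of_quot: compose the representations with π: ρ.comp π; the homomorphisms are the same (π surjective), so bricks and non-isomorphism
are preserved.  (Vm (ρ.comp π) and Vm ρ have the same underlying space; a • v = π a • v.)
-/
set_option autoImplicit false
universe u
namespace TB10
open Module

private theorem e2_step {k : Type u} [Field k] {A B : Type u} [Ring A] [Algebra k A] [Module.Finite k A]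
    [Ring B] [Algebra k B] (φ : B →ₗ[k] A) (hmul : ∀ x y, φ (x * y) = φ x * φ y)
    (hinj : Function.Injective φ) (hcorner : ∀ a : A, ∃ b : B, φ b = φ 1 * a * φ 1)
    (d : ℕ) (L : List (Rp k A)) (hL : Cov k A (finrank k A * d) L)
    (ρ : B →ₐ[k] Module.End k (Fin d → k)) (hρ : IsBrick B (Vm ρ)) :
    ∃ r : {r : Rp k A // r ∈ L}, ∃ j : Vm ρ →+ Vm r.1.2, Function.Injective j ∧
      (∀ (b : B) (v : Vm ρ), j (b • v) = φ b • j v) ∧
      ∀ x : Vm r.1.2, φ 1 • x = x ↔ ∃ v, j v = x := by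
  obtain ⟨N, i1, i2, i3, i4, i5, hb, hd, i, hi1, hi2, hi3⟩ :=
    exists_extension φ hmul hinj hcorner (Vm ρ) hρ
  have hfr : finrank k (Vm ρ) = d := by
    change finrank k (Fin d → k) = d
    simp
  rw [hfr] at hd
  obtain ⟨r, hr, ⟨e⟩⟩ := hL N hb hd
  refine ⟨⟨r, hr⟩, e.toAddEquiv.toAddMonoidHom.comp i.toAddMonoidHom, ?_, ?_, ?_⟩
  · exact e.injective.comp hi1
  · intro b v
    change e (i (b • v)) = φ b • e (i v)
    rw [hi2, map_smul]
  · intro x
    change φ 1 • x = x ↔ ∃ v, e (i v) = x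
    constructor
    · intro hx
      have h1 : φ 1 • e.symm x = e.symm x := by rw [← map_smul, hx]
      obtain ⟨v, hv⟩ := (hi3 _).1 h1
      exact ⟨v, by rw [hv, e.apply_symm_apply]⟩
    · rintro ⟨v, rfl⟩
      rw [← map_smul, (hi3 (i v)).2 ⟨v, rfl⟩]

private theorem e2_glue {k : Type u} [Field k] {A B : Type u} [Ring A] [Algebra k A]
    [Ring B] [Algebra k B] (φ : B →ₗ[k] A)
    {d : ℕ} (ρ ρ' : B →ₐ[k] Module.End k (Fin d → k)) {X : Type u} [AddCommGroup X] [Module A X]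
    (j : Vm ρ →+ X) (j' : Vm ρ' →+ X) (hj : Function.Injective j) (hj' : Function.Injective j')
    (h1 : ∀ (b : B) (v : Vm ρ), j (b • v) = φ b • j v)
    (h1' : ∀ (b : B) (v : Vm ρ'), j' (b • v) = φ b • j' v)
    (h2 : ∀ x : X, φ 1 • x = x ↔ ∃ v, j v = x)
    (h2' : ∀ x : X, φ 1 • x = x ↔ ∃ v, j' v = x) : Nonempty (Vm ρ ≃ₗ[B] Vm ρ') := by
  have h3 : ∀ v : Vm ρ, ∃ w : Vm ρ', j' w = j v := fun v => (h2' _).1 ((h2 _).2 ⟨v, rfl⟩)
  choose t ht using h3
  let T : Vm ρ →ₗ[B] Vm ρ' :=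
    { toFun := t
      map_add' := fun v w => hj' (by rw [ht, map_add, map_add, ht, ht])
      map_smul' := fun b v => hj' (by rw [ht, h1, RingHom.id_apply, h1', ht]) }
  refine ⟨LinearEquiv.ofBijective T ⟨?_, ?_⟩⟩
  · intro v w hvw
    apply hj
    rw [← ht v, ← ht w]
    exact congrArg j' hvw
  · intro w
    obtain ⟨v, hv⟩ := (h2 _).1 ((h2' (j' w)).2 ⟨w, rfl⟩)
    exact ⟨v, hj' (by rw [← hv]; exact ht v)⟩

theorem infBricks_of_corner {k : Type u} [Field k] {A B : Type u} [Ring A] [Algebra k A] [Module.Finite k A]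
    [Ring B] [Algebra k B] (φ : B →ₗ[k] A) (hmul : ∀ x y, φ (x * y) = φ x * φ y)
    (hinj : Function.Injective φ) (hcorner : ∀ a : A, ∃ b : B, φ b = φ 1 * a * φ 1)
    (d : ℕ) (h : InfBricks k B d) : ∃ d' ≤ finrank k A * d, InfBricks k A d' := by
  by_contra hcon
  push Not at hcon
  obtain ⟨L, hL⟩ := exists_cov (finrank k A * d) hcon
  obtain ⟨N, hN1, hN2⟩ := h
  have h1 := fun n => e2_step φ hmul hinj hcorner d L hL (N n) (hN1 n)
  choose r j hj1 hj2 hj3 using h1
  have hfin : Finite {r : Rp k A // r ∈ L} := List.finite_toSet L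
  have key : ∀ m n, r m = r n → Nonempty (Vm (N m) ≃ₗ[B] Vm (N n)) := by
    intro m n hmn
    have q : ∃ j' : Vm (N m) →+ Vm (r n).1.2, Function.Injective j' ∧
        (∀ (b : B) (v : Vm (N m)), j' (b • v) = φ b • j' v) ∧
        ∀ x : Vm (r n).1.2, φ 1 • x = x ↔ ∃ v, j' v = x := by
      rw [← hmn]
      exact ⟨j m, hj1 m, hj2 m, hj3 m⟩
    obtain ⟨j', q1, q2, q3⟩ := q
    exact e2_glue φ (N m) (N n) j' (j n) q1 (hj1 n) q2 (hj2 n) q3 (hj3 n)
  obtain ⟨m, n, hmn, hr⟩ := Finite.exists_ne_map_eq_of_infinite r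
  rcases lt_or_gt_of_ne hmn with hlt | hgt
  · exact (not_isEmpty_iff.2 (key m n hr)) (hN2 m n hlt)
  · exact (not_isEmpty_iff.2 (key n m hr.symm)) (hN2 n m hgt)

private theorem e2_hom {k : Type u} [Field k] {A A' : Type u} [Ring A] [Algebra k A]
    [Ring A'] [Algebra k A'] (π : A →ₐ[k] A') (hπ : Function.Surjective π) {d : ℕ}
    (ρ ρ' : A' →ₐ[k] Module.End k (Fin d → k)) (h : Vm (ρ.comp π) →ₗ[A] Vm (ρ'.comp π)) :
    ∃ g : Vm ρ →ₗ[A'] Vm ρ', ∀ v : Fin d → k, (g : (Fin d → k) → (Fin d → k)) v =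
      (h : (Fin d → k) → (Fin d → k)) v := by
  refine ⟨{ toFun := (h : (Fin d → k) → (Fin d → k)), map_add' := h.map_add, map_smul' := ?_ },
    fun v => rfl⟩
  intro a' v
  obtain ⟨a, rfl⟩ := hπ a'
  exact h.map_smul a v

theorem infBricks_of_quot {k : Type u} [Field k] {A A' : Type u} [Ring A] [Algebra k A]
    [Ring A'] [Algebra k A'] (π : A →ₐ[k] A') (hπ : Function.Surjective π) (d : ℕ)
    (h : InfBricks k A' d) : InfBricks k A d := by
  obtain ⟨B, hB1, hB2⟩ := h
  refine ⟨fun n => (B n).comp π, ?_, ?_⟩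
  · intro n
    refine ⟨(hB1 n).1, ?_⟩
    intro f hf
    obtain ⟨g, hg⟩ := e2_hom π hπ (B n) (B n) f
    have hg0 : g ≠ 0 := by
      intro h0
      apply hf
      apply LinearMap.ext
      intro v
      have h1 := hg v
      rw [h0] at h1
      exact h1.symm
    have h2 := (hB1 n).2 g hg0
    have h3 : (g : (Fin d → k) → (Fin d → k)) = (f : (Fin d → k) → (Fin d → k)) := funext hg
    have h4 : Function.Bijective (g : (Fin d → k) → (Fin d → k)) := h2
    rw [h3] at h4
    exact h4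
  · intro m n hmn
    refine ⟨fun e => ?_⟩
    obtain ⟨g, hg⟩ := e2_hom π hπ (B m) (B n) e.toLinearMap
    have h3 : (g : (Fin d → k) → (Fin d → k)) = (e : (Fin d → k) → (Fin d → k)) := funext hg
    have h4 : Function.Bijective (e : (Fin d → k) → (Fin d → k)) := e.bijective
    rw [← h3] at h4
    exact (hB2 m n hmn).false (LinearEquiv.ofBijective g h4)

end TB10
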