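import Pool.Agent.LibTB10.Defs
/-!
ROW [TB10 P2]. (only Mathlib) additivity of finrank Hom(P,.) for projective P, and the type splitting.
PLAN. hom_add: P projective, N ≤ X: finrank Hom(P,X) = finrank Hom(P,N) + finrank Hom(P,X ⧸ N): the k-linear maps
(N.subtype ∘ ·) injective and (mkQ ∘ ·) surjective (projective lifting) with kernel = range
(`LinearMap.finrank_range_add_finrank_ker` and the equivalence of the kernel with Hom(P,N)).
ty_of_simple: P₀, Q projective, finite over k.  Suppose every simple S (finite-dimensional over k) satisfies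
finrank Hom(Q,S) = a * finrank Hom(P₀,S).  Then Ty k A P₀ Q a.  Strong induction on finrank k X: X subsingleton: both 0.
Otherwise X has a simple submodule N (`IsAtomic`/ minimal nonzero submodule: X is artinian over A; choose a nonzero submodule of
minimal finrank k: its submodules are ⊥ or itself → IsSimpleModule), X ⧸ N has smaller finrank; hom_add twice.
-/
set_option autoImplicit false
universe u
namespace TB10
open Module

/-- `s ↦ g ∘ s` as a `k`-linear map -/
private def p2_post (k : Type u) [Field k] {A : Type u} [Ring A] [Algebra k A]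
    (P : Type u) {X Y : Type u} [AddCommGroup P] [Module A P]
    [AddCommGroup X] [Module A X] [Module k X] [IsScalarTower k A X]
    [AddCommGroup Y] [Module A Y] [Module k Y] [IsScalarTower k A Y] (g : X →ₗ[A] Y) :
    (P →ₗ[A] X) →ₗ[k] (P →ₗ[A] Y) where
  toFun s := g ∘ₗ s
  map_add' s t := by
    ext p
    simp
  map_smul' c s := by
    ext p
    have h : g (c • (s p)) = c • g (s p) := by
      rw [← algebraMap_smul A c (s p), map_smul, algebraMap_smul]
    simp [h]

section
variable {k : Type u} [Field k] {A : Type u} [Ring A] [Algebra k A]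
    {P₀ : Type u} [AddCommGroup P₀] [Module A P₀] [Module k P₀] [IsScalarTower k A P₀] [Module.Finite k P₀]
    [Module.Projective A P₀]
    {Q : Type u} [AddCommGroup Q] [Module A Q] [Module k Q] [IsScalarTower k A Q] [Module.Finite k Q]
    [Module.Projective A Q]

theorem hom_add {X : Type u} [AddCommGroup X] [Module A X] [Module k X] [IsScalarTower k A X]
    [Module.Finite k X] (N : Submodule A X) :
    finrank k (P₀ →ₗ[A] X) = finrank k (P₀ →ₗ[A] N) + finrank k (P₀ →ₗ[A] (X ⧸ N)) := by
  let α : (P₀ →ₗ[A] N) →ₗ[k] (P₀ →ₗ[A] X) := p2_post k P₀ N.subtype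
  let β : (P₀ →ₗ[A] X) →ₗ[k] (P₀ →ₗ[A] (X ⧸ N)) := p2_post k P₀ N.mkQ
  have hα : Function.Injective α := by
    intro s t hst
    ext p
    exact LinearMap.congr_fun hst p
  have hβ : LinearMap.range β = ⊤ := by
    rw [LinearMap.range_eq_top]
    intro f
    obtain ⟨h, hh⟩ := Module.projective_lifting_property N.mkQ f N.mkQ_surjective
    exact ⟨h, hh⟩
  have hker : LinearMap.ker β = LinearMap.range α := by
    ext h
    constructor
    · intro hh
      have h1 : ∀ p, h p ∈ N := by
        intro p
        have h2 : N.mkQ (h p) = 0 := LinearMap.congr_fun (LinearMap.mem_ker.1 hh) p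
        rwa [Submodule.mkQ_apply, Submodule.Quotient.mk_eq_zero] at h2
      refine ⟨LinearMap.codRestrict N h h1, ?_⟩
      ext p
      rfl
    · rintro ⟨s, rfl⟩
      rw [LinearMap.mem_ker]
      ext p
      change N.mkQ (s p : X) = 0
      rw [Submodule.mkQ_apply, Submodule.Quotient.mk_eq_zero]
      exact (s p).2
  have h1 := LinearMap.finrank_range_add_finrank_ker β
  rw [hβ, finrank_top, hker, LinearMap.finrank_range_of_inj hα] at h1
  omega

theorem exists_simple_sub {X : Type u} [AddCommGroup X] [Module A X] [Module k X] [IsScalarTower k A X]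
    [Module.Finite k X] [Nontrivial X] : ∃ N : Submodule A X, IsSimpleModule A N := by
  have h1 : IsArtinian k X := inferInstance
  have h2 : IsArtinian A X := isArtinian_of_tower k h1
  obtain ⟨N, hN⟩ := IsAtomic.exists_atom (Submodule A X)
  exact ⟨N, isSimpleModule_iff_isAtom.2 hN⟩

theorem ty_of_simple (a : ℕ)
    (h : ∀ (S : Type u) [AddCommGroup S] [Module A S] [Module k S] [IsScalarTower k A S] [Module.Finite k S]
      [IsSimpleModule A S], finrank k (Q →ₗ[A] S) = a * finrank k (P₀ →ₗ[A] S)) : Ty k A P₀ Q a := by
  have key : ∀ (n : ℕ) (X : Type u) [AddCommGroup X] [Module A X] [Module k X] [IsScalarTower k A X]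
      [Module.Finite k X], finrank k X = n →
      finrank k (Q →ₗ[A] X) = a * finrank k (P₀ →ₗ[A] X) := by
    intro n
    induction n using Nat.strong_induction_on with
    | _ n ih =>
      intro X _ _ _ _ _ hn
      rcases subsingleton_or_nontrivial X with hX | hX
      · rw [finrank_zero_of_subsingleton, finrank_zero_of_subsingleton, mul_zero]
      · obtain ⟨N, hN⟩ := exists_simple_sub (k := k) (A := A) (X := X)
        have hNn : Nontrivial N := IsSimpleModule.nontrivial A N
        have h1 : 0 < finrank k N := finrank_pos
        have h2 := Submodule.finrank_quotient_add_finrank (N.restrictScalars k)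
        have h3 : finrank k (X ⧸ N.restrictScalars k) = finrank k (X ⧸ N) :=
          (Submodule.Quotient.restrictScalarsEquiv k N).finrank_eq
        have h4 : finrank k ↥(N.restrictScalars k) = finrank k N := rfl
        have h5 : finrank k (X ⧸ N) < n := by omega
        rw [hom_add (P₀ := Q) N, hom_add (P₀ := P₀) N, h N, ih _ h5 (X ⧸ N) rfl]
        ring
  intro X _ _ _ _ _
  exact key _ X rfl

end

end TB10
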