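import Pool.Agent.LibTB10.P1
import Pool.Agent.LibTB10.P2
/-!
ROW [TB10 P3]. (cite P1, P2) the two projectives of an algebra with two simple modules form a TwoP; generation by P₁.
-/
set_option autoImplicit false
universe u
namespace TB10
open Module

/-- data of an algebra with two simple modules `S₁`, `S₂` and their projective covers. -/
structure TwoS (k A S₁ S₂ P₁ P₂ : Type u) [Field k] [Ring A] [Algebra k A]
    [AddCommGroup S₁] [Module A S₁] [Module k S₁] [IsScalarTower k A S₁]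
    [AddCommGroup S₂] [Module A S₂] [Module k S₂] [IsScalarTower k A S₂]
    [AddCommGroup P₁] [Module A P₁] [AddCommGroup P₂] [Module A P₂] : Prop where
  all : ∀ (S : Type u) [AddCommGroup S] [Module A S] [IsSimpleModule A S],
    Nonempty (S ≃ₗ[A] S₁) ∨ Nonempty (S ≃ₗ[A] S₂)
  h11 : finrank k (P₁ →ₗ[A] S₁) = 1
  h22 : finrank k (P₂ →ₗ[A] S₂) = 1
  h12 : ∀ h : P₁ →ₗ[A] S₂, h = 0
  h21 : ∀ h : P₂ →ₗ[A] S₁, h = 0

section aux
variable {k : Type u} [Field k] {A : Type u} [Ring A] [Algebra k A]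

/-- postcomposition with an isomorphism -/
def p3_homCongr (k : Type u) [Field k] {A : Type u} [Ring A] [Algebra k A]
    (P : Type u) [AddCommGroup P] [Module A P]
    {S S' : Type u} [AddCommGroup S] [Module A S] [Module k S] [IsScalarTower k A S]
    [AddCommGroup S'] [Module A S'] [Module k S'] [IsScalarTower k A S'] (e : S ≃ₗ[A] S') :
    (P →ₗ[A] S) ≃ₗ[k] (P →ₗ[A] S') where
  toFun h := e.toLinearMap ∘ₗ h
  invFun h := e.symm.toLinearMap ∘ₗ h
  map_add' x y := by
    ext p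
    simp
  map_smul' c x := by
    ext p
    have h : e (c • (x p)) = c • e (x p) := by
      rw [← algebraMap_smul A c (x p), map_smul, algebraMap_smul]
    simpa using h
  left_inv h := by
    ext p
    simp
  right_inv h := by
    ext p
    simp

theorem p3_finrank_congr (P : Type u) [AddCommGroup P] [Module A P]
    {S S' : Type u} [AddCommGroup S] [Module A S] [Module k S] [IsScalarTower k A S]
    [AddCommGroup S'] [Module A S'] [Module k S'] [IsScalarTower k A S'] (e : S ≃ₗ[A] S') :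
    finrank k (P →ₗ[A] S) = finrank k (P →ₗ[A] S') :=
  (p3_homCongr k P e).finrank_eq

theorem p3_exists_ne {P S : Type u} [AddCommGroup P] [Module A P] [AddCommGroup S] [Module A S] [Module k S]
    [IsScalarTower k A S] (h : finrank k (P →ₗ[A] S) = 1) : ∃ p : P →ₗ[A] S, p ≠ 0 := by
  haveI : Nontrivial (P →ₗ[A] S) := Module.nontrivial_of_finrank_pos (R := k) (by omega)
  exact exists_ne 0

/-- restriction to the two summands. -/
def p3_res (k : Type u) [Field k] {A : Type u} [Ring A] [Algebra k A]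
    {Q : Type u} [AddCommGroup Q] [Module A Q] (Q' Q'' : Submodule A Q)
    (X : Type u) [AddCommGroup X] [Module A X] [Module k X] [IsScalarTower k A X] :
    (Q →ₗ[A] X) →ₗ[k] (Q' →ₗ[A] X) × (Q'' →ₗ[A] X) where
  toFun h := (h ∘ₗ Q'.subtype, h ∘ₗ Q''.subtype)
  map_add' _ _ := rfl
  map_smul' _ _ := rfl

theorem p3_finrank_split {Q : Type u} [AddCommGroup Q] [Module A Q] [Module k Q] [IsScalarTower k A Q]
    [Module.Finite k Q] (Q' Q'' : Submodule A Q) (hc : IsCompl Q' Q'')
    (X : Type u) [AddCommGroup X] [Module A X] [Module k X] [IsScalarTower k A X] [Module.Finite k X] :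
    finrank k (Q →ₗ[A] X) = finrank k (Q' →ₗ[A] X) + finrank k (Q'' →ₗ[A] X) := by
  have hb : Function.Bijective (p3_res k Q' Q'' X) := by
    constructor
    · intro f g hfg
      have h1 : f ∘ₗ Q'.subtype = g ∘ₗ Q'.subtype := congrArg Prod.fst hfg
      have h2 : f ∘ₗ Q''.subtype = g ∘ₗ Q''.subtype := congrArg Prod.snd hfg
      ext x
      have hx : x ∈ Q' ⊔ Q'' := by rw [hc.sup_eq_top]; trivial
      obtain ⟨y, hy, z, hz, rfl⟩ := Submodule.mem_sup.mp hx
      have e1 := LinearMap.congr_fun h1 ⟨y, hy⟩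
      have e2 := LinearMap.congr_fun h2 ⟨z, hz⟩
      simp only [LinearMap.comp_apply, Submodule.subtype_apply] at e1 e2
      rw [map_add, map_add, e1, e2]
    · rintro ⟨u, v⟩
      refine ⟨u ∘ₗ Q'.projectionOnto Q'' hc + v ∘ₗ Q''.projectionOnto Q' hc.symm, ?_⟩
      apply Prod.ext
      · ext x
        change u (Q'.projectionOnto Q'' hc x) + v (Q''.projectionOnto Q' hc.symm x) = u x
        rw [Submodule.projectionOnto_apply_left, Submodule.projectionOnto_apply_right, map_zero, add_zero]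
      · ext x
        change u (Q'.projectionOnto Q'' hc x) + v (Q''.projectionOnto Q' hc.symm x) = v x
        rw [Submodule.projectionOnto_apply_left, Submodule.projectionOnto_apply_right, map_zero, zero_add]
  rw [(LinearEquiv.ofBijective _ hb).finrank_eq, Module.finrank_prod]

theorem p3_proj {Q : Type u} [AddCommGroup Q] [Module A Q] [Module.Projective A Q]
    {Q' Q'' : Submodule A Q} (h : IsCompl Q' Q'') : Module.Projective A Q' :=
  Module.Projective.of_split Q'.subtype (Q'.projectionOnto Q'' h) (by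
    ext x; simp)

theorem p3_split {S₁ : Type u} [AddCommGroup S₁] [Module A S₁] [Module k S₁] [IsScalarTower k A S₁]
    [Module.Finite k S₁]
    {S₂ : Type u} [AddCommGroup S₂] [Module A S₂] [Module k S₂] [IsScalarTower k A S₂] [Module.Finite k S₂]
    {P₁ : Type u} [AddCommGroup P₁] [Module A P₁] [Module k P₁] [IsScalarTower k A P₁] [Module.Finite k P₁]
    [Module.Projective A P₁]
    (hall : ∀ (S : Type u) [AddCommGroup S] [Module A S] [IsSimpleModule A S],
      Nonempty (S ≃ₗ[A] S₁) ∨ Nonempty (S ≃ₗ[A] S₂))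
    (h11 : finrank k (P₁ →ₗ[A] S₁) = 1) (h12 : ∀ h : P₁ →ₗ[A] S₂, h = 0)
    (Q : Type u) [AddCommGroup Q] [Module A Q] [Module k Q] [IsScalarTower k A Q]
    [Module.Finite k Q] [Module.Projective A Q] (Q' Q'' : Submodule A Q) (a : ℕ)
    (hc : IsCompl Q' Q'') (hT : Ty k A P₁ Q a) :
    ∃ a' a'' : ℕ, a' + a'' = a ∧ Ty k A P₁ Q' a' ∧ Ty k A P₁ Q'' a'' := by
  have h0 : finrank k (P₁ →ₗ[A] S₂) = 0 := by
    rw [Module.finrank_zero_iff]
    exact ⟨fun x y => by rw [h12 x, h12 y]⟩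
  have hz := p3_finrank_split (k := k) Q' Q'' hc S₂
  rw [hT S₂, h0, mul_zero] at hz
  -- type of a summand
  have hty : ∀ (R R' : Submodule A Q), IsCompl R R' → finrank k (R →ₗ[A] S₂) = 0 →
      Ty k A P₁ R (finrank k (R →ₗ[A] S₁)) := by
    intro R R' hR hR0
    haveI := p3_proj (A := A) hR
    apply ty_of_simple
    intro S _ _ _ _ _ _
    rcases hall S with ⟨⟨e⟩⟩ | ⟨⟨e⟩⟩
    · rw [p3_finrank_congr R e, p3_finrank_congr P₁ e, h11, mul_one]
    · rw [p3_finrank_congr R e, p3_finrank_congr P₁ e, h0, hR0, mul_zero]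
  refine ⟨finrank k (Q' →ₗ[A] S₁), finrank k (Q'' →ₗ[A] S₁), ?_, hty Q' Q'' hc (by omega),
    hty Q'' Q' hc.symm (by omega)⟩
  rw [← p3_finrank_split (k := k) Q' Q'' hc S₁, hT S₁, h11, mul_one]

end aux

section
variable {k : Type u} [Field k] {A : Type u} [Ring A] [Algebra k A]
    {S₁ : Type u} [AddCommGroup S₁] [Module A S₁] [Module k S₁] [IsScalarTower k A S₁] [Module.Finite k S₁]
    {S₂ : Type u} [AddCommGroup S₂] [Module A S₂] [Module k S₂] [IsScalarTower k A S₂] [Module.Finite k S₂]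
    {P₁ : Type u} [AddCommGroup P₁] [Module A P₁] [Module k P₁] [IsScalarTower k A P₁] [Module.Finite k P₁]
    [Module.Projective A P₁]
    {P₂ : Type u} [AddCommGroup P₂] [Module A P₂] [Module k P₂] [IsScalarTower k A P₂] [Module.Finite k P₂]
    [Module.Projective A P₂]

theorem twoP_of_twoS (h : TwoS k A S₁ S₂ P₁ P₂) : TwoP k A P₁ P₂ := by
  refine ⟨?_, ?_, ?_⟩
  · intro X _ _ _ _ _ h1 h2
    by_contra hns
    haveI : Nontrivial X := not_subsingleton_iff_nontrivial.mp hns
    obtain ⟨N, hN⟩ := exists_simple_sub (k := k) (A := A) (X := X)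
    rcases h.all N with ⟨⟨e⟩⟩ | ⟨⟨e⟩⟩
    · obtain ⟨p, hp⟩ := p3_exists_ne h.h11
      apply hp
      have h3 := h1 (N.subtype ∘ₗ e.symm.toLinearMap ∘ₗ p)
      ext x
      have h4 := LinearMap.congr_fun h3 x
      simp only [LinearMap.comp_apply, Submodule.subtype_apply, LinearMap.zero_apply,
        LinearEquiv.coe_coe, ZeroMemClass.coe_eq_zero, map_eq_zero_iff, EmbeddingLike.map_eq_zero_iff] at h4
      rw [h4]; rfl
    · obtain ⟨p, hp⟩ := p3_exists_ne h.h22
      apply hp
      have h3 := h2 (N.subtype ∘ₗ e.symm.toLinearMap ∘ₗ p)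
      ext x
      have h4 := LinearMap.congr_fun h3 x
      simp only [LinearMap.comp_apply, Submodule.subtype_apply, LinearMap.zero_apply,
        LinearEquiv.coe_coe, ZeroMemClass.coe_eq_zero, map_eq_zero_iff, EmbeddingLike.map_eq_zero_iff] at h4
      rw [h4]; rfl
  · intro Q _ _ _ _ _ _ Q' Q'' a hc hT
    exact p3_split h.all h.h11 h.h12 Q Q' Q'' a hc hT
  · intro Q _ _ _ _ _ _ Q' Q'' a hc hT
    exact p3_split (fun S _ _ _ => (h.all S).symm) h.h22 h.h21 Q Q' Q'' a hc hT

theorem gen_P1 (h : TwoS k A S₁ S₂ P₁ P₂) (X : Type u) [AddCommGroup X] [Module A X] [Module k X]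
    [IsScalarTower k A X] [Module.Finite k X] (hX : ∀ θ : X →ₗ[A] S₂, θ = 0) : Gen A P₁ X := by
  haveI : IsNoetherian A X := isNoetherian_of_tower k (inferInstance : IsNoetherian k X)
  rcases eq_top_or_exists_le_coatom (tr A P₁ X) with ht | ⟨m, hm, htm⟩
  · exact ht
  · exfalso
    haveI : IsSimpleModule A (X ⧸ m) := isSimpleModule_iff_isCoatom.mpr hm
    rcases h.all (X ⧸ m) with ⟨⟨e⟩⟩ | ⟨⟨e⟩⟩
    · obtain ⟨p, hp⟩ := p3_exists_ne h.h11
      obtain ⟨q, hq⟩ := Module.projective_lifting_property m.mkQ (e.symm.toLinearMap ∘ₗ p) m.mkQ_surjective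
      apply hp
      ext x
      have h1 := LinearMap.congr_fun hq x
      have h2 : q x ∈ m := htm ((le_iSup (fun θ : P₁ →ₗ[A] X => LinearMap.range θ) q) ⟨x, rfl⟩)
      rw [LinearMap.comp_apply, Submodule.mkQ_apply, (Submodule.Quotient.mk_eq_zero m).mpr h2] at h1
      have h3 : e.symm (p x) = 0 := h1.symm
      rw [LinearMap.zero_apply]
      exact (e.symm.map_eq_zero_iff).mp h3
    · have h1 := hX (e.toLinearMap ∘ₗ m.mkQ)
      apply hm.1
      rw [eq_top_iff]
      intro x _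
      have h2 := LinearMap.congr_fun h1 x
      have h3 : e (m.mkQ x) = 0 := h2
      have h4 : m.mkQ x = 0 := (e.map_eq_zero_iff).mp h3
      exact (Submodule.Quotient.mk_eq_zero m).mp h4

omit [Module k S₁] [IsScalarTower k A S₁] [Module.Finite k S₁] [Module k S₂] [IsScalarTower k A S₂] [Module.Finite k S₂] in
/-- a brick with a quotient and a submodule `S` is `S`. -/
theorem p3_brick {X : Type u} [AddCommGroup X] [Module A X] (hX : IsBrick A X) [IsSimpleModule A S₁]
    [IsSimpleModule A S₂]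
    (hne : IsEmpty (S₁ ≃ₗ[A] S₂)) (N : Submodule A X) (hN : IsSimpleModule A N) (e : N ≃ₗ[A] S₁)
    (θ₁ : X →ₗ[A] S₁) (h1 : θ₁ ≠ 0) (θ₂ : X →ₗ[A] S₂) : θ₂ = 0 := by
  have hs : Function.Surjective θ₁ := LinearMap.surjective_of_ne_zero h1
  have hb : Function.Bijective (N.subtype ∘ₗ e.symm.toLinearMap ∘ₗ θ₁) := by
    apply hX.2
    intro h0
    apply h1
    ext x
    have h4 := LinearMap.congr_fun h0 x
    have h5 : ((e.symm (θ₁ x) : N) : X) = 0 := h4
    have h6 : e.symm (θ₁ x) = 0 := by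
      exact_mod_cast h5
    exact (e.symm.map_eq_zero_iff).mp h6
  have hi : Function.Injective θ₁ := by
    intro x y hxy
    apply hb.1
    change ((e.symm (θ₁ x) : N) : X) = ((e.symm (θ₁ y) : N) : X)
    rw [hxy]
  let f := LinearEquiv.ofBijective θ₁ ⟨hi, hs⟩
  by_contra h2
  have hne0 : θ₂ ∘ₗ f.symm.toLinearMap ≠ 0 := by
    intro h0
    apply h2
    ext x
    have := LinearMap.congr_fun h0 (f x)
    simpa using this
  exact hne.false (LinearEquiv.ofBijective _ (LinearMap.bijective_of_ne_zero hne0))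

/-- a brick has no quotient `S₁` or no quotient `S₂` -/
theorem brick_top (h : TwoS k A S₁ S₂ P₁ P₂) [IsSimpleModule A S₁] [IsSimpleModule A S₂]
    (hne : IsEmpty (S₁ ≃ₗ[A] S₂)) (X : Type u) [AddCommGroup X] [Module A X] [Module k X]
    [IsScalarTower k A X] [Module.Finite k X] (hX : IsBrick A X) :
    (∀ θ : X →ₗ[A] S₂, θ = 0) ∨ (∀ θ : X →ₗ[A] S₁, θ = 0) := by
  haveI := hX.1
  obtain ⟨N, hN⟩ := exists_simple_sub (k := k) (A := A) (X := X)
  by_contra hcon
  push Not at hcon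
  obtain ⟨⟨θ₂, h2⟩, ⟨θ₁, h1⟩⟩ := hcon
  rcases h.all N with ⟨⟨e⟩⟩ | ⟨⟨e⟩⟩
  · exact h2 (p3_brick hX hne N hN e θ₁ h1 θ₂)
  · exact h1 (p3_brick hX ⟨fun f => hne.false f.symm⟩ N hN e θ₂ h2 θ₁)

end

end TB10
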