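import Pool.Agent.LibTB10.I1
import Pool.Agent.LibTB10.R1
import Pool.Agent.LibTB10.P3
import Pool.Agent.LibTB10.E2
/-!
Final assembly of board TB10 (helper10).
-/
set_option autoImplicit false
universe u
namespace TB10
open Module

section
variable {k : Type u} [Field k] {A : Type u} [Ring A] [Algebra k A]

theorem TwoS.symm {S₁ S₂ P₁ P₂ : Type u}
    [AddCommGroup S₁] [Module A S₁] [Module k S₁] [IsScalarTower k A S₁]
    [AddCommGroup S₂] [Module A S₂] [Module k S₂] [IsScalarTower k A S₂]
    [AddCommGroup P₁] [Module A P₁] [AddCommGroup P₂] [Module A P₂]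
    (h : TwoS k A S₁ S₂ P₁ P₂) : TwoS k A S₂ S₁ P₂ P₁ where
  all S _ _ _ := (h.all S).symm
  h11 := h.h22
  h22 := h.h11
  h12 := h.h21
  h21 := h.h12

/-- `dim Hom(P,X) ≤ dim X` if this holds for simple modules -/
theorem hom_le_finrank {P₀ : Type u} [AddCommGroup P₀] [Module A P₀] [Module k P₀] [IsScalarTower k A P₀]
    [Module.Finite k P₀] [Module.Projective A P₀]
    (h : ∀ (S : Type u) [AddCommGroup S] [Module A S] [Module k S] [IsScalarTower k A S] [Module.Finite k S]
      [IsSimpleModule A S], finrank k (P₀ →ₗ[A] S) ≤ finrank k S) :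
    ∀ (n : ℕ) (X : Type u) [AddCommGroup X] [Module A X] [Module k X] [IsScalarTower k A X] [Module.Finite k X],
      finrank k X ≤ n → finrank k (P₀ →ₗ[A] X) ≤ finrank k X := by
  intro n
  induction n with
  | zero =>
    intro X _ _ _ _ _ hX
    have hs : Subsingleton X := Module.finrank_zero_iff.mp (Nat.le_zero.mp hX)
    have : Subsingleton (P₀ →ₗ[A] X) := ⟨fun a b => LinearMap.ext fun p => Subsingleton.elim _ _⟩
    rw [Module.finrank_zero_iff.mpr this]
    exact Nat.zero_le _
  | succ n ih =>
    intro X _ _ _ _ _ hX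
    rcases subsingleton_or_nontrivial X with hs | hs
    · have : Subsingleton (P₀ →ₗ[A] X) := ⟨fun a b => LinearMap.ext fun p => Subsingleton.elim _ _⟩
      rw [Module.finrank_zero_iff.mpr this]
      exact Nat.zero_le _
    · obtain ⟨N, hN⟩ := exists_simple_sub (k := k) (A := A) (X := X)
      have h1 := hom_add (k := k) (P₀ := P₀) N
      have h2 : finrank k (X ⧸ N) + finrank k N = finrank k X := by
        have := Submodule.finrank_quotient_add_finrank (N.restrictScalars k)
        exact this
      have hNpos : 0 < finrank k N := by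
        have : Nontrivial N := IsSimpleModule.nontrivial A N
        exact Module.finrank_pos
      have h3 := h N
      have h4 := ih (X ⧸ N) (by omega)
      omega

theorem gen_of_surj_left {M M' X : Type u} [AddCommGroup M] [Module A M] [AddCommGroup M'] [Module A M']
    [AddCommGroup X] [Module A X] (s : M' →ₗ[A] M) (hs : Function.Surjective s) (h : Gen A M X) :
    Gen A M' X := by
  unfold Gen tr at *
  rw [eq_top_iff, ← h]
  refine iSup_le fun θ => ?_
  refine le_trans ?_ (le_iSup _ (θ ∘ₗ s))
  rw [LinearMap.range_comp_of_range_eq_top _ (LinearMap.range_eq_top.mpr hs)]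

end

section
variable (k : Type u) [Field k] {A : Type u} [Ring A] [Algebra k A]

/-- the presentation `0 → P` -/
abbrev presIn (P : Type u) [AddCommGroup P] [Module A P] [Module k P] [IsScalarTower k A P]
    [Module.Finite k P] [Module.Projective A P] : Pres k A where
  P := PUnit.{u+1}
  Q := P
  f := 0

/-- the presentation `P → 0` -/
abbrev presOut (P : Type u) [AddCommGroup P] [Module A P] [Module k P] [IsScalarTower k A P]
    [Module.Finite k P] [Module.Projective A P] : Pres k A where
  P := P
  Q := PUnit.{u+1}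
  f := 0

end

section
variable {k : Type u} [Field k] {A : Type u} [Ring A] [Algebra k A]

theorem ty_self (P : Type u) [AddCommGroup P] [Module A P] : Ty k A P P 1 := by
  intro X _ _ _ _ _
  rw [one_mul]

theorem ty_punit (P : Type u) [AddCommGroup P] [Module A P] : Ty k A P PUnit.{u+1} 0 := by
  intro X _ _ _ _ _
  have : Subsingleton (PUnit.{u+1} →ₗ[A] X) := ⟨fun a b => LinearMap.ext fun p => by
    have : p = 0 := Subsingleton.elim _ _
    rw [this, map_zero, map_zero]⟩
  rw [Module.finrank_zero_iff.mpr this, zero_mul]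

/-- one quadrant -/
theorem quadrant [Infinite k] [Module.Finite k A]
    {S₁ : Type u} [AddCommGroup S₁] [Module A S₁] [Module k S₁] [IsScalarTower k A S₁] [Module.Finite k S₁]
    {S₂ : Type u} [AddCommGroup S₂] [Module A S₂] [Module k S₂] [IsScalarTower k A S₂] [Module.Finite k S₂]
    [IsSimpleModule A S₁] [IsSimpleModule A S₂]
    {P₁ : Type u} [AddCommGroup P₁] [Module A P₁] [Module k P₁] [IsScalarTower k A P₁] [Module.Finite k P₁]
    [Module.Projective A P₁]
    {P₂ : Type u} [AddCommGroup P₂] [Module A P₂] [Module k P₂] [IsScalarTower k A P₂] [Module.Finite k P₂]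
    [Module.Projective A P₂] (h : TwoS k A S₁ S₂ P₁ P₂) (hP₁ : finrank k P₁ ≤ finrank k A)
    (L₀ : List (Rp k A)) (hL₀ : Cov k A (2 ^ finrank k A * finrank k A) L₀) :
    ∃ L : List (Rp k A), ∀ (X : Type u) [AddCommGroup X] [Module A X] [Module k X] [IsScalarTower k A X]
      [Module.Finite k X], IsBrick A X → (∀ θ : X →ₗ[A] S₂, θ = 0) → ∃ r ∈ L, Nonempty (X ≃ₗ[A] Vm r.2) := by
  have hT := twoP_of_twoS h
  have hbound : ∀ (X : Type u) [AddCommGroup X] [Module A X] [Module k X] [IsScalarTower k A X]
      [Module.Finite k X], finrank k (P₂ →ₗ[A] X) ≤ finrank k X := by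
    intro X _ _ _ _ _
    refine hom_le_finrank (k := k) (A := A) ?_ (finrank k X) X le_rfl
    intro S _ _ _ _ _ _
    have hnt : Nontrivial S := IsSimpleModule.nontrivial A S
    have hpos : 0 < finrank k S := Module.finrank_pos
    rcases h.all S with ⟨⟨e⟩⟩ | ⟨⟨e⟩⟩
    · have : Subsingleton (P₂ →ₗ[A] S) := ⟨fun a b => by
        have ha : ∀ c : P₂ →ₗ[A] S, c = 0 := fun c => by
          have := h.h21 (e.toLinearMap ∘ₗ c)
          ext p
          have h5 := LinearMap.congr_fun this p
          simp only [LinearMap.comp_apply, LinearMap.zero_apply, LinearEquiv.coe_coe] at h5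
          simpa using h5
        rw [ha a, ha b]⟩
      rw [Module.finrank_zero_iff.mpr this]
      exact Nat.zero_le _
    · have e' : (P₂ →ₗ[A] S) ≃ₗ[k] (P₂ →ₗ[A] S₂) :=
        { toFun := fun c => e.toLinearMap ∘ₗ c
          invFun := fun c => e.symm.toLinearMap ∘ₗ c
          left_inv := fun c => by ext p; simp
          right_inv := fun c => by ext p; simp
          map_add' := fun c c' => by ext p; simp
          map_smul' := fun t c => by
            ext p
            simp only [LinearMap.comp_apply, LinearMap.smul_apply, LinearEquiv.coe_coe, RingHom.id_apply]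
            rw [← algebraMap_smul A t (c p), map_smul, algebraMap_smul] }
      rw [e'.finrank_eq, h.h22]
      exact hpos
  have hee : ee k (presOut (A := A) k P₂).f (presIn (A := A) k P₁).f ≤ finrank k A := by
    unfold ee
    refine le_trans (Submodule.finrank_quotient_le _) ?_
    exact le_trans (hbound P₁) hP₁
  have hD : Det1 P₁ P₂ (presIn (A := A) k P₁) (presOut (A := A) k P₂) :=
    ⟨1, 0, 0, 1, ty_self P₁, ty_punit P₂, ty_punit P₁, ty_self P₂, by norm_num⟩
  have hr1 : Rigid (presIn (A := A) k P₁).f := by
    intro x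
    refine ⟨0, 0, ?_⟩
    refine LinearMap.ext fun p => ?_
    have hp : p = 0 := Subsingleton.elim _ _
    rw [hp, map_zero, map_zero]
  have hr2 : Rigid (presOut (A := A) k P₂).f := by
    intro x
    refine ⟨0, 0, ?_⟩
    refine LinearMap.ext fun p => ?_
    exact Subsingleton.elim _ _
  have hEE : EE (presIn (A := A) k P₁).f (presOut (A := A) k P₂).f := by
    intro x
    refine ⟨0, 0, ?_⟩
    refine LinearMap.ext fun p => ?_
    exact Subsingleton.elim _ _
  obtain ⟨L, -, hL⟩ := interval_finite hT (2 ^ finrank k A * finrank k A) L₀ hL₀ (finrank k A)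
    (presIn (A := A) k P₁) (presOut (A := A) k P₂) hr1 hr2 hEE hD hee (by
      refine Nat.mul_le_mul_left _ ?_
      have : finrank k (presOut (A := A) k P₂).Q = 0 := Module.finrank_zero_of_subsingleton
      rw [this, add_zero]
      exact hP₁)
  refine ⟨L, ?_⟩
  intro X _ _ _ _ _ hX hXS
  refine hL X hX ?_ ?_
  · have hg := gen_P1 h X hXS
    refine gen_of_surj_left (M := P₁) ((Submodule.quotEquivOfEqBot _ (by
      exact LinearMap.range_zero)).toLinearMap) (LinearEquiv.surjective _) hg
  · intro hg
    have : Nontrivial X := hX.1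
    obtain ⟨θ, hθ⟩ := exists_hom_of_gen hg
    refine hθ (LinearMap.ext fun q => ?_)
    have hq : q = 0 := by
      obtain ⟨q', rfl⟩ := Submodule.mkQ_surjective _ q
      have : q' = 0 := Subsingleton.elim _ _
      rw [this, map_zero]
    rw [hq, map_zero, map_zero]

end

end TB10
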