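import Pool.Agent.LibTB10.F1
/-!
Final assembly of board TB10 (helper10): algebras with two simple modules, corners of quotients.
-/
set_option autoImplicit false
universe u
namespace TB10
open Module

/-- an algebra with two simple modules and infinitely many bricks has infinitely many bricks of one dimension -/
theorem two_simples (k : Type u) [Field k] [IsAlgClosed k] (A : Type u) [Ring A] [Algebra k A] [Module.Finite k A]
    (S₁ : Type u) [AddCommGroup S₁] [Module A S₁] [IsSimpleModule A S₁]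
    (S₂ : Type u) [AddCommGroup S₂] [Module A S₂] [IsSimpleModule A S₂]
    (hne : IsEmpty (S₁ ≃ₗ[A] S₂))
    (hall : ∀ (S : Type u) [AddCommGroup S] [Module A S] [IsSimpleModule A S],
      Nonempty (S ≃ₗ[A] S₁) ∨ Nonempty (S ≃ₗ[A] S₂))
    (hinf : InfBricksAll k A) : ∃ d ≤ 2 ^ finrank k A * finrank k A, InfBricks k A d := by
  by_contra hcon
  push Not at hcon
  letI : Module k S₁ := Module.compHom S₁ (algebraMap k A)
  letI : Module k S₂ := Module.compHom S₂ (algebraMap k A)
  haveI : IsScalarTower k A S₁ := IsScalarTower.of_algebraMap_smul fun _ _ => rfl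
  haveI : IsScalarTower k A S₂ := IsScalarTower.of_algebraMap_smul fun _ _ => rfl
  haveI : Module.Finite k S₁ := Module.Finite.trans A S₁
  haveI : Module.Finite k S₂ := Module.Finite.trans A S₂
  obtain ⟨L₀, hL₀⟩ := exists_cov (k := k) (A := A) _ hcon
  obtain ⟨P₁, hp₁, h11, h12⟩ := exists_projective_cover (k := k) (A := A) S₁
  obtain ⟨P₂, hp₂, h22, h21⟩ := exists_projective_cover (k := k) (A := A) S₂
  have hne' : IsEmpty (S₂ ≃ₗ[A] S₁) := ⟨fun e => hne.false e.symm⟩
  have hT : TwoS k A S₁ S₂ P₁ P₂ :=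
    { all := fun S _ _ _ => hall S
      h11 := h11
      h22 := h22
      h12 := h12 S₂ hne
      h21 := h21 S₁ hne' }
  have hf : ∀ P : Submodule A A, finrank k P ≤ finrank k A := fun P =>
    Submodule.finrank_le (P.restrictScalars k)
  obtain ⟨L₁, hL₁⟩ := quadrant hT (hf P₁) L₀ hL₀
  obtain ⟨L₂, hL₂⟩ := quadrant hT.symm (hf P₂) L₀ hL₀
  refine not_infAll (L₁ ++ L₂) ?_ hinf
  intro X _ _ _ _ _ hX
  rcases brick_top hT hne X hX with h | h
  · obtain ⟨r, hr, e⟩ := hL₁ X hX h
    exact ⟨r, List.mem_append_left _ hr, e⟩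
  · obtain ⟨r, hr, e⟩ := hL₂ X hX h
    exact ⟨r, List.mem_append_right _ hr, e⟩

/-- the same for an algebra `A` with a corner `B ≅ e A' e` of a quotient `A'` -/
theorem two_simples_corner (k : Type u) [Field k] [IsAlgClosed k] (A A' B : Type u)
    [Ring A] [Algebra k A] [Module.Finite k A] [Ring A'] [Algebra k A'] [Ring B] [Algebra k B]
    (π : A →ₐ[k] A') (hπ : Function.Surjective π)
    (φ : B →ₗ[k] A') (hmul : ∀ x y, φ (x * y) = φ x * φ y)
    (hinj : Function.Injective φ) (hcorner : ∀ a : A', ∃ b : B, φ b = φ 1 * a * φ 1)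
    (S₁ : Type u) [AddCommGroup S₁] [Module B S₁] [IsSimpleModule B S₁]
    (S₂ : Type u) [AddCommGroup S₂] [Module B S₂] [IsSimpleModule B S₂]
    (hne : IsEmpty (S₁ ≃ₗ[B] S₂))
    (hall : ∀ (S : Type u) [AddCommGroup S] [Module B S] [IsSimpleModule B S],
      Nonempty (S ≃ₗ[B] S₁) ∨ Nonempty (S ≃ₗ[B] S₂))
    (hinf : InfBricksAll k B) :
    ∃ d ≤ finrank k A * (2 ^ finrank k B * finrank k B), InfBricks k A d := by
  haveI : Module.Finite k A' := Module.Finite.of_surjective π.toLinearMap hπ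
  haveI : Module.Finite k B := Module.Finite.of_injective φ hinj
  obtain ⟨d, hd, h⟩ := two_simples k B S₁ S₂ hne hall hinf
  obtain ⟨d', hd', h'⟩ := infBricks_of_corner φ hmul hinj hcorner d h
  refine ⟨d', ?_, infBricks_of_quot π hπ d' h'⟩
  refine le_trans hd' (Nat.mul_le_mul ?_ hd)
  exact LinearMap.finrank_le_finrank_of_surjective (f := π.toLinearMap) hπ

end TB10
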