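import Pool.Agent.LibTB10.F2
/-!
Translation between the statement-level notions (matrices of representations) and the module-theoretic ones.
-/
set_option autoImplicit false
universe u
namespace TB10
open Module

section
variable {k : Type u} [Field k] {A : Type u} [Ring A] [Algebra k A]

/-- a `k`-linear map commuting with the actions is `A`-linear -/
def toHom {d e : ℕ} (ρ : A →ₐ[k] Module.End k (Fin d → k)) (σ : A →ₐ[k] Module.End k (Fin e → k))
    (T : (Fin d → k) →ₗ[k] (Fin e → k)) (hT : ∀ a v, T (ρ a v) = σ a (T v)) : Vm ρ →ₗ[A] Vm σ where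
  toFun v := T v
  map_add' v w := T.map_add v w
  map_smul' a v := hT a v

/-- an `A`-linear map is `k`-linear -/
def ofHom {d e : ℕ} {ρ : A →ₐ[k] Module.End k (Fin d → k)} {σ : A →ₐ[k] Module.End k (Fin e → k)}
    (T : Vm ρ →ₗ[A] Vm σ) : (Fin d → k) →ₗ[k] (Fin e → k) where
  toFun v := T v
  map_add' v w := T.map_add v w
  map_smul' c v := (T.restrictScalars k).map_smul c v

/-- statement-level brick -/
def BrickRep {d : ℕ} (ρ : A →ₐ[k] Module.End k (Fin d → k)) : Prop :=
  0 < d ∧ ∀ T : (Fin d → k) →ₗ[k] (Fin d → k), (∀ a v, T (ρ a v) = ρ a (T v)) → T ≠ 0 →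
    Function.Bijective T

/-- statement-level isomorphism -/
def IsoRep {d e : ℕ} (ρ : A →ₐ[k] Module.End k (Fin d → k)) (σ : A →ₐ[k] Module.End k (Fin e → k)) : Prop :=
  ∃ T : (Fin d → k) ≃ₗ[k] (Fin e → k), ∀ a v, T (ρ a v) = σ a (T v)

theorem brick_iff {d : ℕ} (ρ : A →ₐ[k] Module.End k (Fin d → k)) : BrickRep ρ ↔ IsBrick A (Vm ρ) := by
  constructor
  · rintro ⟨hd, h⟩
    refine ⟨?_, fun T hT => ?_⟩
    · haveI : Nonempty (Fin d) := ⟨⟨0, hd⟩⟩
      exact inferInstanceAs (Nontrivial (Fin d → k))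
    · refine h (ofHom T) (fun a v => T.map_smul a v) ?_
      intro h0
      refine hT (LinearMap.ext fun v => ?_)
      exact LinearMap.congr_fun h0 v
  · rintro ⟨hnt, h⟩
    refine ⟨?_, fun T hT hT0 => ?_⟩
    · rcases Nat.eq_zero_or_pos d with rfl | hd
      · exfalso
        haveI : Subsingleton (Vm ρ) := inferInstanceAs (Subsingleton (Fin 0 → k))
        exact not_subsingleton (Vm ρ) this
      · exact hd
    · refine h (toHom ρ ρ T hT) ?_
      intro h0
      refine hT0 (LinearMap.ext fun v => ?_)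
      exact LinearMap.congr_fun h0 v

theorem iso_iff {d e : ℕ} (ρ : A →ₐ[k] Module.End k (Fin d → k)) (σ : A →ₐ[k] Module.End k (Fin e → k)) :
    IsoRep ρ σ ↔ Nonempty (Vm ρ ≃ₗ[A] Vm σ) := by
  constructor
  · rintro ⟨T, hT⟩
    exact ⟨LinearEquiv.ofBijective (toHom ρ σ T.toLinearMap hT) T.bijective⟩
  · rintro ⟨T⟩
    exact ⟨LinearEquiv.ofBijective (ofHom T.toLinearMap) T.bijective, fun a v => T.map_smul a v⟩

theorem infBricks_iff (d : ℕ) :
    (∃ B : ℕ → (A →ₐ[k] Module.End k (Fin d → k)), (∀ n, BrickRep (B n)) ∧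
      ∀ m n, m ≠ n → ¬ IsoRep (B m) (B n)) ↔ InfBricks k A d := by
  constructor
  · rintro ⟨B, hB, h⟩
    refine ⟨B, fun n => (brick_iff _).mp (hB n), fun m n hmn => ?_⟩
    rw [← not_nonempty_iff, ← iso_iff]
    exact h m n hmn.ne
  · rintro ⟨B, hB, h⟩
    refine ⟨B, fun n => (brick_iff _).mpr (hB n), fun m n hmn => ?_⟩
    rw [iso_iff]
    rintro ⟨T⟩
    rcases lt_or_gt_of_ne hmn with hlt | hlt
    · exact (h m n hlt).false T
    · exact (h n m hlt).false T.symm

theorem infBricksAll_of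
    (h : ∃ B : ℕ → Rp k A, (∀ n, BrickRep (B n).2) ∧ ∀ m n, m ≠ n → ¬ IsoRep (B m).2 (B n).2) :
    InfBricksAll k A := by
  obtain ⟨B, hB, h⟩ := h
  refine ⟨B, fun n => (brick_iff _).mp (hB n), fun m n hmn => ?_⟩
  rw [← not_nonempty_iff, ← iso_iff]
  exact h m n hmn.ne

/-- Theorem 1: no rigid homomorphism implies infinitely many bricks of one dimension. -/
theorem criterion (k : Type u) [Field k] [Infinite k] (A : Type u) [Ring A] [Algebra k A] [Module.Finite k A]
    (P : Type u) [AddCommGroup P] [Module A P] [Module k P] [IsScalarTower k A P] [Module.Finite k P]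
    [Module.Projective A P]
    (Q : Type u) [AddCommGroup Q] [Module A Q] [Module k Q] [IsScalarTower k A Q] [Module.Finite k Q]
    [Module.Projective A Q]
    (h : ∀ f : P →ₗ[A] Q, ¬ Rigid f) : ∃ d ≤ finrank k Q, InfBricks k A d := by
  by_contra hcon
  push Not at hcon
  obtain ⟨L, hL⟩ := exists_cov (k := k) (A := A) _ hcon
  obtain ⟨f, hf⟩ := exists_rigid (P := P) (Q := Q) L hL
  exact h f hf

end

end TB10
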