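import Pool.Agent.LibTB10.F3
/-!
The numerical criterion: dim Hom(P,Q) ≥ dim End P + dim End Q excludes rigid elements.
-/
set_option autoImplicit false
universe u
namespace TB10
open Module

section
variable {k : Type u} [Field k] {A : Type u} [Ring A] [Algebra k A]

theorem not_rigid_of_dim {P Q : Type u} [AddCommGroup P] [Module A P] [Module k P] [IsScalarTower k A P]
    [Module.Finite k P] [AddCommGroup Q] [Module A Q] [Module k Q] [IsScalarTower k A Q] [Module.Finite k Q]
    [Nontrivial Q]
    (h : finrank k (P →ₗ[A] P) + finrank k (Q →ₗ[A] Q) ≤ finrank k (P →ₗ[A] Q)) (f : P →ₗ[A] Q) :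
    ¬ Rigid f := by
  intro hf
  -- the map (α, β) ↦ α f + f β is onto
  have hsurj : LinearMap.range (Phi k f f) = ⊤ := by
    rw [LinearMap.range_eq_top]
    intro x
    obtain ⟨α, β, hx⟩ := hf x
    exact ⟨(α, β), hx⟩
  have h1 := LinearMap.finrank_range_add_finrank_ker (Phi k f f)
  rw [hsurj, finrank_top, Module.finrank_prod] at h1
  have hker : 0 < finrank k (LinearMap.ker (Phi k f f)) := by
    rw [Module.finrank_pos_iff_exists_ne_zero]
    refine ⟨⟨(LinearMap.id, -LinearMap.id), ?_⟩, ?_⟩
    · rw [LinearMap.mem_ker]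
      refine LinearMap.ext fun p => ?_
      simp [Phi]
    · intro h0
      have h2 := congrArg Subtype.val h0
      have h3 : (LinearMap.id : Q →ₗ[A] Q) = 0 := congrArg Prod.fst h2
      obtain ⟨q, hq⟩ := exists_ne (0 : Q)
      exact hq (LinearMap.congr_fun h3 q)
  omega

end

end TB10
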