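import Pool.Agent.LibTB10.A4
/-!
ROW [TB10 G1]. (cite A4.ee_add_rank or work directly with surjections of quotients) four inequalities for the direct sum.
Notation ee k f g = dim Hom(P,Q') / (Hom(Q,Q') f + g Hom(P,P')).
PLAN. Each is a surjection of quotients: if Ψ : X →ₗ[k] Y is linear, maps range Φ₁ into range Φ₂ and range Ψ ⊔ range Φ₂ = ⊤ then
finrank (Y ⧸ range Φ₂) <= finrank (X ⧸ range Φ₁)  (prove this once: `Submodule.mapQ` is surjective, `LinearMap.finrank_le_finrank_of_surjective`-like).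
(1) ee_sum_right₁: f rigid. Ψ : Hom(P,Q') → Hom(P,Q×Q'), ψ ↦ inr ∘ ψ.  α f + g β ↦ (inr α) f + (f ⊕ g)(inr β).  Any x = (x₁,x₂): x₁ = α f + f β
    (Rigid f) so x = inr x₂ + (inl α) f + (f⊕g)(inl β).
(2) ee_sum_left₁: g rigid.  Ψ : Hom(P,Q') → Hom(P×P',Q'), ψ ↦ ψ ∘ fst.  α f + g β ↦ (α∘fst)(f⊕g) + g (β∘fst).  Any x : P×P' → Q':
    x = (x∘inl)∘fst + (x∘inr)∘snd, x∘inr = α g + g β, (x∘inr)∘snd = (α∘snd)(f⊕g) + g(β∘snd).
(3) ee_sum_left₂: f rigid.  Ψ : Hom(P',Q) → Hom(P×P',Q), ψ ↦ ψ ∘ snd.   (mirror of (2))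
(4) ee_sum_right₂: g rigid.  Ψ : Hom(P',Q) → Hom(P',Q×Q'), ψ ↦ inl ∘ ψ.  (mirror of (1))
-/
set_option autoImplicit false
universe u
namespace TB10
open Module

section
variable {k : Type u} [Field k] {A : Type u} [Ring A] [Algebra k A]

/-- comparison of quotients -/
theorem finrank_quot_le {X Y : Type u} [AddCommGroup X] [Module k X] [Module.Finite k X]
    [AddCommGroup Y] [Module k Y] [Module.Finite k Y] (R : Submodule k X) (S : Submodule k Y)
    (Ψ : X →ₗ[k] Y) (h₁ : R ≤ S.comap Ψ) (h₂ : ∀ y : Y, ∃ x : X, y - Ψ x ∈ S) :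
    finrank k (Y ⧸ S) ≤ finrank k (X ⧸ R) := by
  apply LinearMap.finrank_le_finrank_of_surjective (f := Submodule.mapQ R S Ψ h₁)
  intro z
  obtain ⟨y, rfl⟩ := Submodule.Quotient.mk_surjective S z
  obtain ⟨x, hx⟩ := h₂ y
  refine ⟨Submodule.Quotient.mk x, ?_⟩
  rw [Submodule.mapQ_apply]
  symm
  rw [Submodule.Quotient.eq]
  exact hx

variable {P Q P' Q' : Type u} [AddCommGroup P] [Module A P] [Module k P] [IsScalarTower k A P] [Module.Finite k P]
    [AddCommGroup Q] [Module A Q] [Module k Q] [IsScalarTower k A Q] [Module.Finite k Q]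
    [AddCommGroup P'] [Module A P'] [Module k P'] [IsScalarTower k A P'] [Module.Finite k P']
    [AddCommGroup Q'] [Module A Q'] [Module k Q'] [IsScalarTower k A Q'] [Module.Finite k Q']

/-- precomposition with an `A`-linear map, as a `k`-linear map -/
def g1_pre {P Q X : Type u} [AddCommGroup P] [Module A P] [AddCommGroup Q] [Module A Q]
    [AddCommGroup X] [Module A X] [Module k X] [IsScalarTower k A X] (f : P →ₗ[A] Q) :
    (Q →ₗ[A] X) →ₗ[k] (P →ₗ[A] X) := pre k f X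

/-- postcomposition with an `A`-linear map, as a `k`-linear map -/
def g1_post {P Q X : Type u} [AddCommGroup P] [Module A P] [AddCommGroup Q] [Module A Q]
    [AddCommGroup X] [Module A X] [Module k Q] [IsScalarTower k A Q] [Module k X] [IsScalarTower k A X]
    (f : Q →ₗ[A] X) : (P →ₗ[A] Q) →ₗ[k] (P →ₗ[A] X) where
  toFun q := f ∘ₗ q
  map_add' a b := by
    ext p
    simp
  map_smul' c a := by
    ext p
    have h : f (c • (a p)) = c • f (a p) := by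
      rw [← algebraMap_smul A c (a p), map_smul, algebraMap_smul]
    simp [h]

theorem ee_sum_right₁ (f : P →ₗ[A] Q) (g : P' →ₗ[A] Q') (hf : Rigid f) :
    ee k f (f.prodMap g) ≤ ee k f g := by
  refine finrank_quot_le _ _ (g1_post (LinearMap.inr A Q Q')) ?_ ?_
  · rintro _ ⟨⟨α, β⟩, rfl⟩
    refine ⟨(LinearMap.inr A Q Q' ∘ₗ α, LinearMap.inr A P P' ∘ₗ β), ?_⟩
    ext p <;> simp [Phi, g1_post]
  · intro y
    obtain ⟨α, β, h⟩ := hf (LinearMap.fst A Q Q' ∘ₗ y)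
    refine ⟨LinearMap.snd A Q Q' ∘ₗ y, (LinearMap.inl A Q Q' ∘ₗ α, LinearMap.inl A P P' ∘ₗ β), ?_⟩
    ext p
    · have := LinearMap.congr_fun h p
      simpa [Phi, g1_post] using this
    · simp [Phi, g1_post]

theorem ee_sum_left₁ (f : P →ₗ[A] Q) (g : P' →ₗ[A] Q') (hg : Rigid g) :
    ee k (f.prodMap g) g ≤ ee k f g := by
  refine finrank_quot_le _ _ (g1_pre (LinearMap.fst A P P')) ?_ ?_
  · rintro _ ⟨⟨α, β⟩, rfl⟩
    refine ⟨(α ∘ₗ LinearMap.fst A Q Q', β ∘ₗ LinearMap.fst A P P'), ?_⟩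
    ext p <;> simp [Phi, g1_pre, pre]
  · intro y
    obtain ⟨α, β, h⟩ := hg (y ∘ₗ LinearMap.inr A P P')
    refine ⟨y ∘ₗ LinearMap.inl A P P', (α ∘ₗ LinearMap.snd A Q Q', β ∘ₗ LinearMap.snd A P P'), ?_⟩
    have hz : y (0, 0) = 0 := map_zero y
    ext p
    · simp [Phi, g1_pre, pre]
    · have := LinearMap.congr_fun h p
      simpa [Phi, g1_pre, pre, hz] using this

theorem ee_sum_left₂ (f : P →ₗ[A] Q) (g : P' →ₗ[A] Q') (hf : Rigid f) :
    ee k (f.prodMap g) f ≤ ee k g f := by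
  refine finrank_quot_le _ _ (g1_pre (LinearMap.snd A P P')) ?_ ?_
  · rintro _ ⟨⟨α, β⟩, rfl⟩
    refine ⟨(α ∘ₗ LinearMap.snd A Q Q', β ∘ₗ LinearMap.snd A P P'), ?_⟩
    ext p <;> simp [Phi, g1_pre, pre]
  · intro y
    obtain ⟨α, β, h⟩ := hf (y ∘ₗ LinearMap.inl A P P')
    refine ⟨y ∘ₗ LinearMap.inr A P P', (α ∘ₗ LinearMap.fst A Q Q', β ∘ₗ LinearMap.fst A P P'), ?_⟩
    have hz : y (0, 0) = 0 := map_zero y
    ext p
    · have := LinearMap.congr_fun h p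
      simpa [Phi, g1_pre, pre, hz] using this
    · simp [Phi, g1_pre, pre]

theorem ee_sum_right₂ (f : P →ₗ[A] Q) (g : P' →ₗ[A] Q') (hg : Rigid g) :
    ee k g (f.prodMap g) ≤ ee k g f := by
  refine finrank_quot_le _ _ (g1_post (LinearMap.inl A Q Q')) ?_ ?_
  · rintro _ ⟨⟨α, β⟩, rfl⟩
    refine ⟨(LinearMap.inl A Q Q' ∘ₗ α, LinearMap.inl A P P' ∘ₗ β), ?_⟩
    ext p <;> simp [Phi, g1_post]
  · intro y
    obtain ⟨α, β, h⟩ := hg (LinearMap.snd A Q Q' ∘ₗ y)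
    refine ⟨LinearMap.fst A Q Q' ∘ₗ y, (LinearMap.inr A Q Q' ∘ₗ α, LinearMap.inr A P P' ∘ₗ β), ?_⟩
    ext p
    · simp [Phi, g1_post]
    · have := LinearMap.congr_fun h p
      simpa [Phi, g1_post] using this

end

end TB10
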