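import Pool.Agent.LibTB10.A4
/-!
ROW [TB10 G2]. the strict decrease (page, Step 1).  hphi f g φ : (p,p') ↦ (f p + φ p', g p').
PLAN. General lemma (prove first): X, Y f.d., R ≤ X, S ≤ Y subspaces, Ψ : X → Y linear with R ≤ comap Ψ S, every y ≡ Ψ x mod S, and
there is x₀ ∉ R with Ψ x₀ ∈ S.  Then finrank (Y ⧸ S) < finrank (X ⧸ R): the induced map X ⧸ R → Y ⧸ S is surjective and kills the
nonzero class of x₀ (`LinearMap.finrank_range_add_finrank_ker`, kernel ≠ ⊥ has positive finrank).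
(1) ee_hphi_left: f rigid; x₀ = φ, X = Hom(P',Q), R = range (Phi k g f), Y = Hom(P×P',Q), S = range (Phi k (hphi f g φ) f),
    Ψ ψ = ψ ∘ snd.
    - R: α g + f β ↦ (α∘snd)∘(hphi) + f∘(β∘snd)  where α∘snd : Q×Q' → Q; (α∘snd)(hphi(p,p')) = α (g p'). ok.
    - onto: y : P×P' → Q; y∘inl = α f + f β (Rigid f).  (α∘fst)∘hphi = α f p + α φ p'.  y - [(α∘fst)∘hphi + f∘(β∘fst)] vanishes on inl,
      so is ψ∘snd.
    - Ψ φ ∈ S: (fst)∘hphi - f∘fst = φ∘snd.  (α = LinearMap.fst, β = -fst)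
(2) ee_hphi_right: g rigid; x₀ = φ, X = Hom(P',Q), R = range (Phi k g f), Y = Hom(P',Q×Q'), S = range (Phi k g (hphi f g φ)),
    Ψ ψ = inl ∘ ψ.
    - R: inl∘(α g + f β) = (inl α) g + hphi∘(inl β).
    - onto: y = (y₁,y₂), y₂ = α g + g β; y - [(inr α) g + hphi∘(inr β)] has second component 0: (hphi(inr β p') = (φ β p', g β p')).
    - Ψ φ ∈ S: hphi∘inr = (φ, g), inr∘g = (0,g):  inl φ = hphi∘inr - inr∘g.
-/
set_option autoImplicit false
universe u
namespace TB10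
open Module

section
variable {k : Type u} [Field k] {A : Type u} [Ring A] [Algebra k A]

/-- strict comparison of quotients -/
theorem finrank_quot_lt {X Y : Type u} [AddCommGroup X] [Module k X] [Module.Finite k X]
    [AddCommGroup Y] [Module k Y] [Module.Finite k Y] (R : Submodule k X) (S : Submodule k Y)
    (Ψ : X →ₗ[k] Y) (h₁ : R ≤ S.comap Ψ) (h₂ : ∀ y : Y, ∃ x : X, y - Ψ x ∈ S)
    (x₀ : X) (h₃ : x₀ ∉ R) (h₄ : Ψ x₀ ∈ S) :
    finrank k (Y ⧸ S) < finrank k (X ⧸ R) := by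
  obtain ⟨T, hT⟩ : ∃ T, T = Submodule.mapQ R S Ψ h₁ := ⟨_, rfl⟩
  have hsurj : Function.Surjective T := by
    intro z
    obtain ⟨y, rfl⟩ := Submodule.Quotient.mk_surjective S z
    obtain ⟨x, hx⟩ := h₂ y
    refine ⟨Submodule.Quotient.mk x, ?_⟩
    rw [hT, Submodule.mapQ_apply]
    symm
    rw [Submodule.Quotient.eq]
    exact hx
  have hker : LinearMap.ker T ≠ ⊥ := by
    intro h
    have h0 : (Submodule.Quotient.mk x₀ : X ⧸ R) ∈ LinearMap.ker T := by
      rw [LinearMap.mem_ker, hT, Submodule.mapQ_apply, Submodule.Quotient.mk_eq_zero]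
      exact h₄
    rw [h, Submodule.mem_bot, Submodule.Quotient.mk_eq_zero] at h0
    exact h₃ h0
  have h5 := LinearMap.finrank_range_add_finrank_ker T
  rw [LinearMap.range_eq_top.mpr hsurj, finrank_top] at h5
  have h6 : 0 < finrank k (LinearMap.ker T) := by
    rw [Nat.pos_iff_ne_zero]
    intro h0
    exact hker (Submodule.finrank_eq_zero.mp h0)
  omega

variable {P Q P' Q' : Type u} [AddCommGroup P] [Module A P] [Module k P] [IsScalarTower k A P] [Module.Finite k P]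
    [AddCommGroup Q] [Module A Q] [Module k Q] [IsScalarTower k A Q] [Module.Finite k Q]
    [AddCommGroup P'] [Module A P'] [Module k P'] [IsScalarTower k A P'] [Module.Finite k P']
    [AddCommGroup Q'] [Module A Q'] [Module k Q'] [IsScalarTower k A Q'] [Module.Finite k Q']

/-- precomposition with an `A`-linear map, as a `k`-linear map -/
def g2_pre {P Q X : Type u} [AddCommGroup P] [Module A P] [AddCommGroup Q] [Module A Q]
    [AddCommGroup X] [Module A X] [Module k X] [IsScalarTower k A X] (f : P →ₗ[A] Q) :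
    (Q →ₗ[A] X) →ₗ[k] (P →ₗ[A] X) := pre k f X

/-- postcomposition with an `A`-linear map, as a `k`-linear map -/
def g2_post {P Q X : Type u} [AddCommGroup P] [Module A P] [AddCommGroup Q] [Module A Q]
    [AddCommGroup X] [Module A X] [Module k Q] [IsScalarTower k A Q] [Module k X] [IsScalarTower k A X]
    (f : Q →ₗ[A] X) : (P →ₗ[A] Q) →ₗ[k] (P →ₗ[A] X) where
  toFun q := f ∘ₗ q
  map_add' a b := by
    ext p
    simp
  map_smul' c a := by
    ext p
    have h : f (c • (a p)) = c • f (a p) := by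
      rw [← algebraMap_smul A c (a p), map_smul, algebraMap_smul]
    simp [h]

theorem ee_hphi_left (f : P →ₗ[A] Q) (g : P' →ₗ[A] Q') (hf : Rigid f) (φ : P' →ₗ[A] Q)
    (hφ : φ ∉ LinearMap.range (Phi k g f)) : ee k (hphi f g φ) f < ee k g f := by
  refine finrank_quot_lt _ _ (g2_pre (LinearMap.snd A P P')) ?_ ?_ φ hφ ?_
  · rintro _ ⟨⟨α, β⟩, rfl⟩
    refine ⟨(α ∘ₗ LinearMap.snd A Q Q', β ∘ₗ LinearMap.snd A P P'), ?_⟩
    ext p <;> simp [Phi, g2_pre, pre, hphi]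
  · intro y
    have hz : y (0, 0) = 0 := map_zero y
    obtain ⟨α, β, h⟩ := hf (y ∘ₗ LinearMap.inl A P P')
    refine ⟨y ∘ₗ LinearMap.inr A P P' - α ∘ₗ φ, (α ∘ₗ LinearMap.fst A Q Q', β ∘ₗ LinearMap.fst A P P'), ?_⟩
    ext p
    · have := LinearMap.congr_fun h p
      simpa [Phi, g2_pre, pre, hz, hphi] using this
    · simp [Phi, g2_pre, pre, hphi]
  · refine ⟨(LinearMap.fst A Q Q', - LinearMap.fst A P P'), ?_⟩
    ext p <;> simp [Phi, g2_pre, pre, hphi]

theorem ee_hphi_right (f : P →ₗ[A] Q) (g : P' →ₗ[A] Q') (hg : Rigid g) (φ : P' →ₗ[A] Q)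
    (hφ : φ ∉ LinearMap.range (Phi k g f)) : ee k g (hphi f g φ) < ee k g f := by
  refine finrank_quot_lt _ _ (g2_post (LinearMap.inl A Q Q')) ?_ ?_ φ hφ ?_
  · rintro _ ⟨⟨α, β⟩, rfl⟩
    refine ⟨(LinearMap.inl A Q Q' ∘ₗ α, LinearMap.inl A P P' ∘ₗ β), ?_⟩
    ext p <;> simp [Phi, g2_post, hphi]
  · intro y
    obtain ⟨α, β, h⟩ := hg (LinearMap.snd A Q Q' ∘ₗ y)
    refine ⟨LinearMap.fst A Q Q' ∘ₗ y - φ ∘ₗ β, (LinearMap.inr A Q Q' ∘ₗ α, LinearMap.inr A P P' ∘ₗ β), ?_⟩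
    ext p
    · simp [Phi, g2_post, hphi]
    · have := LinearMap.congr_fun h p
      simpa [Phi, g2_post, hphi] using this
  · refine ⟨(- LinearMap.inr A Q Q', LinearMap.inr A P P'), ?_⟩
    ext p <;> simp [Phi, g2_post, hphi]

end

end TB10
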