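import Pool.Agent.LibTB10.G2
/-!
ROW [TB10 G3]. (cite G2.finrank_quot_lt) the mirror strict decrease.  hpsi f g ψ : (p,p') ↦ (f p, ψ p + g p').
PLAN.
(1) ee_hpsi_right: f rigid; x₀ = ψ, X = Hom(P,Q'), R = range (Phi k f g), Y = Hom(P,Q×Q'), S = range (Phi k f (hpsi f g ψ)), Ψ x = inr ∘ x.
    - R: inr∘(α f + g β) = (inr α) f + hpsi∘(inr β).
    - onto: y = (y₁,y₂), y₁ = α f + f β; y - [(inl α) f + hpsi∘(inl β)] has first component 0.
    - Ψ ψ ∈ S: inr ψ = hpsi∘inl - inl∘f.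
(2) ee_hpsi_left: g rigid; Y = Hom(P×P',Q'), S = range (Phi k (hpsi f g ψ) g), Ψ x = x ∘ fst.
    - R: (α f + g β)∘fst = (α∘fst)∘hpsi + g∘(β∘fst).
    - onto: y∘inr = α g + g β; y - [(α∘snd)∘hpsi + g∘(β∘snd)] vanishes on inr.
    - Ψ ψ ∈ S: snd∘hpsi - g∘snd = ψ∘fst.
-/
set_option autoImplicit false
universe u
namespace TB10
open Module

section
variable {k : Type u} [Field k] {A : Type u} [Ring A] [Algebra k A]
  {P Q P' Q' : Type u} [AddCommGroup P] [Module A P] [Module k P] [IsScalarTower k A P] [Module.Finite k P]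
    [AddCommGroup Q] [Module A Q] [Module k Q] [IsScalarTower k A Q] [Module.Finite k Q]
    [AddCommGroup P'] [Module A P'] [Module k P'] [IsScalarTower k A P'] [Module.Finite k P']
    [AddCommGroup Q'] [Module A Q'] [Module k Q'] [IsScalarTower k A Q'] [Module.Finite k Q']

theorem ee_hpsi_right (f : P →ₗ[A] Q) (g : P' →ₗ[A] Q') (hf : Rigid f) (ψ : P →ₗ[A] Q')
    (hψ : ψ ∉ LinearMap.range (Phi k f g)) : ee k f (hpsi f g ψ) < ee k f g := by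
  refine finrank_quot_lt _ _ (g2_post (LinearMap.inr A Q Q')) ?_ ?_ ψ hψ ?_
  · rintro _ ⟨⟨α, β⟩, rfl⟩
    refine ⟨(LinearMap.inr A Q Q' ∘ₗ α, LinearMap.inr A P P' ∘ₗ β), ?_⟩
    ext p <;> simp [Phi, g2_post, hpsi]
  · intro y
    obtain ⟨α, β, h⟩ := hf (LinearMap.fst A Q Q' ∘ₗ y)
    refine ⟨LinearMap.snd A Q Q' ∘ₗ y - ψ ∘ₗ β, (LinearMap.inl A Q Q' ∘ₗ α, LinearMap.inl A P P' ∘ₗ β), ?_⟩
    ext p
    · have := LinearMap.congr_fun h p
      simpa [Phi, g2_post, hpsi] using this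
    · simp [Phi, g2_post, hpsi]
  · refine ⟨(- LinearMap.inl A Q Q', LinearMap.inl A P P'), ?_⟩
    ext p <;> simp [Phi, g2_post, hpsi]

theorem ee_hpsi_left (f : P →ₗ[A] Q) (g : P' →ₗ[A] Q') (hg : Rigid g) (ψ : P →ₗ[A] Q')
    (hψ : ψ ∉ LinearMap.range (Phi k f g)) : ee k (hpsi f g ψ) g < ee k f g := by
  refine finrank_quot_lt _ _ (g2_pre (LinearMap.fst A P P')) ?_ ?_ ψ hψ ?_
  · rintro _ ⟨⟨α, β⟩, rfl⟩
    refine ⟨(α ∘ₗ LinearMap.fst A Q Q', β ∘ₗ LinearMap.fst A P P'), ?_⟩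
    ext p <;> simp [Phi, g2_pre, pre, hpsi]
  · intro y
    have hz : y (0, 0) = 0 := map_zero y
    obtain ⟨α, β, h⟩ := hg (y ∘ₗ LinearMap.inr A P P')
    refine ⟨y ∘ₗ LinearMap.inl A P P' - α ∘ₗ ψ, (α ∘ₗ LinearMap.snd A Q Q', β ∘ₗ LinearMap.snd A P P'), ?_⟩
    ext p
    · simp [Phi, g2_pre, pre, hpsi]
    · have := LinearMap.congr_fun h p
      simpa [Phi, g2_pre, pre, hz, hpsi] using this
  · refine ⟨(LinearMap.snd A Q Q', - LinearMap.snd A P P'), ?_⟩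
    ext p <;> simp [Phi, g2_pre, pre, hpsi]

end

end TB10
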