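import Pool.Agent.LibTB10.L3
import Pool.Agent.LibTB10.A5
import Pool.Agent.LibTB10.G1
import Pool.Agent.LibTB10.G3
/-!
ROW [TB10 G4]. (cite L3, A4, A5, G1, G2, G3) the generic step.
PLAN. Y := (P × P') →ₗ[A] (Q × Q').  Apply exists_simul_max with ι = {r // r ∈ L} ⊕ Fin 4 (finite: List.finite_toSet / `List.finite_toSet`):
 ρ (inl r) h = finrank (range (pre k h (Vm r.1.2)))  (lsc_pre),
 ρ 0 h = finrank (range (Phi k f h)), ρ 1 h = ...(Phi k h g), ρ 2 h = ...(Phi k h f), ρ 3 h = ...(Phi k g h)  (lsc_Phi_right/left).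
Bounds: finrank of a range <= finrank of the target (`Submodule.finrank_le`).  Get h.  Rigid h by rigid_of_max L hL h.
For the inequalities use ee_add_rank: ee k f h + rank = finrank Hom: at the maximal h, ee k f h <= ee k f h' for every h' (same for the other
three).  h' = f.prodMap g gives the ≤ (G1).  If 0 < ee k g f there is φ ∉ range (Phi k g f) (ee = finrank of the quotient; if the range were ⊤
the quotient would have finrank 0), h' = hphi f g φ gives the strict ones (G2).  If 0 < ee k f g use ψ and G3.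
-/
set_option autoImplicit false
universe u
namespace TB10
open Module

theorem generic_step {k : Type u} [Field k] [Infinite k] {A : Type u} [Ring A] [Algebra k A]
    {P Q P' Q' : Type u} [AddCommGroup P] [Module A P] [Module k P] [IsScalarTower k A P] [Module.Finite k P]
    [Module.Projective A P]
    [AddCommGroup Q] [Module A Q] [Module k Q] [IsScalarTower k A Q] [Module.Finite k Q] [Module.Projective A Q]
    [AddCommGroup P'] [Module A P'] [Module k P'] [IsScalarTower k A P'] [Module.Finite k P']
    [Module.Projective A P']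
    [AddCommGroup Q'] [Module A Q'] [Module k Q'] [IsScalarTower k A Q'] [Module.Finite k Q']
    [Module.Projective A Q']
    (f : P →ₗ[A] Q) (g : P' →ₗ[A] Q') (hf : Rigid f) (hg : Rigid g)
    (L : List (Rp k A)) (hL : Cov k A (finrank k (Q × Q')) L) :
    ∃ h : P × P' →ₗ[A] Q × Q', Rigid h ∧
      ee k f h ≤ ee k f g ∧ ee k h g ≤ ee k f g ∧ ee k h f ≤ ee k g f ∧ ee k g h ≤ ee k g f ∧
      (0 < ee k g f → ee k h f < ee k g f ∧ ee k g h < ee k g f) ∧
      (0 < ee k f g → ee k f h < ee k f g ∧ ee k h g < ee k f g) := by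
  have hfin : Finite {r // r ∈ L} := List.finite_toSet L
  obtain ⟨ρ, hρ⟩ : ∃ ρ : ({r // r ∈ L} ⊕ Fin 4) → ((P × P' →ₗ[A] Q × Q') → ℕ), ρ = fun i => match i with
    | Sum.inl r => fun h => finrank k (LinearMap.range (pre k h (Vm r.1.2)))
    | Sum.inr 0 => fun h => finrank k (LinearMap.range (Phi k f h))
    | Sum.inr 1 => fun h => finrank k (LinearMap.range (Phi k h g))
    | Sum.inr 2 => fun h => finrank k (LinearMap.range (Phi k h f))
    | Sum.inr 3 => fun h => finrank k (LinearMap.range (Phi k g h)) := ⟨_, rfl⟩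
  have hmax := exists_simul_max (k := k) ρ (by
    intro i
    rw [hρ]
    rcases i with r | i
    · exact ⟨_, fun y => Submodule.finrank_le _⟩
    · fin_cases i
      · exact ⟨_, fun y => Submodule.finrank_le _⟩
      · exact ⟨_, fun y => Submodule.finrank_le _⟩
      · exact ⟨_, fun y => Submodule.finrank_le _⟩
      · exact ⟨_, fun y => Submodule.finrank_le _⟩) (by
    intro i
    rw [hρ]
    rcases i with r | i
    · exact lsc_pre _
    · fin_cases i
      · exact lsc_Phi_right f
      · exact lsc_Phi_left g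
      · exact lsc_Phi_left f
      · exact lsc_Phi_right g)
  obtain ⟨h, hh⟩ := hmax
  have m0 : ∀ h' : P × P' →ₗ[A] Q × Q', ee k f h ≤ ee k f h' := by
    intro h'
    have h1 := hh (Sum.inr 0) h'
    rw [hρ] at h1
    simp only at h1
    have h2 := ee_add_rank (k := k) f h
    have h3 := ee_add_rank (k := k) f h'
    omega
  have m1 : ∀ h' : P × P' →ₗ[A] Q × Q', ee k h g ≤ ee k h' g := by
    intro h'
    have h1 := hh (Sum.inr 1) h'
    rw [hρ] at h1
    simp only at h1
    have h2 := ee_add_rank (k := k) h g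
    have h3 := ee_add_rank (k := k) h' g
    omega
  have m2 : ∀ h' : P × P' →ₗ[A] Q × Q', ee k h f ≤ ee k h' f := by
    intro h'
    have h1 := hh (Sum.inr 2) h'
    rw [hρ] at h1
    simp only at h1
    have h2 := ee_add_rank (k := k) h f
    have h3 := ee_add_rank (k := k) h' f
    omega
  have m3 : ∀ h' : P × P' →ₗ[A] Q × Q', ee k g h ≤ ee k g h' := by
    intro h'
    have h1 := hh (Sum.inr 3) h'
    rw [hρ] at h1
    simp only at h1
    have h2 := ee_add_rank (k := k) g h
    have h3 := ee_add_rank (k := k) g h'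
    omega
  refine ⟨h, ?_, ?_, ?_, ?_, ?_, ?_, ?_⟩
  · apply rigid_of_max L hL h
    intro r hr f'
    have h1 := hh (Sum.inl ⟨r, hr⟩) f'
    rw [hρ] at h1
    exact h1
  · exact (m0 _).trans (ee_sum_right₁ f g hf)
  · exact (m1 _).trans (ee_sum_left₁ f g hg)
  · exact (m2 _).trans (ee_sum_left₂ f g hf)
  · exact (m3 _).trans (ee_sum_right₂ f g hg)
  · intro hpos
    have hne : ∃ φ : P' →ₗ[A] Q, φ ∉ LinearMap.range (Phi k g f) := by
      by_contra hcon
      push Not at hcon
      have htop : LinearMap.range (Phi k g f) = ⊤ := by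
        rw [eq_top_iff]
        intro x _
        exact hcon x
      have h1 := ee_add_rank (k := k) g f
      rw [htop, finrank_top] at h1
      omega
    obtain ⟨φ, hφ⟩ := hne
    exact ⟨(m2 _).trans_lt (ee_hphi_left f g hf φ hφ), (m3 _).trans_lt (ee_hphi_right f g hg φ hφ)⟩
  · intro hpos
    have hne : ∃ φ : P →ₗ[A] Q', φ ∉ LinearMap.range (Phi k f g) := by
      by_contra hcon
      push Not at hcon
      have htop : LinearMap.range (Phi k f g) = ⊤ := by
        rw [eq_top_iff]
        intro x _
        exact hcon x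
      have h1 := ee_add_rank (k := k) f g
      rw [htop, finrank_top] at h1
      omega
    obtain ⟨φ, hφ⟩ := hne
    exact ⟨(m0 _).trans_lt (ee_hpsi_right f g hf φ hφ), (m1 _).trans_lt (ee_hpsi_left f g hg φ hφ)⟩

/-- Theorem 1 with an explicit list. -/
theorem exists_rigid {k : Type u} [Field k] [Infinite k] {A : Type u} [Ring A] [Algebra k A]
    {P Q : Type u} [AddCommGroup P] [Module A P] [Module k P] [IsScalarTower k A P] [Module.Finite k P]
    [Module.Projective A P]
    [AddCommGroup Q] [Module A Q] [Module k Q] [IsScalarTower k A Q] [Module.Finite k Q] [Module.Projective A Q]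
    (L : List (Rp k A)) (hL : Cov k A (finrank k Q) L) : ∃ f : P →ₗ[A] Q, Rigid f := by
  have hfin : Finite {r // r ∈ L} := List.finite_toSet L
  obtain ⟨h, hh⟩ := exists_simul_max (k := k)
    (fun (r : {r // r ∈ L}) (h : P →ₗ[A] Q) => finrank k (LinearMap.range (pre k h (Vm r.1.2))))
    (fun r => ⟨_, fun y => Submodule.finrank_le _⟩) (fun r => lsc_pre _)
  refine ⟨h, rigid_of_max L hL h ?_⟩
  intro r hr f'
  exact hh ⟨r, hr⟩ f'

end TB10
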