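import Pool.Agent.LibTB10.W1
/-!
ROW [TB10 W2]. (cite W1) for F of minimal size every endomorphism of M_F is nilpotent or bijective (Fitting).
PLAN. α : F.M → F.M.  Lift: α₀ : F.Q → F.Q with mkQ α₀ = α mkQ (F.Q projective), α₀ (range f) ⊆ range f, so α₁ : F.P → F.P with
f α₁ = α₀ f (F.P projective; lift through f : P → range f).  Fitting: for n large
IsCompl (ker (α₀^n)) (range (α₀^n)) and IsCompl (ker (α₁^n)) (range (α₁^n)) (`LinearMap.eventually_isCompl_ker_pow_range_pow`, needs
IsNoetherian/IsArtinian A; both from finiteness over k: `isNoetherian_of_isNoetherian_of_...`; take a common n >= 1 with Filter.Eventually.and).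
f (ker α₁^n) ⊆ ker α₀^n and f (range α₁^n) ⊆ range α₀^n because f α₁^n = α₀^n f.
adj_split gives Adj for the ker part or the range part.
Case ker part: minimality => size(ker part) >= size F, finrank (ker) <= finrank, so ker α₀^n = ⊤ (and ker α₁^n = ⊤): α₀^n = 0 so α^n = 0.
Case range part: range α₀^n = ⊤, so α₀ and α are surjective, hence bijective by finite dimension.
(size is a sum; finrank k of a submodule <= finrank k of the module (restrictScalars), equality => ⊤.)
-/
set_option autoImplicit false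
universe u
namespace TB10
open Module

section
variable {k : Type u} [Field k] {A : Type u} [Ring A] [Algebra k A]
    {P₁ P₂ : Type u} [AddCommGroup P₁] [Module A P₁] [Module k P₁] [IsScalarTower k A P₁] [Module.Finite k P₁]
    [AddCommGroup P₂] [Module A P₂] [Module k P₂] [IsScalarTower k A P₂] [Module.Finite k P₂]

theorem w2_le {X : Type u} [AddCommGroup X] [Module A X] [Module k X] [IsScalarTower k A X]
    [Module.Finite k X] (N : Submodule A X) : finrank k N ≤ finrank k X :=
  LinearMap.finrank_le_finrank_of_injective (f := N.subtype.restrictScalars k)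
    Subtype.val_injective

theorem w2_top {X : Type u} [AddCommGroup X] [Module A X] [Module k X] [IsScalarTower k A X]
    [Module.Finite k X] (N : Submodule A X) (h : finrank k X ≤ finrank k N) : N = ⊤ := by
  have h1 : finrank k N = finrank k X := le_antisymm (w2_le N) h
  have h2 : Function.Surjective (N.subtype.restrictScalars k) :=
    (LinearMap.injective_iff_surjective_of_finrank_eq_finrank h1).1 Subtype.val_injective
  rw [eq_top_iff]
  intro x _
  obtain ⟨y, hy⟩ := h2 x
  rw [← hy]
  exact y.2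

theorem w2_comm {P Q : Type u} [AddCommGroup P] [Module A P] [AddCommGroup Q] [Module A Q]
    {f : P →ₗ[A] Q} {a : Q →ₗ[A] Q} {b : P →ₗ[A] P} (h : ∀ p, f (b p) = a (f p)) (n : ℕ) (p : P) :
    f ((b ^ n) p) = (a ^ n) (f p) := by
  induction n generalizing p with
  | zero => rfl
  | succ n ih =>
    rw [pow_succ, pow_succ, Module.End.mul_apply, Module.End.mul_apply, ih, h]

theorem loc_of_minimal (hP : TwoP k A P₁ P₂) (F G : Pres k A) (h : Adj P₁ P₂ F G)
    (hmin : ∀ F' : Pres k A, Adj P₁ P₂ F' G → F.size ≤ F'.size)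
    (Y : Type u) [AddCommGroup Y] [Module A Y] [Module k Y] [IsScalarTower k A Y] [Module.Finite k Y]
    [Nontrivial Y] (hY : E0 G.f Y) (hY' : ∀ θ : G.M →ₗ[A] Y, θ = 0) : Loc A F.M := by
  intro α
  have hNQ : IsNoetherian A F.Q := isNoetherian_of_tower k inferInstance
  have hAQ : IsArtinian A F.Q := isArtinian_of_tower k inferInstance
  have hNP : IsNoetherian A F.P := isNoetherian_of_tower k inferInstance
  have hAP : IsArtinian A F.P := isArtinian_of_tower k inferInstance
  obtain ⟨α₀, hα₀⟩ := Module.projective_lifting_property (LinearMap.range F.f).mkQ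
    (α ∘ₗ (LinearMap.range F.f).mkQ) (Submodule.mkQ_surjective _)
  have h0 : ∀ q, (LinearMap.range F.f).mkQ (α₀ q) = α ((LinearMap.range F.f).mkQ q) := fun q =>
    LinearMap.congr_fun hα₀ q
  have h1 : ∀ p, (α₀ ∘ₗ F.f) p ∈ LinearMap.range F.f := by
    intro p
    rw [← Submodule.Quotient.mk_eq_zero]
    have h2 := h0 (F.f p)
    have h3 : (LinearMap.range F.f).mkQ (F.f p) = 0 := by
      rw [Submodule.mkQ_apply, Submodule.Quotient.mk_eq_zero]
      exact LinearMap.mem_range_self _ p
    rw [h3, map_zero] at h2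
    exact h2
  obtain ⟨α₁, hα₁⟩ := Module.projective_lifting_property F.f.rangeRestrict
    ((α₀ ∘ₗ F.f).codRestrict (LinearMap.range F.f) h1) F.f.surjective_rangeRestrict
  have h2 : ∀ p, F.f (α₁ p) = α₀ (F.f p) := fun p =>
    congrArg Subtype.val (LinearMap.congr_fun hα₁ p)
  obtain ⟨n, ⟨hn0, hn1⟩, hn⟩ := (((LinearMap.eventually_isCompl_ker_pow_range_pow α₀).and
    (LinearMap.eventually_isCompl_ker_pow_range_pow α₁)).and
    (Filter.eventually_ge_atTop 1)).exists
  have h3 : ∀ p ∈ LinearMap.ker (α₁ ^ n), F.f p ∈ LinearMap.ker (α₀ ^ n) := by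
    intro p hp
    rw [LinearMap.mem_ker] at hp ⊢
    rw [← w2_comm h2, hp, map_zero]
  have h4 : ∀ p ∈ LinearMap.range (α₁ ^ n), F.f p ∈ LinearMap.range (α₀ ^ n) := by
    rintro _ ⟨p, rfl⟩
    exact ⟨F.f p, (w2_comm h2 n p).symm⟩
  have h5 : ∀ q, (α ^ n) ((LinearMap.range F.f).mkQ q) = (LinearMap.range F.f).mkQ ((α₀ ^ n) q) :=
    fun q => (w2_comm h0 n q).symm
  rcases adj_split hP F G h Y hY hY' _ _ _ _ hn1 hn0 h3 h4 with h6 | h6
  · left
    have h7 : finrank k F.P + finrank k F.Q ≤
      finrank k (LinearMap.ker (α₁ ^ n)) + finrank k (LinearMap.ker (α₀ ^ n)) := hmin _ h6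
    have h8 := w2_le (k := k) (LinearMap.ker (α₁ ^ n))
    have h9 := w2_top (k := k) (LinearMap.ker (α₀ ^ n)) (by omega)
    refine ⟨n, ?_⟩
    refine LinearMap.ext fun x => ?_
    obtain ⟨q, rfl⟩ := Submodule.mkQ_surjective _ x
    rw [h5]
    have h10 : (α₀ ^ n) q = 0 := by
      rw [← LinearMap.mem_ker, h9]
      exact Submodule.mem_top
    rw [h10, map_zero]
    rfl
  · right
    have h7 : finrank k F.P + finrank k F.Q ≤
      finrank k (LinearMap.range (α₁ ^ n)) + finrank k (LinearMap.range (α₀ ^ n)) := hmin _ h6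
    have h8 := w2_le (k := k) (LinearMap.range (α₁ ^ n))
    have h9 := w2_top (k := k) (LinearMap.range (α₀ ^ n)) (by omega)
    have h10 : Function.Surjective α := by
      intro x
      obtain ⟨q, rfl⟩ := Submodule.mkQ_surjective _ x
      obtain ⟨r, hr⟩ : q ∈ LinearMap.range (α₀ ^ n) := by
        rw [h9]
        exact Submodule.mem_top
      refine ⟨(α ^ (n - 1)) ((LinearMap.range F.f).mkQ r), ?_⟩
      rw [← Module.End.mul_apply, ← pow_succ', Nat.sub_add_cancel hn, h5, hr]
    exact ⟨IsNoetherian.injective_of_surjective_endomorphism α h10, h10⟩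

end

end TB10
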