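import Pool.Agent.LibTB10.G4
import Pool.Agent.LibTB10.W2
import Pool.Agent.LibTB10.B3
import Pool.Agent.LibTB10.R1
/-!
ROW [TB10 I1]. (cite everything) the induction: the bricks generated by M_F and not generated by M_G are finitely many.
Base (ee G F = 0): at most one brick.  Step: generic_step, then (F,H) and (H,G).
-/
set_option autoImplicit false
universe u
namespace TB10
open Module

section
variable {k : Type u} [Field k] {A : Type u} [Ring A] [Algebra k A]
    {P₁ P₂ : Type u} [AddCommGroup P₁] [Module A P₁] [Module k P₁] [IsScalarTower k A P₁] [Module.Finite k P₁]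
    [AddCommGroup P₂] [Module A P₂] [Module k P₂] [IsScalarTower k A P₂] [Module.Finite k P₂]

/-- types add up in direct sums -/
theorem ty_prod {P₀ Q Q' : Type u} [AddCommGroup P₀] [Module A P₀]
    [AddCommGroup Q] [Module A Q] [Module k Q] [IsScalarTower k A Q] [Module.Finite k Q]
    [AddCommGroup Q'] [Module A Q'] [Module k Q'] [IsScalarTower k A Q'] [Module.Finite k Q'] {a a' : ℕ}
    (h : Ty k A P₀ Q a) (h' : Ty k A P₀ Q' a') : Ty k A P₀ (Q × Q') (a + a') := by
  intro X _ _ _ _ _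
  rw [← (LinearMap.coprodEquiv k (R := A) (M := Q) (M₂ := Q') (M₃ := X)).finrank_eq,
    Module.finrank_prod, h X, h' X, add_mul]

/-- at most one brick in the interval of an adjacent pair -/
theorem interval_unique (hP : TwoP k A P₁ P₂) (F G : Pres k A) (h : Adj P₁ P₂ F G) :
    ∃ (L : List (Rp k A)), L.length ≤ 1 ∧
      ∀ (X : Type u) [AddCommGroup X] [Module A X] [Module k X] [IsScalarTower k A X] [Module.Finite k X],
        IsBrick A X → Gen A F.M X → ¬ Gen A G.M X → ∃ r ∈ L, Nonempty (X ≃ₗ[A] Vm r.2) := by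
  classical
  by_cases hex : ∃ (X₀ : Type u) (_ : AddCommGroup X₀) (_ : Module A X₀) (_ : Module k X₀)
      (_ : IsScalarTower k A X₀) (_ : Module.Finite k X₀), Gen A F.M X₀ ∧ ¬ Gen A G.M X₀
  · obtain ⟨X₀, i1, i2, i3, i4, i5, h1, h2⟩ := hex
    -- a presentation of minimal size
    have hne : ∃ n, ∃ F' : Pres k A, Adj P₁ P₂ F' G ∧ F'.size = n := ⟨_, F, h, rfl⟩
    obtain ⟨F', hF', hn⟩ := Nat.find_spec hne
    have hmin : ∀ F'' : Pres k A, Adj P₁ P₂ F'' G → F'.size ≤ F''.size := fun F'' h'' => by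
      rw [hn]
      exact Nat.find_min' hne ⟨F'', h'', rfl⟩
    have hgen : ∀ (X : Type u) [AddCommGroup X] [Module A X] [Module k X] [IsScalarTower k A X]
        [Module.Finite k X], Gen A F.M X → Gen A F'.M X := fun X _ _ _ _ _ hX =>
      (E0_iff_gen hP F' G hF' X).1 ((E0_iff_gen hP F G h X).2 hX)
    have hg : E0 G.f (G.Q ⧸ LinearMap.range G.f) := (rigid_iff_E0 G.f).1 h.2.1
    have hnt : Nontrivial (X₀ ⧸ tr A G.M X₀) := by
      rw [Submodule.Quotient.nontrivial_iff]
      exact h2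
    have h3 : Gen A F'.M (X₀ ⧸ tr A G.M X₀) :=
      gen_of_surj_gen (hgen X₀ h1) (tr A G.M X₀).mkQ (Submodule.mkQ_surjective _)
    have hloc : Loc A F'.M := loc_of_minimal hP F' G hF' hmin (X₀ ⧸ tr A G.M X₀)
      ((E0_iff_gen hP F' G hF' _).2 h3) (fun θ => hom_quot_tr_eq_zero (k := k) G.f hg θ)
    obtain ⟨ρ, ⟨e⟩⟩ := exists_rep (k := k) (A := A) (F'.M ⧸ RM A F'.M)
    refine ⟨[⟨_, ρ⟩], le_refl _, fun X _ _ _ _ _ hX h4 h5 => ?_⟩
    obtain ⟨e'⟩ := brick_iso (k := k) G.f hg hloc (fun X _ _ _ _ _ => E0_iff_gen hP F' G hF' X) hX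
      (hgen X h4) h5
    exact ⟨_, List.mem_singleton.2 rfl, ⟨e'.trans e⟩⟩
  · refine ⟨[], Nat.zero_le _, fun X _ _ _ _ _ _ h1 h2 => ?_⟩
    exact absurd ⟨X, inferInstance, inferInstance, inferInstance, inferInstance, inferInstance, h1, h2⟩ hex

theorem i1_cov_mono {D D' : ℕ} {L : List (Rp k A)} (h : Cov k A D L) (hD : D' ≤ D) : Cov k A D' L :=
  fun X _ _ _ _ _ hX hd => h X hX (hd.trans hD)

theorem interval_finite [Infinite k] (hP : TwoP k A P₁ P₂) (D : ℕ) (L₀ : List (Rp k A)) (hL₀ : Cov k A D L₀)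
    (e : ℕ) : ∀ (F G : Pres k A), Rigid F.f → Rigid G.f → EE F.f G.f → Det1 P₁ P₂ F G →
      ee k G.f F.f ≤ e → 2 ^ e * (finrank k F.Q + finrank k G.Q) ≤ D →
    ∃ (L : List (Rp k A)), L.length ≤ 2 ^ e ∧
      ∀ (X : Type u) [AddCommGroup X] [Module A X] [Module k X] [IsScalarTower k A X] [Module.Finite k X],
        IsBrick A X → Gen A F.M X → ¬ Gen A G.M X → ∃ r ∈ L, Nonempty (X ≃ₗ[A] Vm r.2) := by
  induction e with
  | zero =>
    intro F G hF hG _ hD he _
    have h1 : EE G.f F.f := (ee_eq_zero_iff G.f F.f).1 (Nat.le_zero.1 he)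
    rw [pow_zero]
    exact interval_unique hP F G ⟨hF, hG, h1, hD⟩
  | succ e ih =>
    intro F G hF hG hFG hD he hs
    have hpow : 2 ^ (e + 1) = 2 * 2 ^ e := pow_succ' 2 e
    have hpos : 0 < 2 ^ e := by positivity
    by_cases he' : ee k G.f F.f ≤ e
    · obtain ⟨L, hL, h1⟩ := ih F G hF hG hFG hD he' (by
        rw [hpow, mul_assoc] at hs
        omega)
      exact ⟨L, hL.trans (by omega), h1⟩
    · have h0 : ee k F.f G.f = 0 := (ee_eq_zero_iff F.f G.f).2 hFG
      have hfr : finrank k (F.Q × G.Q) = finrank k F.Q + finrank k G.Q := Module.finrank_prod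
      have hle : finrank k (F.Q × G.Q) ≤ D := by
        rw [hfr]
        refine le_trans ?_ hs
        exact Nat.le_mul_of_pos_left _ (by positivity)
      obtain ⟨h, hr, e1, e2, _, _, e3, _⟩ := generic_step (k := k) F.f G.f hF hG L₀
        (i1_cov_mono hL₀ hle)
      obtain ⟨e3, e4⟩ := e3 (by omega)
      have e5 : EE F.f h := (ee_eq_zero_iff (k := k) F.f h).1 (by omega)
      have e6 : EE h G.f := (ee_eq_zero_iff (k := k) h G.f).1 (by omega)
      obtain ⟨a, b, a', b', t1, t2, t3, t4, t5⟩ := hD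
      have d1 : Det1 P₁ P₂ F (F.sum G h) :=
        ⟨a, b, a + a', b + b', t1, t2, ty_prod t1 t3, ty_prod t2 t4, by rw [mul_add, t5]; ring⟩
      have d2 : Det1 P₁ P₂ (F.sum G h) G :=
        ⟨a + a', b + b', a', b', ty_prod t1 t3, ty_prod t2 t4, t3, t4, by rw [add_mul, t5]; ring⟩
      have s1 : 2 ^ e * (finrank k F.Q + finrank k (F.Q × G.Q)) ≤ D := by
        refine le_trans ?_ hs
        rw [hfr, hpow, mul_assoc, mul_left_comm]
        exact Nat.mul_le_mul_left _ (by omega)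
      have s2 : 2 ^ e * (finrank k (F.Q × G.Q) + finrank k G.Q) ≤ D := by
        refine le_trans ?_ hs
        rw [hfr, hpow, mul_assoc, mul_left_comm]
        exact Nat.mul_le_mul_left _ (by omega)
      obtain ⟨L₁, hL₁, g₁⟩ := ih F (F.sum G h) hF hr e5 d1 (by
        show ee k h F.f ≤ e
        omega) s1
      obtain ⟨L₂, hL₂, g₂⟩ := ih (F.sum G h) G hr hG e6 d2 (by
        show ee k G.f h ≤ e
        omega) s2
      refine ⟨L₁ ++ L₂, ?_, fun X _ _ _ _ _ hX x1 x2 => ?_⟩
      · rw [List.length_append]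
        omega
      · by_cases hx : Gen A (F.sum G h).M X
        · obtain ⟨r, hr, hr'⟩ := g₂ X hX hx x2
          exact ⟨r, List.mem_append_right _ hr, hr'⟩
        · obtain ⟨r, hr, hr'⟩ := g₁ X hX x1 hx
          exact ⟨r, List.mem_append_left _ hr, hr'⟩

end

end TB10
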