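import Pool.Agent.LibTB10.Defs
/-!
ROW [TB10 L1] ONLY MATHLIB.  rank(T + cS) >= rank T for all but finitely many c.
PLAN. r := finrank (range T).  Choose v : Fin r → V with (T (v i)) linearly independent (a basis of range T).
Extend: there is π : W →ₗ[k] (Fin r → k) with π (T (v i)) = Pi.single i 1 (left inverse on the independent family:
LinearIndependent has a left inverse / `Basis.extend`, `LinearMap.exists_extend`, or
`LinearMap.exists_leftInverse_of_injective` applied to Finsupp/Fintype.linearCombination).  Put
p := det (Matrix.of fun i j => C (π (T (v j)) i) + X * C (π (S (v j)) i)) : k[X].  p.eval 0 = det 1 = 1, so p ≠ 0 and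
{c | p.eval c = 0} is finite (Polynomial roots).  If p.eval c ≠ 0 the vectors (T + cS)(v j) are linearly independent
(their images under π have nonzero determinant), so finrank (range (T + c • S)) >= r.
-/
set_option autoImplicit false
universe u
namespace TB10
open Module

theorem finite_rank_lt {k V W : Type u} [Field k] [AddCommGroup V] [Module k V] [AddCommGroup W] [Module k W]
    [Module.Finite k V] [Module.Finite k W] (T S : V →ₗ[k] W) :
    {c : k | finrank k (LinearMap.range (T + c • S)) < finrank k (LinearMap.range T)}.Finite := by
  classical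
  set r := finrank k (LinearMap.range T) with hr
  let b : Basis (Fin r) k (LinearMap.range T) := finBasis k (LinearMap.range T)
  have hv : ∀ i, ∃ v, T v = (b i : W) := fun i => (b i).2
  choose v hv using hv
  let f : (Fin r → k) →ₗ[k] W := (LinearMap.range T).subtype ∘ₗ (b.equivFun.symm : (Fin r → k) →ₗ[k] _)
  have hf : LinearMap.ker f = ⊥ := by
    rw [LinearMap.ker_eq_bot]
    exact (Submodule.injective_subtype _).comp b.equivFun.symm.injective
  obtain ⟨π, hπ⟩ := f.exists_leftInverse_of_injective hf
  have hfi : ∀ i, f (Pi.single i 1) = T (v i) := by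
    intro i
    rw [hv]
    change ((b.equivFun.symm (Pi.single i 1) : LinearMap.range T) : W) = _
    rw [Basis.equivFun_symm_apply]
    simp [Pi.single_apply]
  have hπi : ∀ i, π (T (v i)) = Pi.single i 1 := by
    intro i
    rw [← hfi]
    exact LinearMap.congr_fun hπ _
  let p : Polynomial k := Matrix.det (Matrix.of fun i j : Fin r =>
    Polynomial.C (π (T (v j)) i) + Polynomial.X * Polynomial.C (π (S (v j)) i))
  have hp : ∀ c, p.eval c = Matrix.det (Matrix.of fun i j : Fin r => π ((T + c • S) (v j)) i) := by
    intro c
    change (Polynomial.evalRingHom c) p = _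
    rw [RingHom.map_det]
    congr 1
    ext i j
    change Polynomial.eval c (Polynomial.C (π (T (v j)) i) +
      Polynomial.X * Polynomial.C (π (S (v j)) i)) = π ((T + c • S) (v j)) i
    rw [Polynomial.eval_add, Polynomial.eval_mul, Polynomial.eval_C, Polynomial.eval_C,
      Polynomial.eval_X, LinearMap.add_apply, LinearMap.smul_apply, map_add, map_smul]
    rfl
  have hp0 : p ≠ 0 := by
    intro h0
    have h1 := hp 0
    rw [h0] at h1
    have h2 : (Matrix.of fun i j : Fin r => π ((T + (0 : k) • S) (v j)) i) = 1 := by
      ext i j
      simp [hπi, Matrix.one_apply, Pi.single_apply]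
    rw [h2, Matrix.det_one] at h1
    simp at h1
  refine (Polynomial.finite_setOfPred_isRoot hp0).subset fun c hc => ?_
  by_contra hroot
  have hne : Matrix.det (Matrix.of fun i j : Fin r => π ((T + c • S) (v j)) i) ≠ 0 := by
    rw [← hp]
    exact hroot
  have hli : LinearIndependent k (fun j : Fin r =>
      (⟨(T + c • S) (v j), LinearMap.mem_range_self _ _⟩ : LinearMap.range (T + c • S))) := by
    refine LinearIndependent.of_comp (π ∘ₗ (LinearMap.range (T + c • S)).subtype) ?_
    exact Matrix.linearIndependent_cols_of_det_ne_zero hne
  have h4 := hli.fintype_card_le_finrank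
  rw [Fintype.card_fin] at h4
  exact absurd hc (not_lt.2 h4)

end TB10
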