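import Pool.Agent.LibTB10.L1
/-!
ROW [TB10 L2]. lower semicontinuity of the rank of an affine family.  (cite L1.finite_rank_lt)
PLAN. Fix y y'.  L (y + c • (y' - y)) = L y + c • (L y' - L y) by hL; apply finite_rank_lt (L y) (L y' - L y).
-/
set_option autoImplicit false
universe u
namespace TB10
open Module

theorem lsc_rank {k V W Y : Type u} [Field k] [AddCommGroup V] [Module k V] [AddCommGroup W] [Module k W]
    [Module.Finite k V] [Module.Finite k W] [AddCommGroup Y] [Module k Y] (L : Y → (V →ₗ[k] W))
    (hL : ∀ (y y' : Y) (c : k), L (y + c • (y' - y)) = L y + c • (L y' - L y)) :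
    LSC k (fun y => finrank k (LinearMap.range (L y))) := by
  intro y y'
  refine (finite_rank_lt (L y) (L y' - L y)).subset ?_
  intro c hc
  have hc' : finrank k (LinearMap.range (L (y + c • (y' - y)))) <
      finrank k (LinearMap.range (L y)) := hc
  rw [hL] at hc'
  exact hc'

end TB10
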