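import Pool.Agent.LibTB10.Defs
/-!
ROW [TB10 L3] ONLY MATHLIB. simultaneous maximum of finitely many bounded functions which are lower semicontinuous
along lines (k infinite).
PLAN. Induction over a Finset s of ι (Finset.induction_on Finset.univ, Fintype.ofFinite): claim
∃ y, ∀ i ∈ s, ∀ y', ρ i y' ≤ ρ i y.  Step: y good for s; y' with ρ j y' maximal (bounded: Nat.findGreatest or
`exists_max` via BddAbove of the range; e.g. `Nat.sSup_mem`).  All but finitely many c satisfy: for i ∈ s
ρ i (y + c • (y' - y)) ≥ ρ i y (h i y y'), and ρ j (y + c • (y' - y)) ≥ ρ j y': y + c•(y'-y) = y' + (1-c) • (y - y'), use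
h j y' y and the injection c ↦ 1 - c (Set.Finite.preimage).  k is infinite: pick c outside of the finite union
(Set.Finite.exists_notMem / Set.Infinite).  Then the point works.
-/
set_option autoImplicit false
universe u
namespace TB10
open Module

private theorem l3_max {Y : Type u} [Nonempty Y] (f : Y → ℕ) (B : ℕ) (hB : ∀ y, f y ≤ B) :
    ∃ y, ∀ y', f y' ≤ f y := by
  classical
  obtain ⟨y₀⟩ := ‹Nonempty Y›
  obtain ⟨y, hy⟩ := Nat.findGreatest_spec (P := fun n => ∃ y, f y = n) (hB y₀) ⟨y₀, rfl⟩
  refine ⟨y, fun y' => ?_⟩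
  rw [hy]
  exact Nat.le_findGreatest (hB y') ⟨y', rfl⟩

theorem exists_simul_max {k Y : Type u} [Field k] [Infinite k] [AddCommGroup Y] [Module k Y]
    {ι : Type*} [Finite ι] (ρ : ι → Y → ℕ) (hb : ∀ i, ∃ B : ℕ, ∀ y, ρ i y ≤ B) (h : ∀ i, LSC k (ρ i)) :
    ∃ y, ∀ i y', ρ i y' ≤ ρ i y := by
  classical
  have key : ∀ s : Finset ι, ∃ y, ∀ i ∈ s, ∀ y', ρ i y' ≤ ρ i y := by
    intro s
    induction s using Finset.induction_on with
    | empty => exact ⟨0, by simp⟩
    | insert j s _ ih =>
      obtain ⟨y, hy⟩ := ih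
      obtain ⟨B, hB⟩ := hb j
      obtain ⟨y', hy'⟩ := l3_max (ρ j) B hB
      have hfin1 : (⋃ i ∈ (s : Set ι), {c : k | ρ i (y + c • (y' - y)) < ρ i y}).Finite :=
        s.finite_toSet.biUnion fun i _ => h i y y'
      have hfin2 : ((fun c : k => 1 - c) ⁻¹' {c : k | ρ j (y' + c • (y - y')) < ρ j y'}).Finite := by
        apply (h j y' y).preimage
        intro a _ b _ hab
        simp only at hab
        have : a = b := by
          have h1 : 1 - (1 - a) = 1 - (1 - b) := by rw [hab]
          simpa using h1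
        exact this
      obtain ⟨c, hc⟩ := (hfin1.union hfin2).infinite_compl.nonempty
      rw [Set.mem_compl_iff, Set.mem_union, not_or] at hc
      obtain ⟨hc1, hc2⟩ := hc
      refine ⟨y + c • (y' - y), ?_⟩
      intro i hi w
      rw [Finset.mem_insert] at hi
      rcases hi with rfl | hi
      · have h1 : y + c • (y' - y) = y' + (1 - c) • (y - y') := by
          rw [sub_smul, one_smul, smul_sub, smul_sub]
          abel
        have h2 : ¬ (ρ i (y' + (1 - c) • (y - y')) < ρ i y') := hc2
        rw [h1]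
        exact (hy' w).trans (not_lt.1 h2)
      · have h2 : ¬ (ρ i (y + c • (y' - y)) < ρ i y) := by
          intro h3
          apply hc1
          rw [Set.mem_iUnion₂]
          exact ⟨i, hi, h3⟩
        exact (hy i hi w).trans (not_lt.1 h2)
  have _ := Fintype.ofFinite ι
  obtain ⟨y, hy⟩ := key Finset.univ
  exact ⟨y, fun i y' => hy i (Finset.mem_univ i) y'⟩

end TB10
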