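import Pool.Agent.LibTB10.L1
/-!
ROW [TB10 L4] (Lemma 1 of the page) if rank(T + cS) <= rank T for all c (k infinite) then S (ker T) ⊆ range T.
PLAN. Let v ∈ ker T.  Consider T' , S' : V →ₗ W ... e.g. direct: suppose S v ∉ range T.  Consider the maps
T₁, S₁ : (V × k) →ₗ[k] W, T₁ (w, t) = T w + t • S v, S₁ (w,t) = S w.  finrank (range T₁) = finrank (range T) + 1
(range T₁ = range T ⊔ span {S v}).  By finite_rank_lt T₁ S₁ and k infinite there is c ≠ 0 with
finrank (range (T₁ + c • S₁)) >= finrank (range T) + 1.  But range (T₁ + c • S₁) ≤ range (T + c • S):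
(T₁ + c S₁)(w,t) = (T + cS) w + t • S v and S v = (T + c S)(c⁻¹ • v).  Contradiction with the hypothesis.
(`Submodule.finrank_sup_add_finrank_inf_eq`, `finrank_span_singleton`, `Submodule.finrank_mono`.)
-/
set_option autoImplicit false
universe u
namespace TB10
open Module

theorem map_ker_le_range {k V W : Type u} [Field k] [Infinite k] [AddCommGroup V] [Module k V] [AddCommGroup W]
    [Module k W] [Module.Finite k V] [Module.Finite k W] (T S : V →ₗ[k] W)
    (h : ∀ c : k, finrank k (LinearMap.range (T + c • S)) ≤ finrank k (LinearMap.range T))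
    (v : V) (hv : T v = 0) : S v ∈ LinearMap.range T := by
  by_contra hS
  let T₁ : (V × k) →ₗ[k] W := T.coprod (LinearMap.toSpanSingleton k W (S v))
  let S₁ : (V × k) →ₗ[k] W := S ∘ₗ LinearMap.fst k V k
  have h0 : S v ≠ 0 := fun h0 => hS (h0 ▸ Submodule.zero_mem _)
  have hdisj : LinearMap.range T ⊓ Submodule.span k {S v} = ⊥ :=
    disjoint_iff.1 ((Submodule.disjoint_span_singleton' h0).2 hS)
  have h1 : finrank k (LinearMap.range T₁) = finrank k (LinearMap.range T) + 1 := by
    have h2 := Submodule.finrank_sup_add_finrank_inf_eq (LinearMap.range T) (Submodule.span k {S v})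
    rw [hdisj, finrank_bot, add_zero, finrank_span_singleton h0] at h2
    rw [← h2, LinearMap.range_coprod, LinearMap.range_toSpanSingleton]
  have hfin := (finite_rank_lt T₁ S₁).insert 0
  obtain ⟨c, hc⟩ := hfin.exists_notMem
  have hc0 : c ≠ 0 := fun h => hc (Set.mem_insert_iff.2 (Or.inl h))
  have hc1 : ¬ finrank k (LinearMap.range (T₁ + c • S₁)) < finrank k (LinearMap.range T₁) :=
    fun h => hc (Set.mem_insert_iff.2 (Or.inr h))
  have h3 : LinearMap.range (T₁ + c • S₁) ≤ LinearMap.range (T + c • S) := by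
    rintro _ ⟨⟨w, t⟩, rfl⟩
    refine ⟨w + (t * c⁻¹) • v, ?_⟩
    simp only [T₁, S₁, LinearMap.add_apply, LinearMap.smul_apply, map_add, map_smul, hv,
      LinearMap.coprod_apply, LinearMap.toSpanSingleton_apply, LinearMap.comp_apply,
      LinearMap.fst_apply, zero_add, smul_smul]
    rw [mul_assoc, inv_mul_cancel₀ hc0, mul_one]
    abel
  have h4 := Submodule.finrank_mono h3
  have h5 := h c
  omega

end TB10
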