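import Pool.Agent.LibTB10.Defs
/-!
ROW [TB10 P1]. projective covers as left ideals (only Mathlib).
-/
set_option autoImplicit false
universe u
namespace TB10
open Module

namespace P1

/-- `P` is a direct summand of `A` with a nonzero map to `S`. -/
def Wc (A : Type u) [Ring A] (S : Type u) [AddCommGroup S] [Module A S] (P : Submodule A A) : Prop :=
  (∃ pr : A →ₗ[A] P, pr ∘ₗ P.subtype = LinearMap.id) ∧ ∃ π : P →ₗ[A] S, π ≠ 0

theorem Wc_top {A : Type u} [Ring A] (S : Type u) [AddCommGroup S] [Module A S] [Nontrivial S] :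
    Wc A S ⊤ := by
  obtain ⟨s, hs⟩ := exists_ne (0 : S)
  refine ⟨⟨(Submodule.topEquiv (R := A) (M := A)).symm.toLinearMap, ?_⟩,
    (LinearMap.toSpanSingleton A S s) ∘ₗ (Submodule.topEquiv (R := A) (M := A)).toLinearMap, ?_⟩
  · ext x
    rfl
  · intro h0
    apply hs
    have := LinearMap.congr_fun h0 ⟨1, trivial⟩
    simpa using this

theorem Wc_proj {A : Type u} [Ring A] {S : Type u} [AddCommGroup S] [Module A S] {P : Submodule A A}
    (h : Wc A S P) : Module.Projective A P := by
  obtain ⟨⟨pr, hpr⟩, -⟩ := h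
  exact Module.Projective.of_split P.subtype pr hpr

theorem key {k : Type u} [Field k] {A : Type u} [Ring A] [Algebra k A]
    [Module.Finite k A] {S : Type u} [AddCommGroup S] [Module A S]
    (P : Submodule A A) (hW : Wc A S P) (hmin : ∀ P' : Submodule A A, Wc A S P' → finrank k P ≤ finrank k P')
    (π : P →ₗ[A] S) (hπ : π ≠ 0) (h : P →ₗ[A] P) (hh : π ∘ₗ h = π) : Function.Surjective h := by
  haveI : IsNoetherian A P := isNoetherian_of_tower k (inferInstance : IsNoetherian k P)
  haveI : IsArtinian A P := isArtinian_of_tower k (inferInstance : IsArtinian k P)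
  obtain ⟨⟨pr, hpr⟩, -⟩ := hW
  obtain ⟨n, hn⟩ := Filter.eventually_atTop.mp (LinearMap.eventually_isCompl_ker_pow_range_pow (h : Module.End A P))
  have hc := hn (n + 1) (Nat.le_succ n)
  set R : Submodule A P := LinearMap.range ((h : Module.End A P) ^ (n + 1)) with hR
  have hpow : ∀ m : ℕ, π ∘ₗ ((h : Module.End A P) ^ m) = π := by
    intro m
    induction m with
    | zero => ext x; rfl
    | succ m ih =>
      rw [pow_succ', Module.End.mul_eq_comp, ← LinearMap.comp_assoc, hh, ih]
  let e : R ≃ₗ[A] R.map P.subtype := Submodule.equivMapOfInjective P.subtype P.injective_subtype R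
  have hWR : Wc A S (R.map P.subtype) := by
    refine ⟨⟨e.toLinearMap ∘ₗ (Submodule.projectionOnto R _ hc.symm) ∘ₗ pr, ?_⟩,
      π ∘ₗ R.subtype ∘ₗ e.symm.toLinearMap, ?_⟩
    · apply LinearMap.ext
      intro x
      obtain ⟨y, rfl⟩ := e.surjective x
      have h1 : pr ((e y : R.map P.subtype) : A) = (y : P) := by
        have h2 : ((e y : R.map P.subtype) : A) = P.subtype (y : P) := rfl
        rw [h2]
        exact LinearMap.congr_fun hpr (y : P)
      simp only [LinearMap.comp_apply, Submodule.subtype_apply, LinearEquiv.coe_coe, LinearMap.id_apply]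
      rw [h1, Submodule.projectionOnto_apply_left]
    · intro h0
      apply hπ
      rw [← hpow (n + 1)]
      ext x
      have := LinearMap.congr_fun h0 (e ⟨((h : Module.End A P) ^ (n + 1)) x, LinearMap.mem_range_self _ x⟩)
      simpa using this
  have h1 := hmin _ hWR
  have h2 : finrank k (R.map P.subtype) = finrank k R :=
    (LinearEquiv.finrank_eq (e.restrictScalars k)).symm
  have h3 : finrank k (R.restrictScalars k) = finrank k P := by
    apply le_antisymm (Submodule.finrank_le _)
    calc finrank k P ≤ finrank k (R.map P.subtype) := h1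
      _ = finrank k R := h2
      _ = finrank k (R.restrictScalars k) := rfl
  have h4 : R.restrictScalars k = ⊤ := Submodule.eq_top_of_finrank_eq h3
  intro x
  have hx : x ∈ R.restrictScalars k := by rw [h4]; trivial
  obtain ⟨y, hy⟩ := hx
  refine ⟨((h : Module.End A P) ^ n) y, ?_⟩
  rw [← hy, pow_succ']
  rfl

/-- a submodule of `P` on which `π` is nonzero is everything. -/
theorem top {k : Type u} [Field k] {A : Type u} [Ring A] [Algebra k A]
    [Module.Finite k A] {S : Type u} [AddCommGroup S] [Module A S] [IsSimpleModule A S]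
    (P : Submodule A A) (hW : Wc A S P) (hmin : ∀ P' : Submodule A A, Wc A S P' → finrank k P ≤ finrank k P')
    (π : P →ₗ[A] S) (hπ : π ≠ 0) (K : Submodule A P) (hK : π ∘ₗ K.subtype ≠ 0) : K = ⊤ := by
  haveI := Wc_proj hW
  have hs : Function.Surjective (π ∘ₗ K.subtype) := LinearMap.surjective_of_ne_zero hK
  obtain ⟨q, hq⟩ := Module.projective_lifting_property (π ∘ₗ K.subtype) π hs
  have := key P hW hmin π hπ (K.subtype ∘ₗ q) (by rw [← LinearMap.comp_assoc]; exact hq)
  rw [eq_top_iff]
  intro x _
  obtain ⟨y, rfl⟩ := this x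
  exact (q y).2

/-- Schur. -/
theorem schur {k : Type u} [Field k] [IsAlgClosed k] {A : Type u} [Ring A] [Algebra k A]
    (S : Type u) [AddCommGroup S] [Module A S] [Module k S] [IsScalarTower k A S]
    [Module.Finite k S] [IsSimpleModule A S] (c : S →ₗ[A] S) : ∃ l : k, c = l • LinearMap.id := by
  haveI : Nontrivial S := IsSimpleModule.nontrivial A S
  obtain ⟨l, hl⟩ := Module.End.exists_eigenvalue (K := k) (V := S) (c.restrictScalars k)
  obtain ⟨v, hv⟩ := hl.exists_hasEigenvector
  refine ⟨l, ?_⟩
  by_contra hne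
  have hne' : c - l • LinearMap.id ≠ 0 := sub_ne_zero.mpr hne
  have hb := LinearMap.bijective_of_ne_zero hne'
  apply hv.2
  apply hb.1
  rw [map_zero]
  have := hv.apply_eq_smul
  simp only [LinearMap.sub_apply, LinearMap.smul_apply, LinearMap.id_apply]
  rw [sub_eq_zero]
  exact this

end P1

open P1 in
theorem exists_projective_cover {k : Type u} [Field k] [IsAlgClosed k] {A : Type u} [Ring A] [Algebra k A]
    [Module.Finite k A] (S : Type u) [AddCommGroup S] [Module A S] [Module k S] [IsScalarTower k A S]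
    [Module.Finite k S] [IsSimpleModule A S] :
    ∃ P : Submodule A A, Module.Projective A P ∧ finrank k (P →ₗ[A] S) = 1 ∧
      ∀ (S' : Type u) [AddCommGroup S'] [Module A S'] [Module k S'] [IsScalarTower k A S'] [Module.Finite k S']
        [IsSimpleModule A S'], IsEmpty (S ≃ₗ[A] S') → ∀ h : P →ₗ[A] S', h = 0 := by
  classical
  haveI : Nontrivial S := IsSimpleModule.nontrivial A S
  have hex : ∃ n : ℕ, ∃ P : Submodule A A, Wc A S P ∧ finrank k P = n := ⟨_, ⊤, Wc_top S, rfl⟩
  obtain ⟨P, hW, hP⟩ := Nat.find_spec hex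
  have hmin : ∀ P' : Submodule A A, Wc A S P' → finrank k P ≤ finrank k P' := by
    intro P' hP'
    rw [hP]
    exact Nat.find_min' hex ⟨P', hP', rfl⟩
  obtain ⟨π, hπ⟩ := hW.2
  have hπs : Function.Surjective π := LinearMap.surjective_of_ne_zero hπ
  -- a nonzero map to a simple module divides π
  have hdiv : ∀ (S' : Type u) [AddCommGroup S'] [Module A S'] [IsSimpleModule A S'] (h : P →ₗ[A] S'), h ≠ 0 →
      ∃ c : S' →ₗ[A] S, c ∘ₗ h = π := by
    intro S' _ _ _ h hh
    have hs : Function.Surjective h := LinearMap.surjective_of_ne_zero hh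
    have hle : LinearMap.ker h ≤ LinearMap.ker π := by
      by_contra hcon
      apply hh
      have : LinearMap.ker h = ⊤ := by
        apply top P hW hmin π hπ
        intro h0
        apply hcon
        intro x hx
        exact LinearMap.congr_fun h0 ⟨x, hx⟩
      exact LinearMap.ker_eq_top.mp this
    refine ⟨((LinearMap.ker h).liftQ π hle) ∘ₗ (h.quotKerEquivOfSurjective hs).symm.toLinearMap, ?_⟩
    ext x
    simp only [LinearMap.comp_apply, LinearEquiv.coe_coe]
    have : (h.quotKerEquivOfSurjective hs).symm (h x) = Submodule.Quotient.mk x := by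
      rw [LinearEquiv.symm_apply_eq]
      rfl
    rw [this]
    rfl
  refine ⟨P, Wc_proj hW, ?_, ?_⟩
  · rw [finrank_eq_one_iff']
    refine ⟨π, hπ, ?_⟩
    intro w
    by_cases hw : w = 0
    · exact ⟨0, by rw [hw, zero_smul]⟩
    · obtain ⟨c, hc⟩ := hdiv S w hw
      obtain ⟨l, hl⟩ := schur (k := k) S c
      have hl0 : l ≠ 0 := by
        rintro rfl
        apply hπ
        rw [← hc, hl, zero_smul, LinearMap.zero_comp]
      refine ⟨l⁻¹, ?_⟩
      rw [← hc, hl, LinearMap.smul_comp, LinearMap.id_comp, smul_smul, inv_mul_cancel₀ hl0, one_smul]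
  · intro S' _ _ _ _ _ _ hemp h
    by_contra hh
    obtain ⟨c, hc⟩ := hdiv S' h hh
    have hc0 : c ≠ 0 := by
      rintro rfl
      apply hπ
      rw [← hc, LinearMap.zero_comp]
    have hb := LinearMap.bijective_of_ne_zero hc0
    exact hemp.false (LinearEquiv.ofBijective c hb).symm

end TB10
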