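import Pool.Agent.LibTB10.Defs
/-!
ROW [TB10 T3] ONLY MATHLIB. the two dimension inequalities.
PLAN. hom_le_of_E0: pre k f X : Hom(Q,X) → Hom(P,X) is surjective (E0), so finrank Hom(P,X) <= finrank Hom(Q,X)
(`LinearMap.finrank_le_finrank_of_surjective`).
hom_ge_of_zero: pre k f X is injective: q ∘ f = 0 means q factors through Q ⧸ range f (`Submodule.liftQ`), so q = 0.
(`LinearMap.finrank_le_finrank_of_injective`).  hom_eq: both.
-/
set_option autoImplicit false
universe u
namespace TB10
open Module

section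
variable {k : Type u} [Field k] {A : Type u} [Ring A] [Algebra k A]
    {P Q : Type u} [AddCommGroup P] [Module A P] [Module k P] [IsScalarTower k A P] [Module.Finite k P]
    [AddCommGroup Q] [Module A Q] [Module k Q] [IsScalarTower k A Q] [Module.Finite k Q]
    {X : Type u} [AddCommGroup X] [Module A X] [Module k X] [IsScalarTower k A X] [Module.Finite k X]

theorem hom_le_of_E0 (f : P →ₗ[A] Q) (h : E0 f X) :
    finrank k (P →ₗ[A] X) ≤ finrank k (Q →ₗ[A] X) := by
  have hs : Function.Surjective (pre k f X) := fun x => h x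
  have h1 : LinearMap.range (pre k f X) = ⊤ := LinearMap.range_eq_top.2 hs
  have h2 := LinearMap.finrank_range_le (pre k f X)
  rw [h1, finrank_top] at h2
  exact h2

theorem hom_ge_of_zero (f : P →ₗ[A] Q) (h : ∀ θ : (Q ⧸ LinearMap.range f) →ₗ[A] X, θ = 0) :
    finrank k (Q →ₗ[A] X) ≤ finrank k (P →ₗ[A] X) := by
  apply LinearMap.finrank_le_finrank_of_injective (f := pre k f X)
  rw [← LinearMap.ker_eq_bot, LinearMap.ker_eq_bot']
  intro q hq
  have hq' : q ∘ₗ f = 0 := hq
  have hle : LinearMap.range f ≤ LinearMap.ker q := by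
    rintro _ ⟨p, rfl⟩
    rw [LinearMap.mem_ker]
    exact LinearMap.congr_fun hq' p
  have h1 := h ((LinearMap.range f).liftQ q hle)
  ext x
  have h2 := LinearMap.congr_fun h1 (Submodule.Quotient.mk x)
  rw [Submodule.liftQ_apply] at h2
  exact h2

end

end TB10
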