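import Pool.Agent.LibTB10.A3
import Pool.Agent.LibTB10.T2
import Pool.Agent.LibTB10.T3
/-!
ROW [TB10 S2]. (cite A3, T2, T3) Step 2 of the page: F, G adjacent => {X : E(G,X) = 0} = modules generated by M_F.
PLAN. (⊇) E0 G.f F.M by EE_iff_E0 (EE G.f F.f), then E0_of_gen.
(⊆) E0 G.f X; t := tr A F.M X, X' := X ⧸ t.  E0 G.f X' (gen_of_surj_gen-free: lift through mkQ, or use E0_of_gen with M = X, gen_self,
gen_of_surj_gen).  All maps F.M → X' vanish (hom_quot_tr_eq_zero with rigid_iff_E0).  So with d₁ = finrank Hom(P₁,X'), d₂ = finrank Hom(P₂,X'):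
 b' d₂ <= a' d₁ (hom_le_of_E0 G.f, Ty), a d₁ <= b d₂ (hom_ge_of_zero F.f, Ty), a b' = a' b + 1.
 Then d₁ = d₁(a b' - a' b) <= 0: a b' d₁ <= b b' d₂ <= a' b d₁, and a b' d₂ <= a a' d₁ <= a' b d₂.  So d₁ = d₂ = 0 (nlinarith).
 finrank Hom(Pᵢ,X') = 0 => all maps Pᵢ → X' are zero (`Module.finrank_zero_iff`, instFinHom), so X' is a subsingleton (TwoP.faithful), t = ⊤.
 P₁, P₂ must be finite over k for instFinHom.
-/
set_option autoImplicit false
universe u
namespace TB10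
open Module

section
variable {k : Type u} [Field k] {A : Type u} [Ring A] [Algebra k A]
    {P₁ P₂ : Type u} [AddCommGroup P₁] [Module A P₁] [Module k P₁] [IsScalarTower k A P₁] [Module.Finite k P₁]
    [AddCommGroup P₂] [Module A P₂] [Module k P₂] [IsScalarTower k A P₂] [Module.Finite k P₂]

theorem E0_iff_gen (hP : TwoP k A P₁ P₂) (F G : Pres k A) (h : Adj P₁ P₂ F G)
    (X : Type u) [AddCommGroup X] [Module A X] [Module k X] [IsScalarTower k A X] [Module.Finite k X] :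
    E0 G.f X ↔ Gen A F.M X := by
  obtain ⟨hF, _, hGF, a, b, a', b', hFQ, hFP, hGQ, hGP, hdet⟩ := h
  constructor
  · intro hX
    set t := tr A F.M X with ht
    have hE : E0 G.f (X ⧸ t) := by
      intro g
      obtain ⟨g', hg'⟩ := Module.projective_lifting_property t.mkQ g t.mkQ_surjective
      obtain ⟨q, hq⟩ := hX g'
      exact ⟨t.mkQ ∘ₗ q, by rw [LinearMap.comp_assoc, hq, hg']⟩
    have hz : ∀ θ : (F.Q ⧸ LinearMap.range F.f) →ₗ[A] (X ⧸ t), θ = 0 := fun θ =>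
      hom_quot_tr_eq_zero (k := k) F.f ((rigid_iff_E0 F.f).1 hF) θ
    have h1 := hom_le_of_E0 (k := k) G.f hE
    have h2 := hom_ge_of_zero (k := k) F.f hz
    rw [hGP (X ⧸ t), hGQ (X ⧸ t)] at h1
    rw [hFQ (X ⧸ t), hFP (X ⧸ t)] at h2
    set d₁ := finrank k (P₁ →ₗ[A] (X ⧸ t)) with hd₁
    set d₂ := finrank k (P₂ →ₗ[A] (X ⧸ t)) with hd₂
    have h3 : a * b' * d₁ ≤ a' * b * d₁ := by
      calc a * b' * d₁ = b' * (a * d₁) := by ring
        _ ≤ b' * (b * d₂) := Nat.mul_le_mul_left _ h2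
        _ = b * (b' * d₂) := by ring
        _ ≤ b * (a' * d₁) := Nat.mul_le_mul_left _ h1
        _ = a' * b * d₁ := by ring
    have h4 : a * b' * d₂ ≤ a' * b * d₂ := by
      calc a * b' * d₂ = a * (b' * d₂) := by ring
        _ ≤ a * (a' * d₁) := Nat.mul_le_mul_left _ h1
        _ = a' * (a * d₁) := by ring
        _ ≤ a' * (b * d₂) := Nat.mul_le_mul_left _ h2
        _ = a' * b * d₂ := by ring
    rw [hdet, add_mul, one_mul] at h3 h4
    have h5 : d₁ = 0 := by omega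
    have h6 : d₂ = 0 := by omega
    have s1 : Subsingleton (P₁ →ₗ[A] (X ⧸ t)) := Module.finrank_zero_iff.1 h5
    have s2 : Subsingleton (P₂ →ₗ[A] (X ⧸ t)) := Module.finrank_zero_iff.1 h6
    have h7 : Subsingleton (X ⧸ t) :=
      hP.faithful (X ⧸ t) (fun _ => Subsingleton.elim _ _) (fun _ => Subsingleton.elim _ _)
    exact Submodule.Quotient.subsingleton_iff.1 h7
  · intro hX
    exact E0_of_gen (k := k) G.f ((EE_iff_E0 G.f F.f).1 hGF) hX

end

end TB10
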