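import Pool.Agent.LibTB10.Defs
/-!
ROW [TB10 T1] ONLY MATHLIB. traces and generation.
PLAN. exists_surj_of_gen: X is a noetherian A-module (finite over k), so ⊤ = ⨆ range θ is a finite sup: compact element
(`Submodule.fg_iff_compact`, `CompleteLattice.IsCompactElement`, `isCompactElement_iff_exists_le_iSup...` or
`Submodule.exists_finset_of_iSup_eq_top`-like; alternatively: maximal element among finite sups), then π x = Σ i, θ i (x i)
(`LinearMap.lsum` / `Fintype.linearCombination`-like: `∑ i, θ i ∘ₗ LinearMap.proj i`).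
gen_of_surj: X = π(⊤) = ⨆_i range (π ∘ single i) (every x = Σ single i (x i)).
-/
set_option autoImplicit false
universe u
namespace TB10
open Module

section
variable {k : Type u} [Field k] {A : Type u} [Ring A] [Algebra k A]
  {M : Type u} [AddCommGroup M] [Module A M] {X : Type u} [AddCommGroup X] [Module A X]
  {Y : Type u} [AddCommGroup Y] [Module A Y]

theorem t1_range_le_tr (θ : M →ₗ[A] X) : LinearMap.range θ ≤ tr A M X :=
  le_iSup (fun θ : M →ₗ[A] X => LinearMap.range θ) θ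

theorem t1_join {m m' : ℕ} (π : (Fin m → M) →ₗ[A] X) (π' : (Fin m' → M) →ₗ[A] X) :
    ∃ π'' : (Fin (m + m') → M) →ₗ[A] X,
      LinearMap.range π ≤ LinearMap.range π'' ∧ LinearMap.range π' ≤ LinearMap.range π'' := by
  refine ⟨π ∘ₗ LinearMap.funLeft A M (Fin.castAdd m') + π' ∘ₗ LinearMap.funLeft A M (Fin.natAdd m),
    ?_, ?_⟩
  · rintro _ ⟨v, rfl⟩
    refine ⟨Fin.append v 0, ?_⟩
    have h1 : LinearMap.funLeft A M (Fin.castAdd m') (Fin.append v 0) = v := by
      funext i
      exact Fin.append_left v 0 i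
    have h2 : LinearMap.funLeft A M (Fin.natAdd m) (Fin.append v (0 : Fin m' → M)) = 0 := by
      funext i
      exact Fin.append_right v 0 i
    rw [LinearMap.add_apply, LinearMap.comp_apply, LinearMap.comp_apply, h1, h2, map_zero, add_zero]
  · rintro _ ⟨v, rfl⟩
    refine ⟨Fin.append 0 v, ?_⟩
    have h1 : LinearMap.funLeft A M (Fin.castAdd m') (Fin.append (0 : Fin m → M) v) = 0 := by
      funext i
      exact Fin.append_left 0 v i
    have h2 : LinearMap.funLeft A M (Fin.natAdd m) (Fin.append (0 : Fin m → M) v) = v := by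
      funext i
      exact Fin.append_right 0 v i
    rw [LinearMap.add_apply, LinearMap.comp_apply, LinearMap.comp_apply, h1, h2, map_zero, zero_add]

theorem t1_mem (x : X) (hx : x ∈ tr A M X) :
    ∃ (m : ℕ) (π : (Fin m → M) →ₗ[A] X), x ∈ LinearMap.range π := by
  refine Submodule.iSup_induction (fun θ : M →ₗ[A] X => LinearMap.range θ)
    (motive := fun x => ∃ (m : ℕ) (π : (Fin m → M) →ₗ[A] X), x ∈ LinearMap.range π) hx ?_ ?_ ?_
  · rintro θ _ ⟨v, rfl⟩
    exact ⟨1, θ ∘ₗ LinearMap.proj 0, fun _ => v, rfl⟩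
  · exact ⟨0, 0, Submodule.zero_mem _⟩
  · rintro x y ⟨m, π, h1⟩ ⟨m', π', h2⟩
    obtain ⟨π'', h3, h4⟩ := t1_join π π'
    exact ⟨m + m', π'', Submodule.add_mem _ (h3 h1) (h4 h2)⟩

theorem exists_surj_of_gen [Module k X] [IsScalarTower k A X] [Module.Finite k X] (h : Gen A M X) :
    ∃ (m : ℕ) (π : (Fin m → M) →ₗ[A] X), Function.Surjective π := by
  classical
  have hfin : Module.Finite A X := Module.Finite.of_restrictScalars_finite k A X
  obtain ⟨s, hs⟩ := hfin.fg_top
  have key : ∀ s : Finset X, ∃ (m : ℕ) (π : (Fin m → M) →ₗ[A] X), ∀ x ∈ s, x ∈ LinearMap.range π := by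
    intro s
    induction s using Finset.induction_on with
    | empty => exact ⟨0, 0, fun x hx => absurd hx (Finset.notMem_empty x)⟩
    | insert a s _ ih =>
      obtain ⟨m, π, h1⟩ := ih
      have h0 : a ∈ tr A M X := by
        have : tr A M X = ⊤ := h
        rw [this]
        exact Submodule.mem_top
      obtain ⟨m', π', h2⟩ := t1_mem a h0
      obtain ⟨π'', h3, h4⟩ := t1_join π π'
      refine ⟨m + m', π'', fun x hx => ?_⟩
      rcases Finset.mem_insert.1 hx with rfl | hx
      · exact h4 h2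
      · exact h3 (h1 x hx)
  obtain ⟨m, π, h1⟩ := key s
  refine ⟨m, π, LinearMap.range_eq_top.1 ?_⟩
  rw [eq_top_iff, ← hs, Submodule.span_le]
  exact fun x hx => h1 x hx

theorem gen_of_surj {m : ℕ} (π : (Fin m → M) →ₗ[A] X) (hπ : Function.Surjective π) : Gen A M X := by
  unfold Gen
  rw [eq_top_iff]
  rintro x -
  obtain ⟨v, rfl⟩ := hπ x
  rw [← Finset.univ_sum_single v, map_sum]
  refine Submodule.sum_mem _ fun i _ => ?_
  exact t1_range_le_tr (π ∘ₗ LinearMap.single A (fun _ : Fin m => M) i) ⟨v i, rfl⟩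

theorem gen_self : Gen A M M := by
  unfold Gen
  rw [eq_top_iff]
  rintro x -
  exact t1_range_le_tr (LinearMap.id : M →ₗ[A] M) ⟨x, rfl⟩

theorem gen_of_surj_gen (h : Gen A M X) (π : X →ₗ[A] Y) (hπ : Function.Surjective π) : Gen A M Y := by
  unfold Gen at h ⊢
  rw [eq_top_iff, ← LinearMap.range_eq_top.2 hπ, LinearMap.range_eq_map, ← h]
  unfold tr
  rw [Submodule.map_iSup, iSup_le_iff]
  intro θ
  rw [← LinearMap.range_comp]
  exact t1_range_le_tr (π ∘ₗ θ)

/-- the trace is generated by `M` -/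
theorem gen_tr : Gen A M (tr A M X) := by
  have h1 : tr A M X ≤ (tr A M (tr A M X)).map (tr A M X).subtype := by
    conv_lhs => unfold tr
    rw [iSup_le_iff]
    rintro θ _ ⟨v, rfl⟩
    have h2 : ∀ v, θ v ∈ tr A M X := fun v => t1_range_le_tr θ ⟨v, rfl⟩
    exact ⟨θ.codRestrict (tr A M X) h2 v,
      t1_range_le_tr (θ.codRestrict (tr A M X) h2) ⟨v, rfl⟩, rfl⟩
  unfold Gen
  rw [eq_top_iff]
  rintro ⟨x, hx⟩ -
  obtain ⟨y, hy, hyx⟩ := h1 hx
  have h3 : y = ⟨x, hx⟩ := Subtype.ext hyx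
  rw [← h3]
  exact hy

/-- `M` generates `X ≠ 0`: there is a nonzero homomorphism -/
theorem exists_hom_of_gen [Nontrivial X] (h : Gen A M X) : ∃ θ : M →ₗ[A] X, θ ≠ 0 := by
  by_contra hcon
  push Not at hcon
  have h1 : tr A M X = ⊥ := by
    unfold tr
    rw [iSup_eq_bot]
    intro θ
    rw [hcon θ, LinearMap.range_zero]
  have h2 : tr A M X = ⊤ := h
  rw [h1] at h2
  exact bot_ne_top h2

theorem range_le_tr (θ : M →ₗ[A] X) : LinearMap.range θ ≤ tr A M X := t1_range_le_tr θ

end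

end TB10
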