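import Pool.Agent.LibTB10.S2
/-!
ROW [TB10 W1]. (cite A3, T2, T3, S2) splitting an adjacent F (page, Step 3, local choice).
-/
set_option autoImplicit false
universe u
namespace TB10
open Module

section
variable {k : Type u} [Field k] {A : Type u} [Ring A] [Algebra k A]
    {P₁ P₂ : Type u} [AddCommGroup P₁] [Module A P₁] [Module k P₁] [IsScalarTower k A P₁] [Module.Finite k P₁]
    [AddCommGroup P₂] [Module A P₂] [Module k P₂] [IsScalarTower k A P₂] [Module.Finite k P₂]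

/-- direct summands of projective modules are projective -/
theorem projective_of_isCompl {Q : Type u} [AddCommGroup Q] [Module A Q] [Module.Projective A Q]
    {Q' Q'' : Submodule A Q} (h : IsCompl Q' Q'') : Module.Projective A Q' :=
  Module.Projective.of_split Q'.subtype (Q'.projectionOnto Q'' h) (by
    ext x; simp)

namespace W1

/-- extension by zero -/
theorem E0_sub {P Q : Type u} [AddCommGroup P] [Module A P] [AddCommGroup Q] [Module A Q]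
    (f : P →ₗ[A] Q) {X : Type u} [AddCommGroup X] [Module A X] (hX : E0 f X)
    (P' P'' : Submodule A P) (Q' : Submodule A Q) (hPc : IsCompl P' P'')
    (h' : ∀ p ∈ P', f p ∈ Q') : E0 (f.restrict h' : P' →ₗ[A] Q') X := by
  intro x
  obtain ⟨q, hq⟩ := hX (x ∘ₗ P'.projectionOnto P'' hPc)
  refine ⟨q ∘ₗ Q'.subtype, ?_⟩
  ext p
  have h1 := LinearMap.congr_fun hq (p : P)
  rw [LinearMap.comp_apply, LinearMap.comp_apply, Submodule.projectionOnto_apply_left] at h1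
  rw [LinearMap.comp_apply, LinearMap.comp_apply, ← h1]
  rfl

theorem gen_sub {P Q : Type u} [AddCommGroup P] [Module A P] [AddCommGroup Q] [Module A Q]
    (f : P →ₗ[A] Q) (P' P'' : Submodule A P) (Q' Q'' : Submodule A Q) (hPc : IsCompl P' P'')
    (hQc : IsCompl Q' Q'') (h' : ∀ p ∈ P', f p ∈ Q') (h'' : ∀ p ∈ P'', f p ∈ Q'') :
    Gen A (Q ⧸ LinearMap.range f) (Q' ⧸ LinearMap.range (f.restrict h' : P' →ₗ[A] Q')) := by
  have hle : LinearMap.range f ≤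
      (LinearMap.range (f.restrict h' : P' →ₗ[A] Q')).comap (Q'.projectionOnto Q'' hQc) := by
    rintro _ ⟨p, rfl⟩
    have hp : p ∈ P' ⊔ P'' := by rw [hPc.sup_eq_top]; trivial
    obtain ⟨p', hp', p'', hp'', rfl⟩ := Submodule.mem_sup.mp hp
    rw [Submodule.mem_comap, map_add, map_add]
    refine ⟨⟨p', hp'⟩, ?_⟩
    rw [Submodule.projectionOnto_apply_of_mem_left hQc (h' p' hp'),
      Submodule.projectionOnto_apply_of_mem_right hQc (h'' p'' hp''), add_zero]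
    rfl
  refine gen_of_surj_gen gen_self (Submodule.mapQ _ _ (Q'.projectionOnto Q'' hQc) hle) ?_
  intro y
  obtain ⟨y, rfl⟩ := Submodule.mkQ_surjective _ y
  refine ⟨Submodule.Quotient.mk (y : Q), ?_⟩
  rw [Submodule.mapQ_apply, Submodule.projectionOnto_apply_left]
  rfl

theorem nums (a b a' b' a₁ a₂ b₁ b₂ d₁ d₂ : ℕ) (ha : a₁ + a₂ = a) (hb : b₁ + b₂ = b)
    (hdet : a * b' = a' * b + 1) (hG : a' * d₁ = b' * d₂) (h1 : b₁ * d₂ ≤ a₁ * d₁)
    (h2 : b₂ * d₂ ≤ a₂ * d₁) (hd : d₁ ≠ 0 ∨ d₂ ≠ 0) :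
    a₁ * b' = a' * b₁ + 1 ∨ a₂ * b' = a' * b₂ + 1 := by
  subst ha hb
  zify at *
  set m : ℤ := (a₁ + a₂) * d₁ - (b₁ + b₂) * d₂ with hm
  have hmb : m * b' = d₁ := by
    rw [hm]
    linear_combination (d₁ : ℤ) * hdet + (b₁ + b₂ : ℤ) * hG
  have hma : m * a' = d₂ := by
    rw [hm]
    linear_combination (d₂ : ℤ) * hdet + (a₁ + a₂ : ℤ) * hG
  have hm0 : 0 ≤ m := by rw [hm]; linarith
  have hmne : m ≠ 0 := by
    intro h0
    rw [h0, zero_mul] at hmb hma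
    rcases hd with h | h
    · exact h hmb.symm
    · exact h hma.symm
  have hm1 : 0 < m := lt_of_le_of_ne hm0 (Ne.symm hmne)
  have hl1 : 0 ≤ (a₁ : ℤ) * b' - a' * b₁ := by
    have : 0 ≤ m * ((a₁ : ℤ) * b' - a' * b₁) := by
      have e : m * ((a₁ : ℤ) * b' - a' * b₁) = a₁ * d₁ - b₁ * d₂ := by
        linear_combination (a₁ : ℤ) * hmb - (b₁ : ℤ) * hma
      rw [e]; linarith
    exact nonneg_of_mul_nonneg_right this hm1
  have hl2 : 0 ≤ (a₂ : ℤ) * b' - a' * b₂ := by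
    have : 0 ≤ m * ((a₂ : ℤ) * b' - a' * b₂) := by
      have e : m * ((a₂ : ℤ) * b' - a' * b₂) = a₂ * d₁ - b₂ * d₂ := by
        linear_combination (a₂ : ℤ) * hmb - (b₂ : ℤ) * hma
      rw [e]; linarith
    exact nonneg_of_mul_nonneg_right this hm1
  have hsum : ((a₁ : ℤ) * b' - a' * b₁) + ((a₂ : ℤ) * b' - a' * b₂) = 1 := by
    linear_combination hdet
  rcases hl1.lt_or_eq with h | h
  · left; linarith
  · right; linarith

end W1

open W1 in
theorem adj_split (hP : TwoP k A P₁ P₂) (F G : Pres k A) (h : Adj P₁ P₂ F G)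
    (Y : Type u) [AddCommGroup Y] [Module A Y] [Module k Y] [IsScalarTower k A Y] [Module.Finite k Y]
    [Nontrivial Y] (hY : E0 G.f Y) (hY' : ∀ θ : G.M →ₗ[A] Y, θ = 0)
    (P' P'' : Submodule A F.P) (Q' Q'' : Submodule A F.Q) (hPc : IsCompl P' P'') (hQc : IsCompl Q' Q'')
    (h' : ∀ p ∈ P', F.f p ∈ Q') (h'' : ∀ p ∈ P'', F.f p ∈ Q'') :
    Adj P₁ P₂ (F.sub P' Q' (projective_of_isCompl hPc) (projective_of_isCompl hQc) h') G ∨
    Adj P₁ P₂ (F.sub P'' Q'' (projective_of_isCompl hPc.symm) (projective_of_isCompl hQc.symm) h'') G := by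
  obtain ⟨hF, hG, hGF, a, b, a', b', hTa, hTb, hTa', hTb', hdet⟩ := id h
  have hgen : Gen A F.M Y := (E0_iff_gen hP F G h Y).1 hY
  have hFM : E0 F.f F.M := (rigid_iff_E0 F.f).1 hF
  have hGM : E0 G.f F.M := (EE_iff_E0 G.f F.f).1 hGF
  have hFY : E0 F.f Y := E0_of_gen (k := k) F.f hFM hgen
  obtain ⟨a₁, a₂, ha, hTa₁, hTa₂⟩ := hP.split1 F.Q Q' Q'' a hQc hTa
  obtain ⟨b₁, b₂, hb, hTb₁, hTb₂⟩ := hP.split2 F.P P' P'' b hPc hTb
  have e1 : b' * finrank k (P₂ →ₗ[A] Y) ≤ a' * finrank k (P₁ →ₗ[A] Y) := by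
    rw [← hTb' Y, ← hTa' Y]
    exact hom_le_of_E0 G.f hY
  have e2 : a' * finrank k (P₁ →ₗ[A] Y) ≤ b' * finrank k (P₂ →ₗ[A] Y) := by
    rw [← hTb' Y, ← hTa' Y]
    exact hom_ge_of_zero G.f hY'
  have e3 : b₁ * finrank k (P₂ →ₗ[A] Y) ≤ a₁ * finrank k (P₁ →ₗ[A] Y) := by
    rw [← hTb₁ Y, ← hTa₁ Y]
    exact hom_le_of_E0 _ (E0_sub F.f hFY P' P'' Q' hPc h')
  have e4 : b₂ * finrank k (P₂ →ₗ[A] Y) ≤ a₂ * finrank k (P₁ →ₗ[A] Y) := by
    rw [← hTb₂ Y, ← hTa₂ Y]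
    exact hom_le_of_E0 _ (E0_sub F.f hFY P'' P' Q'' hPc.symm h'')
  have hd : finrank k (P₁ →ₗ[A] Y) ≠ 0 ∨ finrank k (P₂ →ₗ[A] Y) ≠ 0 := by
    by_contra hcon
    push Not at hcon
    obtain ⟨h1, h2⟩ := hcon
    rw [Module.finrank_zero_iff] at h1 h2
    have := hP.faithful Y (fun x => Subsingleton.elim _ _) (fun x => Subsingleton.elim _ _)
    exact not_subsingleton Y this
  -- rigidity and `E(G,.) = 0` of a summand
  have hR : ∀ (P' P'' : Submodule A F.P) (Q' Q'' : Submodule A F.Q) (hPc : IsCompl P' P'')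
      (hQc : IsCompl Q' Q'') (h' : ∀ p ∈ P', F.f p ∈ Q') (_ : ∀ p ∈ P'', F.f p ∈ Q''),
      Rigid (F.f.restrict h' : P' →ₗ[A] Q') ∧ EE G.f (F.f.restrict h' : P' →ₗ[A] Q') := by
    intro P' P'' Q' Q'' hPc hQc h' h''
    haveI := projective_of_isCompl (A := A) hPc
    haveI := projective_of_isCompl (A := A) hQc
    have hg := gen_sub F.f P' P'' Q' Q'' hPc hQc h' h''
    exact ⟨(rigid_iff_E0 _).2 (E0_sub F.f (E0_of_gen (k := k) F.f hFM hg) P' P'' Q' hPc h'),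
      (EE_iff_E0 _ _).2 (E0_of_gen (k := k) G.f hGM hg)⟩
  rcases nums a b a' b' a₁ a₂ b₁ b₂ _ _ ha hb hdet (le_antisymm e2 e1) e3 e4 hd with hl | hl
  · left
    obtain ⟨r1, r2⟩ := hR P' P'' Q' Q'' hPc hQc h' h''
    exact ⟨r1, hG, r2, a₁, b₁, a', b', hTa₁, hTb₁, hTa', hTb', hl⟩
  · right
    obtain ⟨r1, r2⟩ := hR P'' P' Q'' Q' hPc.symm hQc.symm h'' h'
    exact ⟨r1, hG, r2, a₂, b₂, a', b', hTa₂, hTb₂, hTa', hTb', hl⟩

end

end TB10
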